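import Pool.Agent.ETB.Defs
import Pool.Agent.ISI.MilC
import Pool.Agent.CST.Fin

/-!
# An element of `K₂(ℚ(x))` which is unramified at all places with `x` integral is `0`

`milnor` with `S = ∅`: over each monic irreducible polynomial there is a place where `x` is integral.
-/

open scoped BigOperators Polynomial
open Polynomial

namespace Pool.Agent.ETB

open Pool.Agent.ETU Pool.Agent.CST Pool.Agent.Helper11 Pool.Agent.ISI

private theorem BeZ_tr {K : Type} [Field K] [CharZero K] {g : K} (hg : Transcendental ℚ g)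
    {π : ℚ[X]} (hπ : 0 < π.natDegree) : Transcendental ℚ (aeval g π) := by
  rw [transcendental_iff] at hg ⊢
  intro p hp
  have h1 : aeval g (p.comp π) = 0 := by rw [aeval_comp, hp]
  have h2 := hg _ h1
  by_contra hp0
  have h3 : (p.comp π).natDegree = p.natDegree * π.natDegree := natDegree_comp
  rw [h2, natDegree_zero] at h3
  have h4 : p.natDegree = 0 := by
    rcases Nat.mul_eq_zero.1 h3.symm with h | h
    · exact h
    · omega
  obtain ⟨c, rfl⟩ : ∃ c, p = C c := ⟨_, eq_C_of_natDegree_eq_zero h4⟩
  rw [C_comp] at h2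
  exact hp0 h2

private theorem BeZ_place {K : Type} [Field K] [CharZero K] {g : K} (hg : Transcendental ℚ g)
    (hK : FiniteDimensional (IntermediateField.adjoin ℚ {g}) K) {π : ℚ[X]} (hm : π.Monic)
    (hi : Irreducible π) :
    ∃ O : ValuationSubring K, IsPl O ∧ O.valuation (aeval g π) < 1 ∧ g ∈ O := by
  have h1 : 0 < π.natDegree := hi.natDegree_pos
  have h2 := BeZ_tr hg h1
  obtain ⟨O, hO, h3⟩ := exists_zero h2 (finite_of_transcendental hK h2)
  refine ⟨O, hO, h3, ?_⟩
  by_contra hgO
  have h : 1 < O.valuation g := by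
    rw [← not_le]
    exact fun h => hgO ((O.valuation_le_one_iff _).1 h)
  have h4 : O.valuation (aeval g π) = O.valuation g ^ π.natDegree := by
    have h5 : aeval g π = g ^ π.natDegree + ∑ i ∈ Finset.range π.natDegree,
        ((π.coeff i : ℚ) : K) * g ^ i := by
      rw [aeval_eq_sum_range, Finset.sum_range_succ, add_comm]
      congr 1
      · rw [coeff_natDegree, hm.leadingCoeff, one_smul]
      · refine Finset.sum_congr rfl fun i _ => ?_
        rw [Algebra.smul_def, eq_ratCast]
    have h6 : O.valuation (∑ i ∈ Finset.range π.natDegree,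
        ((π.coeff i : ℚ) : K) * g ^ i) < O.valuation g ^ π.natDegree := by
      refine Valuation.map_sum_lt _ (pow_ne_zero _ (by
        intro h0
        rw [h0] at h
        exact not_lt_bot h)) fun i hi => ?_
      rw [map_mul, map_pow]
      have h7 := (O.valuation_le_one_iff _).2 (hO.2 (π.coeff i))
      exact (mul_le_of_le_one_left' h7).trans_lt
        (pow_lt_pow_right₀ h (Finset.mem_range.1 hi))
    rw [h5, Valuation.map_add_eq_of_lt_left, map_pow]
    rwa [map_pow]
  rw [h4] at h3
  exact absurd h3 (not_lt.2 (one_le_pow₀ h.le))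

theorem lp_zero {K : Type} [Field K] [CharZero K] {x : K} (hx : Transcendental ℚ x)
    (hK : FiniteDimensional (IntermediateField.adjoin ℚ {x}) K) {β : KMQ K 2} (hβ : β ∈ LP x)
    (h : ∀ O : ValuationSubring K, IsPl O → x ∈ O → β ∈ unrM O 2) : β = 0 := by
  have h1 := milnor hx (∅ : Set ℚ) hβ fun π hm hi _ => by
    obtain ⟨O, hO, hv, hxO⟩ := BeZ_place hx hK hm hi
    exact ⟨O, hO.1, hO.2, hxO, hv, h O hO hxO⟩
  have h2 : {v : KMQ K 2 | ∃ s ∈ (∅ : Set ℚ), ∃ q : ℚˣ, v = sy (pq x (X - C s)) (cst K q)} = ∅ := by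
    ext v
    simp
  rw [h2, Submodule.span_empty, Submodule.mem_bot] at h1
  exact h1

end Pool.Agent.ETB
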