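import Pool.Agent.ETB.Defs

/-!
# Basic facts on the curve

`Ey` is monic of degree `g + 1`; with `y = D(v) x` one has `∏ (y - a i D(v)) = D(v)^(g+1) ∏ (x - a i) = c⁻¹ D(v)^g`. `x` is a root of
`∏ (T - a i) - (c D(y))⁻¹`, a monic polynomial over `ℚ(y)`, so `K` is finite over `ℚ(y)` (`Bid.fin`). In a valuation ring which contains `x` and `y` all the
factors of `c ∏ (x - a i) ∏ (y - b l) = 1` are units (`Bid.one`).
-/

open scoped BigOperators Polynomial
open Polynomial

namespace Pool.Agent.ETB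

open Pool.Agent.ETU Pool.Agent.CST Pool.Agent.Helper11 Pool.Agent.ISI
open Pool.Agent.ETI (Tm Bd xa xa_val Hf)

theorem ey_monic {g r : ℕ} (a : Fin (g + 1) → ℤ) (b : Fin (r + 1) → ℤ) (c : ℤ) :
    (Ey a b c).Monic ∧ (Ey a b c).natDegree = g + 1 := by
  have hm : (∏ i, (X - C (C (a i : ℚ) * (Dp b).map (Int.castRingHom ℚ))) : ℚ[X][X]).Monic :=
    monic_prod_of_monic _ _ fun i _ => monic_X_sub_C _
  have hd : (∏ i, (X - C (C (a i : ℚ) * (Dp b).map (Int.castRingHom ℚ))) :
      ℚ[X][X]).natDegree = g + 1 := by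
    rw [natDegree_prod_of_monic _ _ fun i _ => monic_X_sub_C _,
      Finset.sum_congr rfl fun i _ => natDegree_X_sub_C _]
    simp
  have hlt : (C (C ((c : ℚ)⁻¹) * ((Dp b).map (Int.castRingHom ℚ)) ^ g) : ℚ[X][X]).natDegree <
      (∏ i, (X - C (C (a i : ℚ) * (Dp b).map (Int.castRingHom ℚ))) : ℚ[X][X]).natDegree := by
    rw [natDegree_C, hd]
    omega
  constructor
  · unfold Ey
    exact hm.sub_of_left (degree_lt_degree hlt)
  · unfold Ey
    rw [natDegree_sub_eq_left_of_natDegree_lt hlt, hd]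

theorem dp_aeval {r : ℕ} (b : Fin (r + 1) → ℤ) {K : Type} [Field K] [CharZero K] (v : K) :
    aeval v (Dp b) = ∏ l, (v - b l) := by
  unfold Dp
  rw [map_prod]
  refine Finset.prod_congr rfl fun l _ => ?_
  rw [map_sub, aeval_X, aeval_C, eq_intCast]

theorem Bid.symm {g r : ℕ} {a : Fin (g + 1) → ℤ} {b : Fin (r + 1) → ℤ} {c : ℤ} {K : Type} [Field K]
    [CharZero K] {x y : K} (H : Bid a b c x y) : Bid b a c y x := by
  refine ⟨H.injb, H.inja, H.c0, H.try_, H.trx, ?_, ?_⟩
  · rw [Set.pair_comm]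
    exact H.top
  · rw [mul_right_comm]
    exact H.eq

private theorem cvA_top {K : Type} [Field K] [CharZero K] {x v : K}
    (ht : IntermediateField.adjoin ℚ {x, v} = ⊤) :
    IntermediateField.adjoin (IntermediateField.adjoin ℚ {x}) {v} = ⊤ := by
  have h1 := IntermediateField.adjoin_adjoin_left ℚ {x} {v}
  have h2 : ({x} ∪ {v} : Set K) = {x, v} := rfl
  rw [h2, ht] at h1
  exact IntermediateField.restrictScalars_injective ℚ (h1.trans
    (IntermediateField.restrictScalars_top).symm)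

private theorem cvA_int {g : ℕ} (a : Fin (g + 1) → ℤ) {K : Type} [Field K] [CharZero K]
    (L : IntermediateField ℚ K) {x : K} (h : ∏ i, (x - (a i : K)) ∈ L) : IsIntegral L x := by
  have hm : (∏ i, (X - C ((a i : ℤ) : L)) : L[X]).Monic :=
    monic_prod_of_monic _ _ fun i _ => monic_X_sub_C _
  have hd : (∏ i, (X - C ((a i : ℤ) : L)) : L[X]).natDegree = g + 1 := by
    rw [natDegree_prod_of_monic _ _ fun i _ => monic_X_sub_C _,
      Finset.sum_congr rfl fun i _ => natDegree_X_sub_C _]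
    simp
  have hlt : (C (⟨_, h⟩ : L) : L[X]).natDegree <
      (∏ i, (X - C ((a i : ℤ) : L)) : L[X]).natDegree := by
    rw [natDegree_C, hd]
    omega
  refine ⟨∏ i, (X - C ((a i : ℤ) : L)) - C (⟨_, h⟩ : L), hm.sub_of_left (degree_lt_degree hlt), ?_⟩
  rw [eval₂_sub, eval₂_C, eval₂_finset_prod, sub_eq_zero]
  change _ = ∏ i, (x - (a i : K))
  refine Finset.prod_congr rfl fun i _ => ?_
  rw [eval₂_sub, eval₂_X, eval₂_C, map_intCast]

theorem Bid.fin {g r : ℕ} {a : Fin (g + 1) → ℤ} {b : Fin (r + 1) → ℤ} {c : ℤ} {K : Type} [Field K]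
    [CharZero K] {x y : K} (H : Bid a b c x y) :
    FiniteDimensional (IntermediateField.adjoin ℚ {y}) K := by
  have hy : y ∈ IntermediateField.adjoin ℚ {y} := IntermediateField.subset_adjoin _ _ rfl
  have h0 : (c : K) * ∏ l, (y - b l) ≠ 0 := by
    intro h
    have h1 := H.eq
    rw [mul_right_comm, h, zero_mul] at h1
    exact zero_ne_one h1
  have h1 : ∏ i, (x - (a i : K)) = ((c : K) * ∏ l, (y - b l))⁻¹ := by
    refine eq_inv_of_mul_eq_one_left ?_
    rw [← H.eq]
    ring
  have h2 : ∏ i, (x - (a i : K)) ∈ IntermediateField.adjoin ℚ {y} := by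
    rw [h1]
    exact inv_mem (mul_mem (intCast_mem _ c) (prod_mem fun l _ => sub_mem hy (intCast_mem _ _)))
  have h7 : FiniteDimensional (IntermediateField.adjoin ℚ {y})
      (IntermediateField.adjoin (IntermediateField.adjoin ℚ {y}) {x}) :=
    IntermediateField.adjoin.finiteDimensional (cvA_int a _ h2)
  have ht := H.top
  rw [Set.pair_comm] at ht
  rw [cvA_top ht] at h7
  exact IntermediateField.topEquiv.toLinearEquiv.finiteDimensional

private theorem cvA_one {G : Type*} [LinearOrderedCommGroupWithZero G] {s t : G} (hs : s ≤ 1)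
    (ht : t ≤ 1) (h : s * t = 1) : s = 1 ∧ t = 1 := by
  constructor
  · refine le_antisymm hs ?_
    rw [← h]
    exact mul_le_of_le_one_right' ht
  · refine le_antisymm ht ?_
    rw [← h]
    exact mul_le_of_le_one_left' hs

private theorem cvA_le {r : ℕ} (b : Fin (r + 1) → ℤ) {K : Type} [Field K] {y : K}
    {O : ValuationSubring K} (hy : y ∈ O) (l : Fin (r + 1)) : O.valuation (y - b l) ≤ 1 :=
  (O.valuation_le_one_iff _).2 (sub_mem hy (intCast_mem O _))

private theorem cvA_prod {r : ℕ} (b : Fin (r + 1) → ℤ) {K : Type} [Field K] {y : K}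
    {O : ValuationSubring K} (hy : y ∈ O) (h : O.valuation (∏ l, (y - (b l : K))) = 1)
    (l : Fin (r + 1)) : O.valuation (y - b l) = 1 := by
  classical
  rw [← Finset.mul_prod_erase Finset.univ _ (Finset.mem_univ l), map_mul] at h
  refine (cvA_one (cvA_le b hy l) ?_ h).1
  rw [map_prod]
  exact Finset.prod_le_one' fun i _ => cvA_le b hy i

/-- all the factors are units where `x` and `y` are integral (for every valuation ring) -/
theorem Bid.one {g r : ℕ} {a : Fin (g + 1) → ℤ} {b : Fin (r + 1) → ℤ} {c : ℤ} {K : Type} [Field K]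
    [CharZero K] {x y : K} (H : Bid a b c x y) {O : ValuationSubring K} (hx : x ∈ O) (hy : y ∈ O) :
    (∀ i, O.valuation (x - a i) = 1) ∧ ∀ l, O.valuation (y - b l) = 1 := by
  have h1 : O.valuation (c : K) ≤ 1 := (O.valuation_le_one_iff _).2 (intCast_mem O c)
  have h2 : O.valuation (∏ i, (x - (a i : K))) ≤ 1 := by
    rw [map_prod]
    exact Finset.prod_le_one' fun i _ => cvA_le a hx i
  have h3 : O.valuation (∏ l, (y - (b l : K))) ≤ 1 := by
    rw [map_prod]
    exact Finset.prod_le_one' fun l _ => cvA_le b hy l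
  have h4 := congrArg O.valuation H.eq
  rw [map_mul, map_mul, map_one] at h4
  have h5 := cvA_one (mul_le_one' h1 h2) h3 h4
  have h6 := cvA_one h1 h2 h5.1
  exact ⟨cvA_prod a hx h6.2, cvA_prod b hy h5.2⟩

/-- where `y` is integral and `D(y)` is a unit (and `c` too, as `O` contains `ℚ`) `x` is integral -/
theorem Bid.mem {g r : ℕ} {a : Fin (g + 1) → ℤ} {b : Fin (r + 1) → ℤ} {c : ℤ} {K : Type} [Field K]
    [CharZero K] {x y : K} (H : Bid a b c x y) {O : ValuationSubring K} (hO : IsPl O)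
    (hD : O.valuation (aeval y (Dp b)) = 1) : x ∈ O := by
  by_contra hx
  have h1 : 1 < O.valuation x := by
    rw [← not_le, O.valuation_le_one_iff]
    exact hx
  have h2 : ∀ i, O.valuation (x - a i) = O.valuation x := by
    intro i
    exact Valuation.map_sub_eq_of_lt_left _
      (((O.valuation_le_one_iff _).2 (intCast_mem O (a i))).trans_lt h1)
  have hc : O.valuation (c : K) = 1 := by
    have h3 : O.valuation (c : K) ≤ 1 := (O.valuation_le_one_iff _).2 (intCast_mem O c)
    have h4 : O.valuation ((c : K)⁻¹) ≤ 1 := by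
      rw [O.valuation_le_one_iff]
      have h5 := hO.2 ((c : ℚ)⁻¹)
      rwa [Rat.cast_inv, Rat.cast_intCast] at h5
    refine (cvA_one h3 h4 ?_).1
    rw [← map_mul, mul_inv_cancel₀ (Int.cast_ne_zero.2 H.c0), map_one]
  have h4 := congrArg O.valuation H.eq
  rw [← dp_aeval b, map_mul, map_mul, map_one, hc, hD, one_mul, mul_one, map_prod,
    Finset.prod_congr rfl fun i _ => h2 i, Finset.prod_const, Finset.card_univ,
    Fintype.card_fin] at h4
  exact absurd h4 (one_lt_pow₀ h1 (Nat.succ_ne_zero g)).ne'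

theorem Crv.prod {g r : ℕ} {a : Fin (g + 1) → ℤ} {b : Fin (r + 1) → ℤ} {c : ℤ} {K : Type} [Field K]
    [CharZero K] {x : K} {v : Kˣ} (H : Crv a b c x v) :
    (c : K) * aeval (v : K) (Dp b) * ∏ l, (x - a l) = 1 := by
  rw [dp_aeval, mul_right_comm]
  exact H.bid.eq

theorem Crv.fin {g r : ℕ} {a : Fin (g + 1) → ℤ} {b : Fin (r + 1) → ℤ} {c : ℤ} {K : Type} [Field K]
    [CharZero K] {x : K} {v : Kˣ} (H : Crv a b c x v) :
    FiniteDimensional (IntermediateField.adjoin ℚ {(v : K)}) K := H.bid.fin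

private theorem cvA_D {r : ℕ} (b : Fin (r + 1) → ℤ) {K : Type} [Field K] [CharZero K] (v : K) :
    aeval v ((Dp b).map (Int.castRingHom ℚ)) = aeval v (Dp b) := by
  rw [← algebraMap_int_eq, aeval_map_algebraMap]

theorem Crv.ey {g r : ℕ} {a : Fin (g + 1) → ℤ} {b : Fin (r + 1) → ℤ} {c : ℤ} {K : Type} [Field K]
    [CharZero K] {x : K} {v : Kˣ} (H : Crv a b c x v) :
    ev2 (v : K) (aeval (v : K) (Dp b) * x) (Ey a b c) = 0 := by
  have hc : (c : K) ≠ 0 := Int.cast_ne_zero.2 H.bid.c0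
  have h1 := H.prod
  obtain ⟨D, hD⟩ : ∃ D : K, D = aeval (v : K) (Dp b) := ⟨_, rfl⟩
  rw [← hD] at h1 ⊢
  have h2 : ev2 (v : K) (D * x)
      (∏ i, (X - C (C (a i : ℚ) * (Dp b).map (Int.castRingHom ℚ)))) =
      D ^ (g + 1) * ∏ i, (x - a i) := by
    rw [map_prod]
    have h3 : ∀ i ∈ (Finset.univ : Finset (Fin (g + 1))),
        ev2 (v : K) (D * x) (X - C (C (a i : ℚ) * (Dp b).map (Int.castRingHom ℚ))) =
          D * (x - a i) := by
      intro i _
      unfold ev2
      rw [coe_eval₂RingHom, eval₂_sub, eval₂_X, eval₂_C]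
      change D * x - aeval (v : K) _ = _
      rw [map_mul, aeval_C, cvA_D, ← hD, eq_ratCast, Rat.cast_intCast]
      ring
    rw [Finset.prod_congr rfl h3, Finset.prod_mul_distrib]
    simp
  have h3 : ev2 (v : K) (D * x)
      (C (C ((c : ℚ)⁻¹) * ((Dp b).map (Int.castRingHom ℚ)) ^ g)) = (c : K)⁻¹ * D ^ g := by
    unfold ev2
    rw [coe_eval₂RingHom, eval₂_C]
    change aeval (v : K) _ = _
    rw [map_mul, aeval_C, map_pow, cvA_D, ← hD, eq_ratCast, Rat.cast_inv, Rat.cast_intCast]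
  unfold Ey
  rw [map_sub, h2, h3, sub_eq_zero]
  refine mul_left_cancel₀ hc ?_
  rw [mul_inv_cancel_left₀ hc]
  linear_combination D ^ g * h1

theorem Crv.gen {g r : ℕ} {a : Fin (g + 1) → ℤ} {b : Fin (r + 1) → ℤ} {c : ℤ} {K : Type} [Field K]
    [CharZero K] {x : K} {v : Kˣ} (H : Crv a b c x v) :
    IntermediateField.adjoin ℚ {(v : K), aeval (v : K) (Dp b) * x} = ⊤ := by
  have h1 := H.prod
  have h2 : aeval (v : K) (Dp b) ≠ 0 := by
    intro h
    rw [h, mul_zero, zero_mul] at h1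
    exact zero_ne_one h1
  rw [eq_top_iff, ← H.bid.top, IntermediateField.adjoin_le_iff]
  have hv : (v : K) ∈ IntermediateField.adjoin ℚ {(v : K), aeval (v : K) (Dp b) * x} :=
    IntermediateField.subset_adjoin _ _ (Set.mem_insert _ _)
  have hvx : aeval (v : K) (Dp b) * x ∈
      IntermediateField.adjoin ℚ {(v : K), aeval (v : K) (Dp b) * x} :=
    IntermediateField.subset_adjoin _ _ (Set.mem_insert_of_mem _ rfl)
  have hD : aeval (v : K) (Dp b) ∈
      IntermediateField.adjoin ℚ {(v : K), aeval (v : K) (Dp b) * x} := by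
    have h3 : ∏ l, ((v : K) - b l) ∈
        IntermediateField.adjoin ℚ {(v : K), aeval (v : K) (Dp b) * x} :=
      prod_mem fun l _ => sub_mem hv (intCast_mem _ _)
    rwa [← dp_aeval b (v : K)] at h3
  rintro z (rfl | rfl)
  · have h3 := div_mem hvx hD
    rwa [mul_div_cancel_left₀ _ h2] at h3
  · exact hv

/-- a place with `v` integral and `D(v)` a unit has `v` a unit -/
theorem Crv.vunit {g r : ℕ} {a : Fin (g + 1) → ℤ} {b : Fin (r + 1) → ℤ} {c : ℤ} {K : Type} [Field K]
    [CharZero K] {x : K} {v : Kˣ} (H : Crv a b c x v) {O : ValuationSubring K} (hv : (v : K) ∈ O)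
    (hD : O.valuation (aeval (v : K) (Dp b)) = 1) : O.valuation (v : K) = 1 := by
  rw [dp_aeval] at hD
  have h1 := cvA_prod b hv hD 0
  rwa [H.b0, Int.cast_zero, sub_zero] at h1

end Pool.Agent.ETB
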