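import Pool.Agent.ETB.Frc

/-!
# MODULE ETB-Cyc : the cycles

For `q = (l, i)` the function `Z q` on pairs of lines is `B_l(J 0) A_i(J 1) - B_l(J 1) A_i(J 0)`, where `A_i` is `1` at the line `i + 1` of the
first direction, `-1` at the line `0` of the first direction and `0` else, and `B_l` the same for the second direction.
-/

open scoped BigOperators

namespace Pool.Agent.ETB

open Pool.Agent.Helper11

/-- the function `1` at `u`, `-1` at `v` -/
private noncomputable def cyc_d {N : ℕ} (u v : Fin N) (j : Fin N) : ℚ :=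
  (if j = u then 1 else 0) - if j = v then 1 else 0

private theorem cyc_sum {N : ℕ} (u v : Fin N) {M : Type*} [AddCommGroup M] [Module ℚ M]
    (F : Fin N → M) : ∑ j, cyc_d u v j • F j = F u - F v := by
  unfold cyc_d
  simp only [sub_smul, ite_smul, one_smul, zero_smul, Finset.sum_sub_distrib,
    Finset.sum_ite_eq', Finset.mem_univ, if_true]

private theorem cyc_sum0 {N : ℕ} (u v : Fin N) : ∑ j, cyc_d u v j = 0 := by
  have h := cyc_sum u v (fun _ => (1 : ℚ))
  simpa using h

/-- the function `A_i` -/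
private noncomputable def cyc_A {g r : ℕ} (i : Fin g) : Fin ((g + 1) + (r + 1)) → ℚ :=
  cyc_d (Fin.castAdd (r + 1) i.succ) (Fin.castAdd (r + 1) 0)

/-- the function `B_l` -/
private noncomputable def cyc_B {g r : ℕ} (l : Fin r) : Fin ((g + 1) + (r + 1)) → ℚ :=
  cyc_d (Fin.natAdd (g + 1) l.succ) (Fin.natAdd (g + 1) 0)

private theorem cyc_ne {g r : ℕ} (u : Fin (g + 1)) (w : Fin (r + 1)) :
    Fin.castAdd (r + 1) u ≠ Fin.natAdd (g + 1) w := by
  intro h
  have h1 := congrArg Fin.val h
  have h2 := u.2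
  simp only [Fin.val_castAdd, Fin.val_natAdd] at h1
  omega

private theorem cyc_A_nat {g r : ℕ} (i : Fin g) (w : Fin (r + 1)) :
    cyc_A (r := r) i (Fin.natAdd (g + 1) w) = 0 := by
  unfold cyc_A cyc_d
  rw [if_neg (cyc_ne _ _).symm, if_neg (cyc_ne _ _).symm, sub_zero]

private theorem cyc_B_cast {g r : ℕ} (l : Fin r) (u : Fin (g + 1)) :
    cyc_B (g := g) l (Fin.castAdd (r + 1) u) = 0 := by
  unfold cyc_B cyc_d
  rw [if_neg (cyc_ne _ _), if_neg (cyc_ne _ _), sub_zero]

private theorem cyc_A_cast {g r : ℕ} (i i' : Fin g) :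
    cyc_A (r := r) i (Fin.castAdd (r + 1) i'.succ) = if i' = i then 1 else 0 := by
  unfold cyc_A cyc_d
  have h1 : (Fin.castAdd (r + 1) i'.succ = Fin.castAdd (r + 1) i.succ) ↔ i' = i := by
    rw [(Fin.castAdd_injective (g + 1) (r + 1)).eq_iff, Fin.succ_inj]
  have h2 : Fin.castAdd (r + 1) i'.succ ≠ Fin.castAdd (r + 1) (0 : Fin (g + 1)) := fun h =>
    Fin.succ_ne_zero i' (Fin.castAdd_injective (g + 1) (r + 1) h)
  rw [if_neg h2, sub_zero]
  by_cases h : i' = i
  · rw [if_pos h, if_pos (h1.2 h)]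
  · rw [if_neg h, if_neg (fun h' => h (h1.1 h'))]

private theorem cyc_B_nat {g r : ℕ} (l l' : Fin r) :
    cyc_B (g := g) l (Fin.natAdd (g + 1) l'.succ) = if l' = l then 1 else 0 := by
  unfold cyc_B cyc_d
  have hinj : Function.Injective (Fin.natAdd (g + 1) : Fin (r + 1) → Fin ((g + 1) + (r + 1))) := by
    intro x y hxy
    have := congrArg Fin.val hxy
    simp only [Fin.val_natAdd] at this
    exact Fin.ext (by omega)
  have h1 : (Fin.natAdd (g + 1) l'.succ = Fin.natAdd (g + 1) l.succ) ↔ l' = l := by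
    rw [hinj.eq_iff, Fin.succ_inj]
  have h2 : Fin.natAdd (g + 1) l'.succ ≠ Fin.natAdd (g + 1) (0 : Fin (r + 1)) := fun h =>
    Fin.succ_ne_zero l' (hinj h)
  rw [if_neg h2, sub_zero]
  by_cases h : l' = l
  · rw [if_pos h, if_pos (h1.2 h)]
  · rw [if_neg h, if_neg (fun h' => h (h1.1 h'))]

/-- the cycle as a function -/
private noncomputable def cyc_z {g r : ℕ} (q : Fin r × Fin g)
    (J : Fin 2 → Fin ((g + 1) + (r + 1))) : ℚ :=
  cyc_B q.1 (J 0) * cyc_A q.2 (J 1) - cyc_B q.1 (J 1) * cyc_A q.2 (J 0)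

private theorem cyc_det {g r : ℕ} (J : Fin 2 → Fin ((g + 1) + (r + 1))) :
    hypDet (n := 1) (la g r) J =
      la g r (J 0) 0 * la g r (J 1) 1 - la g r (J 0) 1 * la g r (J 1) 0 := by
  unfold hypDet
  rw [Matrix.det_fin_two]
  rfl

private theorem cyc_la_cast {g r : ℕ} (u : Fin (g + 1)) :
    la g r (Fin.castAdd (r + 1) u) = ![1, 0] := by
  unfold la
  rw [Fin.append_left]

private theorem cyc_la_nat {g r : ℕ} (w : Fin (r + 1)) :
    la g r (Fin.natAdd (g + 1) w) = ![0, 1] := by
  unfold la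
  rw [Fin.append_right]

private theorem cyc_supp {g r : ℕ} (q : Fin r × Fin g) (J : Fin 2 → Fin ((g + 1) + (r + 1)))
    (h : hypDet (n := 1) (la g r) J = 0) : cyc_z q J = 0 := by
  rw [cyc_det] at h
  unfold cyc_z
  generalize J 0 = x at h ⊢
  generalize J 1 = y at h ⊢
  induction x using Fin.addCases with
  | left u =>
    induction y using Fin.addCases with
    | left u' => rw [cyc_B_cast, cyc_B_cast, zero_mul, zero_mul, sub_zero]
    | right w =>
      rw [cyc_la_cast, cyc_la_nat] at h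
      simp at h
  | right w =>
    induction y using Fin.addCases with
    | left u' =>
      rw [cyc_la_cast, cyc_la_nat] at h
      simp at h
    | right w' => rw [cyc_A_nat, cyc_A_nat, mul_zero, mul_zero, sub_zero]

private theorem cyc_mem {g r : ℕ} (q : Fin r × Fin g) :
    (cyc_z q : (Fin (1 + 1) → Fin ((g + 1) + (r + 1))) → ℚ) ∈ hypCycles (n := 1) (la g r) := by
  refine ⟨?_, ?_, ?_⟩
  · intro J i j hij
    have hsw : (J ∘ Equiv.swap i j) 0 = J 1 ∧ (J ∘ Equiv.swap i j) 1 = J 0 := by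
      fin_cases i <;> fin_cases j
      · exact absurd rfl hij
      · exact ⟨by simp, by simp⟩
      · exact ⟨by simp, by simp⟩
      · exact absurd rfl hij
    unfold cyc_z
    rw [hsw.1, hsw.2]
    ring
  · intro J hJ
    exact cyc_supp q J hJ
  · intro J m
    have hA : ∑ k, cyc_A (r := r) q.2 k = 0 := cyc_sum0 _ _
    have hB : ∑ k, cyc_B (g := g) q.1 k = 0 := cyc_sum0 _ _
    fin_cases m
    · have h1 : ∀ k, cyc_z q (Function.update J (0 : Fin 2) k) =
          cyc_B q.1 k * cyc_A q.2 (J 1) - cyc_B q.1 (J 1) * cyc_A q.2 k := by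
        intro k
        unfold cyc_z
        rw [Function.update_self, Function.update_of_ne (by decide)]
      have h2 : ∑ k, cyc_z q (Function.update J (0 : Fin 2) k) = 0 := by
        rw [Finset.sum_congr rfl fun k _ => h1 k, Finset.sum_sub_distrib, ← Finset.sum_mul,
          ← Finset.mul_sum, hA, hB]
        ring
      exact h2
    · have h1 : ∀ k, cyc_z q (Function.update J (1 : Fin 2) k) =
          cyc_B q.1 (J 0) * cyc_A q.2 k - cyc_B q.1 k * cyc_A q.2 (J 0) := by
        intro k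
        unfold cyc_z
        rw [Function.update_self, Function.update_of_ne (by decide)]
      have h2 : ∑ k, cyc_z q (Function.update J (1 : Fin 2) k) = 0 := by
        rw [Finset.sum_congr rfl fun k _ => h1 k, Finset.sum_sub_distrib, ← Finset.sum_mul,
          ← Finset.mul_sum, hA, hB]
        ring
      exact h2

private theorem cyc_eval {g r : ℕ} (q q' : Fin r × Fin g) :
    cyc_z q' ![Fin.natAdd (g + 1) q.1.succ, Fin.castAdd (r + 1) q.2.succ] =
      if q = q' then 1 else 0 := by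
  unfold cyc_z
  simp only [Matrix.cons_val_zero, Matrix.cons_val_one]
  rw [cyc_B_cast, zero_mul, sub_zero, cyc_B_nat, cyc_A_cast]
  by_cases h : q = q'
  · subst h
    simp
  · rw [if_neg h]
    by_cases h1 : q.1 = q'.1
    · have h2 : q.2 ≠ q'.2 := fun h2 => h (Prod.ext h1 h2)
      rw [if_neg h2, mul_zero]
    · rw [if_neg h1, zero_mul]

private theorem cyc_neg_one {K : Type} [Field K] [CharZero K] {e : Kˣ} (he : e = 1 ∨ e = -1)
    (u : Kˣ) : sy u e = 0 ∧ sy e u = 0 := by
  have h1 : sy u e = 0 := by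
    rcases he with he | he
    · rw [he]
      exact sy_one_right u
    · have h2 : sy u (e * e) = sy u e + sy u e := sy_mul_right u e e
      have h3 : e * e = 1 := by
        rw [he]
        simp
      rw [h3, sy_one_right] at h2
      have h4 : (2 : ℚ) • sy u e = 0 := by
        rw [two_smul]
        exact h2.symm
      exact (smul_eq_zero.1 h4).resolve_left (by norm_num)
  refine ⟨h1, ?_⟩
  rw [sy_anti, h1, neg_zero]

private theorem cyc_term {g r : ℕ} {K : Type} [Field K] [CharZero K]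
    (L : Fin ((g + 1) + (r + 1)) → Kˣ) (D : (Fin 2 → Fin ((g + 1) + (r + 1))) → Kˣ)
    (hD : ∀ J, hypDet (n := 1) (la g r) J ≠ 0 → (D J : K) = (hypDet (n := 1) (la g r) J : K))
    (q : Fin r × Fin g) (J : Fin 2 → Fin ((g + 1) + (r + 1))) :
    cyc_z q J • symM (fun m => L (J m) / D J) = cyc_z q J • sy (L (J 0)) (L (J 1)) := by
  by_cases h : hypDet (n := 1) (la g r) J = 0
  · rw [cyc_supp q J h, zero_smul, zero_smul]
  · have h1 : D J = 1 ∨ D J = -1 := by
      rcases Int.isUnit_iff.1 (isUnit_of_dvd_one (la_det g r J h)) with h2 | h2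
      · left
        ext
        rw [hD J h, h2]
        simp
      · right
        ext
        rw [hD J h, h2]
        simp
    have h3 : symM (fun m => L (J m) / D J) = sy (L (J 0) / D J) (L (J 1) / D J) := by
      unfold sy
      congr 1
      funext m
      fin_cases m <;> rfl
    rw [h3, sy_div_right, sy_div_left, sy_div_left, (cyc_neg_one h1 _).1, (cyc_neg_one h1 _).2,
      (cyc_neg_one h1 _).1]
    simp

theorem exists_cyc (g r : ℕ) : ∃ Z : Fin r × Fin g → hypCycles (n := 1) (la g r),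
    LinearIndependent ℚ Z ∧ ∀ (K : Type) [Field K] [CharZero K]
      (L : Fin ((g + 1) + (r + 1)) → Kˣ) (D : (Fin 2 → Fin ((g + 1) + (r + 1))) → Kˣ),
      (∀ J, hypDet (n := 1) (la g r) J ≠ 0 → (D J : K) = (hypDet (n := 1) (la g r) J : K)) →
      ∀ q, cycleClass (n := 1) L D (Z q) = (2 : ℚ) •
        sy (L (Fin.natAdd (g + 1) q.1.succ) / L (Fin.natAdd (g + 1) 0))
          (L (Fin.castAdd (r + 1) q.2.succ) / L (Fin.castAdd (r + 1) 0)) := by
  refine ⟨fun q => ⟨cyc_z q, cyc_mem q⟩, ?_, ?_⟩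
  · rw [Fintype.linearIndependent_iff]
    intro c hc q
    have h1 := congrArg (fun z : hypCycles (n := 1) (la g r) =>
      (z : (Fin (1 + 1) → Fin ((g + 1) + (r + 1))) → ℚ)
        ![Fin.natAdd (g + 1) q.1.succ, Fin.castAdd (r + 1) q.2.succ]) hc
    simp only [Submodule.coe_sum, Submodule.coe_smul, Finset.sum_apply, Pi.smul_apply,
      smul_eq_mul, Submodule.coe_zero, Pi.zero_apply] at h1
    have h2 : ∀ q' : Fin r × Fin g, c q' * cyc_z q'
        ![Fin.natAdd (g + 1) q.1.succ, Fin.castAdd (r + 1) q.2.succ] =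
          if q = q' then c q' else 0 := by
      intro q'
      rw [cyc_eval]
      split_ifs <;> simp
    have h3 : ∑ q' : Fin r × Fin g, c q' * cyc_z q'
        ![Fin.natAdd (g + 1) q.1.succ, Fin.castAdd (r + 1) q.2.succ] = 0 := h1
    rw [Finset.sum_congr rfl fun q' _ => h2 q', Finset.sum_ite_eq, if_pos (Finset.mem_univ _)]
      at h3
    exact h3
  · intro K _ _ L D hD q
    have h1 : cycleClass (n := 1) L D (cyc_z q) =
        ∑ J : Fin 2 → Fin ((g + 1) + (r + 1)), cyc_z q J • sy (L (J 0)) (L (J 1)) := by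
      unfold cycleClass
      exact Finset.sum_congr rfl fun J _ => cyc_term L D hD q J
    have h2 : ∑ J : Fin 2 → Fin ((g + 1) + (r + 1)), cyc_z q J • sy (L (J 0)) (L (J 1)) =
        ∑ p : Fin ((g + 1) + (r + 1)) × Fin ((g + 1) + (r + 1)),
          (cyc_B q.1 p.1 * cyc_A q.2 p.2 - cyc_B q.1 p.2 * cyc_A q.2 p.1) •
            sy (L p.1) (L p.2) :=
      Fintype.sum_equiv (finTwoArrowEquiv _) _ _ fun J => rfl
    have h3 : ∀ x : Kˣ, ∑ y, cyc_A q.2 y • sy x (L y) =
        sy x (L (Fin.castAdd (r + 1) q.2.succ) / L (Fin.castAdd (r + 1) 0)) := by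
      intro x
      rw [sy_div_right]
      exact cyc_sum _ _ (fun y => sy x (L y))
    have h4 : ∀ z : Kˣ, ∑ x, cyc_B q.1 x • sy (L x) z =
        sy (L (Fin.natAdd (g + 1) q.1.succ) / L (Fin.natAdd (g + 1) 0)) z := by
      intro z
      rw [sy_div_left]
      exact cyc_sum _ _ (fun x => sy (L x) z)
    have h5 : ∑ x, ∑ y, (cyc_B q.1 x * cyc_A q.2 y) • sy (L x) (L y) =
        sy (L (Fin.natAdd (g + 1) q.1.succ) / L (Fin.natAdd (g + 1) 0))
          (L (Fin.castAdd (r + 1) q.2.succ) / L (Fin.castAdd (r + 1) 0)) := by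
      rw [← h4]
      refine Finset.sum_congr rfl fun x _ => ?_
      rw [← h3, Finset.smul_sum]
      exact Finset.sum_congr rfl fun y _ => mul_smul _ _ _
    have h6 : ∑ x, ∑ y, (cyc_B q.1 y * cyc_A q.2 x) • sy (L x) (L y) =
        - sy (L (Fin.natAdd (g + 1) q.1.succ) / L (Fin.natAdd (g + 1) 0))
          (L (Fin.castAdd (r + 1) q.2.succ) / L (Fin.castAdd (r + 1) 0)) := by
      rw [← h5, Finset.sum_comm, ← Finset.sum_neg_distrib]
      refine Finset.sum_congr rfl fun x _ => ?_
      rw [← Finset.sum_neg_distrib]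
      refine Finset.sum_congr rfl fun y _ => ?_
      rw [sy_anti (L y) (L x), smul_neg]
    show cycleClass (n := 1) L D (cyc_z q) = _
    rw [h1, h2, Fintype.sum_prod_type]
    simp only [sub_smul, Finset.sum_sub_distrib]
    rw [h5, h6, sub_neg_eq_add, two_smul]

end Pool.Agent.ETB
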