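import Mathlib
import Pool.Agent.ETI.Defs

/-!
# Definitions (BidegreeIso)

The curve `c ∏ (x - a i) ∏ (v - b l) = 1`, `i ≤ g`, `l ≤ r`, over the line with coordinate `v`; in `Crv` the point `b 0` is `0`, so `v` is a
unit. `Tm`, `Bd`, `xa`, `Hf` are those of `Pool.Agent.ETI`. Paper proof: /team-store/bideg84.md.
-/

open scoped BigOperators Polynomial
open Polynomial

namespace Pool.Agent.ETB

open Pool.Agent.ETU Pool.Agent.CST Pool.Agent.Helper11 Pool.Agent.ISI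
open Pool.Agent.ETI (Tm Bd xa xa_val Hf)

/-- `∏ (T - b l)` -/
noncomputable def Dp {r : ℕ} (b : Fin (r + 1) → ℤ) : ℤ[X] := ∏ l, (X - C (b l))

/-- the equation of `y = D(v) x` over `ℚ(v)`: `∏ (Y - a i D) - c⁻¹ D ^ g` -/
noncomputable def Ey {g r : ℕ} (a : Fin (g + 1) → ℤ) (b : Fin (r + 1) → ℤ) (c : ℤ) : ℚ[X][X] :=
  ∏ i, (X - C (C (a i : ℚ) * (Dp b).map (Int.castRingHom ℚ))) -
    C (C ((c : ℚ)⁻¹) * ((Dp b).map (Int.castRingHom ℚ)) ^ g)

/-- the zeros of `P` in the field of `p`-adic numbers are simple, `α` and `D(α)` are units there -/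
def Nice (p : ℕ) [Fact p.Prime] {r : ℕ} (b : Fin (r + 1) → ℤ) (P : ℚ[X]) : Prop :=
  (∀ i, ‖((P.coeff i : ℚ) : PadicAlgCl p)‖ ≤ 1) ∧ ∀ α : PadicAlgCl p, aeval α P = 0 →
    ‖α‖ = 1 ∧ ‖aeval α (Dp b)‖ = 1 ∧ ‖aeval α (derivative P)‖ = 1

/-- the conditions on the primes -/
structure Prm (p : ℕ) [Fact p.Prime] {g r : ℕ} (a : Fin (g + 1) → ℤ) (b : Fin (r + 1) → ℤ) (c : ℤ)
    {s : ℕ} (f : Fin s → ℤ[X]) : Prop where
  cop : (g + 1).Coprime (p * (p - 1))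
  val : (g + 1).Coprime (padicValInt p c)
  fam : Fam p f
  dis : ∀ i j, i ≠ j → ¬ (p : ℤ) ∣ a i - a j
  big : ∑ i, (f i).natDegree + 5 < p
  nice : ∀ P : ℚ[X], P.Monic → Irreducible P → ¬ P ∣ X →
    ¬ P ∣ (Dp b).map (Int.castRingHom ℚ) →
    ((∃ j, P ∣ (f j).map (Int.castRingHom ℚ)) ∨
      (P.natDegree ≤ Bd f ∧ ∃ t : Fin s → ℤ, t ≠ 0 ∧ Rel f t P)) → Nice p b P

/-- the curve `c ∏ (x - a i) ∏ (y - b l) = 1` (symmetric in the two coordinates) -/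
structure Bid {g r : ℕ} (a : Fin (g + 1) → ℤ) (b : Fin (r + 1) → ℤ) (c : ℤ) {K : Type} [Field K]
    [CharZero K] (x y : K) : Prop where
  inja : Function.Injective a
  injb : Function.Injective b
  c0 : c ≠ 0
  trx : Transcendental ℚ x
  try_ : Transcendental ℚ y
  top : IntermediateField.adjoin ℚ {x, y} = ⊤
  eq : (c : K) * (∏ i, (x - a i)) * ∏ l, (y - b l) = 1

/-- the curve with `b 0 = 0`; `v` is the coordinate of the base -/
structure Crv {g r : ℕ} (a : Fin (g + 1) → ℤ) (b : Fin (r + 1) → ℤ) (c : ℤ) {K : Type} [Field K]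
    [CharZero K] (x : K) (v : Kˣ) : Prop where
  bid : Bid a b c x (v : K)
  g0 : 0 < g
  b0 : b 0 = 0

/-- `(x - a (i + 1)) / (x - a 0)` -/
noncomputable def xr {g : ℕ} {K : Type} [Field K] [CharZero K] (x : K) (a : Fin (g + 1) → ℤ)
    (i : Fin g) : Kˣ := xa x a i.succ / xa x a 0

end Pool.Agent.ETB
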