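import Pool.Agent.ETB.PlA
import Pool.Agent.ISI.TamB

/-!
# If `{v, H}` is unramified at the places over `x = a i`, then the exponent of `x - a i` in `H` is `0`

`H = Hf x a E = ∏ (x - a k)^(E k)`. At a place with `x - a i` small the unit `U = v^((r+1) E i) * H` has the same tame symbol with `v` as `H`,
so a power of `U` tends to `1`. But `U` tends to the rational number `(c ∏_{k≠i} (a i - a k))^(-E i) ∏_{k ≠ i} (a i - a k)^(E k)`, and the
`p`-adic norm of this number is `‖c‖^(-E i)`.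
-/

open scoped BigOperators Polynomial
open Polynomial

namespace Pool.Agent.ETB

open Pool.Agent.ETU Pool.Agent.CST Pool.Agent.Helper11 Pool.Agent.ISI
open Pool.Agent.ETI (Tm Bd xa xa_val Hf)

private theorem vanI_rat {K : Type} [Field K] [CharZero K] {O : ValuationSubring K} (hO : IsPl O)
    {q : ℚ} (hq : q ≠ 0) : O.valuation (q : K) = 1 := by
  have h1 : O.valuation (q : K) ≤ 1 := (O.valuation_le_one_iff _).2 (hO.2 q)
  have h2 : O.valuation ((q : K)⁻¹) ≤ 1 := by
    rw [O.valuation_le_one_iff]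
    have := hO.2 q⁻¹
    rwa [Rat.cast_inv] at this
  rw [map_inv₀] at h2
  have h3 : O.valuation (q : K) ≠ 0 := (O.valuation.ne_zero_iff).2 (Rat.cast_ne_zero.2 hq)
  exact le_antisymm h1 ((inv_le_one₀ (zero_lt_iff.2 h3)).1 h2)

private theorem vanI_cst {K : Type} [Field K] [CharZero K] {O : ValuationSubring K} (hO : IsPl O)
    {q : ℚˣ} (hq : cst K q ∈ O.principalUnitGroup) : q = 1 := by
  rw [O.mem_principalUnitGroup_iff, cst_val] at hq
  by_contra h
  have h1 : (q : ℚ) - 1 ≠ 0 := by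
    intro h2
    exact h (Units.ext (sub_eq_zero.1 h2))
  have h3 := vanI_rat (K := K) hO h1
  rw [Rat.cast_sub, Rat.cast_one] at h3
  exact absurd hq (h3 ▸ lt_irrefl _)

private theorem vanI_arith {g : ℕ} {a : Fin (g + 1) → ℤ} {c : ℤ} {p : ℕ}
    [Fact p.Prime] (hν : padicValInt p c ≠ 0) (hdis : ∀ i j, i ≠ j → ¬ (p : ℤ) ∣ a i - a j)
    {E : Fin (g + 1) → ℤ} {i : Fin (g + 1)} (u : Fin (g + 1) → ℚˣ) (cq : ℚˣ)
    (hcq : (cq : ℚ) = c) (hu : ∀ k, k ≠ i → (u k : ℚ) = a i - a k) {m : ℕ} (hm : m ≠ 0)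
    (h : ((cq * ∏ k ∈ Finset.univ.erase i, u k) ^ (-E i) *
      ∏ k ∈ Finset.univ.erase i, u k ^ E k) ^ m = 1) : E i = 0 := by
  have h1 : ∀ k ∈ Finset.univ.erase i, ‖((u k : ℚ) : ℚ_[p])‖ = 1 := by
    intro k hk
    have hk' : k ≠ i := (Finset.mem_erase.1 hk).1
    have h2 : ((u k : ℚ) : ℚ_[p]) = ((a i - a k : ℤ) : ℚ_[p]) := by
      rw [hu k hk']
      push_cast
      rfl
    rw [h2]
    refine le_antisymm (Padic.norm_int_le_one _) ?_
    rw [← not_lt, Padic.norm_intCast_lt_one_iff]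
    exact hdis i k hk'.symm
  have h2 : ‖((cq : ℚ) : ℚ_[p])‖ < 1 := by
    have h3 : ((cq : ℚ) : ℚ_[p]) = ((c : ℤ) : ℚ_[p]) := by
      rw [hcq]
      push_cast
      rfl
    rw [h3, Padic.norm_intCast_lt_one_iff]
    by_contra h4
    exact hν (padicValInt.eq_zero_of_not_dvd h4)
  have h0 : 0 < ‖((cq : ℚ) : ℚ_[p])‖ := by
    rw [norm_pos_iff]
    exact Rat.cast_ne_zero.2 cq.ne_zero
  have h5 := congrArg (fun z : ℚˣ => ‖((z : ℚ) : ℚ_[p])‖) h
  simp only [Units.val_pow_eq_pow_val, Units.val_mul, Units.val_zpow_eq_zpow_val, Units.coe_prod,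
    Units.val_one, Rat.cast_pow, Rat.cast_mul, Rat.cast_zpow, Rat.cast_prod, Rat.cast_one,
    norm_pow, norm_mul, norm_zpow, norm_prod, norm_one] at h5
  rw [Finset.prod_congr rfl h1, Finset.prod_const_one, mul_one,
    Finset.prod_congr rfl (fun k hk => by rw [h1 k hk, one_zpow]), Finset.prod_const_one,
    mul_one] at h5
  have h6 : ‖((cq : ℚ) : ℚ_[p])‖ ^ (-E i) = 1 := by
    refine (pow_eq_one_iff_of_nonneg ?_ hm).1 h5
    exact zpow_nonneg h0.le _
  have h7 := (zpow_eq_one_iff_right₀ h0.le h2.ne).1 h6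
  omega

theorem Crv.van_inf {g r : ℕ} {a : Fin (g + 1) → ℤ} {b : Fin (r + 1) → ℤ} {c : ℤ} {K : Type}
    [Field K] [CharZero K] {x : K} {v : Kˣ} (H : Crv a b c x v) {p : ℕ} [Fact p.Prime]
    (hν : padicValInt p c ≠ 0) (hdis : ∀ i j, i ≠ j → ¬ (p : ℤ) ∣ a i - a j)
    {E : Fin (g + 1) → ℤ} (hz : ∀ O : ValuationSubring K, IsPl O → sy v (Hf x a E) ∈ unrM O 2)
    (i : Fin (g + 1)) : E i = 0 := by
  classical
  obtain ⟨O, hO, hx⟩ := H.bid.symm.exists_b i
  have := hO.1
  obtain ⟨hv, hk, hl, hxv⟩ := H.bid.at_a hO hx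
  obtain ⟨V, iV, mV, χ, τ, ord, p0, hord, ht, ht0, hχ⟩ := exists_tameT O
  let _ := iV
  let _ := mV
  -- the units
  have hyb : ∀ l, (v : K) - b l ≠ 0 := by
    intro l h
    have h1 := hl l
    rw [h, zero_div, zero_sub, Valuation.map_neg, map_one] at h1
    exact lt_irrefl _ h1
  have hxv' : ∀ k, (xa x a k : K) = x - a k := fun k => xa_val H.bid.trx a k
  let yb : Fin (r + 1) → Kˣ := fun l => Units.mk0 _ (hyb l)
  let cq : ℚˣ := Units.mk0 (c : ℚ) (Int.cast_ne_zero.2 H.bid.c0)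
  let u : Fin (g + 1) → ℚˣ := fun k => if h : k = i then 1 else
    Units.mk0 ((a i : ℚ) - a k) (sub_ne_zero.2 fun h' => h (H.bid.inja (Int.cast_injective h')).symm)
  have hu : ∀ k, k ≠ i → (u k : ℚ) = a i - a k := by
    intro k hk'
    simp only [u, dif_neg hk', Units.val_mk0]
  set P := O.principalUnitGroup with hP
  set S := Finset.univ.erase i with hS
  have hA : ∀ k ∈ S, xa x a k / cst K (u k) ∈ P := by
    intro k hk'
    have hki : k ≠ i := (Finset.mem_erase.1 hk').1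
    rw [hP, O.mem_principalUnitGroup_iff]
    have h1 : ((xa x a k / cst K (u k) : Kˣ) : K) - 1 = (x - a i) * (((u k : ℚ) : K))⁻¹ := by
      have h2 : ((u k : ℚ) : K) ≠ 0 := Rat.cast_ne_zero.2 (u k).ne_zero
      rw [Units.val_div_eq_div_val, cst_val, hxv']
      field_simp
      rw [hu k hki]
      push_cast
      ring
    rw [h1, map_mul, map_inv₀, vanI_rat hO (u k).ne_zero, inv_one, mul_one]
    exact hx
  have hY : ∀ l, yb l / v ∈ P := by
    intro l
    rw [hP, O.mem_principalUnitGroup_iff, Units.val_div_eq_div_val]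
    exact hl l
  have hA' : (∏ k ∈ S, xa x a k) / ∏ k ∈ S, cst K (u k) ∈ P := by
    rw [← Finset.prod_div_distrib]
    exact Subgroup.prod_mem _ hA
  have hY' : (∏ l, yb l) / v ^ (r + 1) ∈ P := by
    have h1 : v ^ (r + 1) = ∏ _l : Fin (r + 1), v := by
      rw [Finset.prod_const, Finset.card_univ, Fintype.card_fin]
    rw [h1, ← Finset.prod_div_distrib]
    exact Subgroup.prod_mem _ fun l _ => hY l
  have heq : cst K cq * (xa x a i * ∏ k ∈ S, xa x a k) * ∏ l, yb l = 1 := by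
    rw [hS, Finset.mul_prod_erase Finset.univ _ (Finset.mem_univ i)]
    apply Units.ext
    rw [Units.val_mul, Units.val_mul, Units.coe_prod, Units.coe_prod, Units.val_one, cst_val,
      Finset.prod_congr rfl fun k _ => hxv' k]
    have h1 := H.bid.eq
    simpa [cq, yb] using h1
  set w : Kˣ := v ^ (r + 1) * xa x a i * (cst K cq * ∏ k ∈ S, cst K (u k)) with hw
  have hwP : w ∈ P := by
    have h1 : w = ((∏ l, yb l) / v ^ (r + 1))⁻¹ *
        ((∏ k ∈ S, xa x a k) / ∏ k ∈ S, cst K (u k))⁻¹ := by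
      have h2 : w = ((∏ l, yb l) / v ^ (r + 1))⁻¹ *
        ((∏ k ∈ S, xa x a k) / ∏ k ∈ S, cst K (u k))⁻¹ *
          (cst K cq * (xa x a i * ∏ k ∈ S, xa x a k) * ∏ l, yb l) := by
        rw [hw, inv_div, inv_div]
        generalize (∏ l, yb l) = y1
        generalize (∏ k ∈ S, xa x a k) = y2
        generalize (∏ k ∈ S, cst K (u k)) = y3
        generalize v ^ (r + 1) = y4
        generalize cst K cq = y5
        generalize xa x a i = y6
        apply Units.ext
        simp only [Units.val_mul, Units.val_div_eq_div_val]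
        field_simp
      rw [h2, heq, mul_one]
    rw [h1]
    exact P.mul_mem (P.inv_mem hY') (P.inv_mem hA')
  -- the unit `U`
  set U : Kˣ := v ^ (((r + 1 : ℕ) : ℤ) * E i) * Hf x a E with hU
  have hUeq : U = (v ^ (r + 1) * xa x a i) ^ E i * ∏ k ∈ S, xa x a k ^ E k := by
    rw [hU, Hf, ← Finset.mul_prod_erase Finset.univ _ (Finset.mem_univ i), ← hS, zpow_mul,
      zpow_natCast, mul_zpow, mul_assoc]
  have hUu : U ∈ O.unitGroup := by
    rw [O.mem_unitGroup_iff, hUeq]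
    rw [Units.val_mul, Units.val_zpow_eq_zpow_val, Units.val_mul, Units.val_pow_eq_pow_val,
      Units.coe_prod, map_mul, map_zpow₀, map_mul, map_pow, map_prod, hxv', mul_comm (_ ^ (r + 1)),
      hxv, one_zpow, one_mul]
    refine Finset.prod_eq_one fun k hk' => ?_
    rw [Units.val_zpow_eq_zpow_val, map_zpow₀, hxv', hk k (Finset.mem_erase.1 hk').1, one_zpow]
  have hsy : sy v U = sy v (Hf x a E) := by
    rw [hU, sy_mul_right, sy_zpow_right, sy_self, smul_zero, zero_add]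
  have hχ0 : χ U = 0 := by
    have h1 := ht v U hUu
    rw [hsy, ht0 _ (hz O hO)] at h1
    have h2 : (ord v : ℚ) ≠ 0 := by
      intro h3
      have h4 : ord v = 0 := by exact_mod_cast h3
      have h5 := hord.eq v
      rw [h4, zpow_zero] at h5
      rw [h5] at hv
      exact lt_irrefl _ hv
    have h3 : χ U = (ord v : ℚ)⁻¹ • ((ord v : ℚ) • χ U) := by
      rw [smul_smul, inv_mul_cancel₀ h2, one_smul]
    rw [h3, ← h1, smul_zero]
  obtain ⟨m, hm, hUm⟩ := hχ U hUu hχ0
  have hUm' : U ^ m ∈ P := by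
    rw [hP, O.mem_principalUnitGroup_iff, Units.val_pow_eq_pow_val]
    exact hUm
  -- the limit of `U`
  set ρ : ℚˣ := (cq * ∏ k ∈ S, u k) ^ (-E i) * ∏ k ∈ S, u k ^ E k with hρ
  have hcm : ∀ (s : Finset (Fin (g + 1))) (f : Fin (g + 1) → ℚˣ),
      cst K (∏ k ∈ s, f k) = ∏ k ∈ s, cst K (f k) := by
    intro s f
    unfold cst
    rw [map_prod]
  have hρc : cst K ρ = (cst K cq * ∏ k ∈ S, cst K (u k)) ^ (-E i) *
      ∏ k ∈ S, cst K (u k) ^ E k := by
    rw [hρ, cst_mul, cst_zpow, cst_mul, hcm, hcm]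
    congr 1
    exact Finset.prod_congr rfl fun k _ => cst_zpow _ _
  have hUρ : U / cst K ρ ∈ P := by
    have h1 : U / cst K ρ = w ^ E i * ∏ k ∈ S, (xa x a k / cst K (u k)) ^ E k := by
      rw [hUeq, hρc, hw, Finset.prod_congr rfl fun k _ => div_zpow (xa x a k) (cst K (u k)) (E k),
        Finset.prod_div_distrib, zpow_neg]
      generalize (∏ k ∈ S, xa x a k ^ E k) = y1
      generalize (∏ k ∈ S, cst K (u k) ^ E k) = y2
      generalize (cst K cq * ∏ k ∈ S, cst K (u k)) = y3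
      generalize (v ^ (r + 1) * xa x a i) = y4
      rw [mul_zpow y4 y3]
      generalize y3 ^ E i = y5
      generalize y4 ^ E i = y6
      apply Units.ext
      simp only [Units.val_mul, Units.val_div_eq_div_val, Units.val_inv_eq_inv_val]
      field_simp
    rw [h1]
    exact P.mul_mem (P.zpow_mem hwP _) (Subgroup.prod_mem _ fun k hk' => P.zpow_mem (hA k hk') _)
  have hρm : cst K (ρ ^ m) ∈ P := by
    have h1 : cst K (ρ ^ m) = U ^ m * ((U / cst K ρ) ^ m)⁻¹ := by
      have h2 : cst K (ρ ^ m) = cst K ρ ^ m := by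
        unfold cst
        rw [map_pow]
      rw [h2, div_pow, inv_div, mul_div_cancel]
    rw [h1]
    exact P.mul_mem hUm' (P.inv_mem (P.pow_mem hUρ m))
  have hρ1 := vanI_cst hO hρm
  exact vanI_arith hν hdis u cq (Units.val_mk0 _) hu hm hρ1

end Pool.Agent.ETB
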