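import Pool.Agent.ETB.Int
import Pool.Agent.ETB.VanI
import Pool.Agent.ETB.BeZ

/-!
# The end of the argument

With `b 0 = 0`, `xa v b 0 = v`, `∑_l {v - b l, H_l} = ∑_{l ≥ 1} {(v - b l)/v, H_l} + {v, G}`, `H_l = Hf x a (e l)`, `G = ∏ H_l = Hf x a E`,
`E = ∑_l e l`, `∑ E = 0`. The first sum is unramified everywhere (`Bid.int`), `{v, G}` is unramified where `v` is integral (`Crv.int_v`), hence
so is `β`, so `β = 0` (`lp_zero`); so `{v, G}` is unramified at all places, `E = 0` (`Crv.van_inf`) and `G = 1`.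
-/

open scoped BigOperators Polynomial
open Polynomial

namespace Pool.Agent.ETB

open Pool.Agent.ETU Pool.Agent.CST Pool.Agent.Helper11 Pool.Agent.ISI
open Pool.Agent.ETI (Tm Bd xa xa_val Hf)

private theorem etbfin_zpow {G ι : Type} [CommGroup G] (s : Finset ι) (f : ι → ℤ) (u : G) :
    ∏ i ∈ s, u ^ f i = u ^ ∑ i ∈ s, f i := by
  classical
  induction s using Finset.induction_on with
  | empty => simp
  | insert i s hi ih => rw [Finset.prod_insert hi, Finset.sum_insert hi, zpow_add, ih]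

private theorem etbfin_prod {g : ℕ} {K : Type} [Field K] [CharZero K] (x : K)
    (a : Fin (g + 1) → ℤ) {e : Fin (g + 1) → ℤ} (he : ∑ l, e l = 0) :
    Hf x a e = ∏ i : Fin g, xr x a i ^ e i.succ := by
  have h1 : ∏ i : Fin g, xr x a i ^ e i.succ =
      (∏ i : Fin g, xa x a i.succ ^ e i.succ) * (xa x a 0) ^ (e 0) := by
    have h2 : ∀ i : Fin g, xr x a i ^ e i.succ =
        xa x a i.succ ^ e i.succ * (xa x a 0) ^ (-e i.succ) := by
      intro i
      unfold xr
      rw [div_zpow, zpow_neg, div_eq_mul_inv]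
    rw [Finset.prod_congr rfl fun i _ => h2 i, Finset.prod_mul_distrib]
    congr 1
    have h3 : ∏ i : Fin g, (xa x a 0) ^ (-e i.succ) = (xa x a 0) ^ (∑ i : Fin g, -e i.succ) :=
      etbfin_zpow (Finset.univ : Finset (Fin g)) (fun i => -e i.succ) (xa x a 0)
    rw [h3]
    congr 1
    rw [Fin.sum_univ_succ] at he
    rw [Finset.sum_neg_distrib]
    omega
  rw [h1]
  unfold Hf
  rw [Fin.prod_univ_succ, mul_comm]

private theorem etbfin_sum {g r : ℕ} {K : Type} [Field K] [CharZero K] (x : K)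
    (a : Fin (g + 1) → ℤ) (e : Fin (r + 1) → Fin (g + 1) → ℤ) :
    ∏ l, Hf x a (e l) = Hf x a (fun i => ∑ l, e l i) := by
  unfold Hf
  rw [Finset.prod_comm]
  exact Finset.prod_congr rfl fun i _ => etbfin_zpow Finset.univ (fun l => e l i) (xa x a i)

private theorem etbfin_split {g r : ℕ} {K : Type} [Field K] [CharZero K] (x : K)
    (a : Fin (g + 1) → ℤ) (b : Fin (r + 1) → ℤ) (y : K) (e : Fin (r + 1) → Fin (g + 1) → ℤ) :
    ∑ l, sy (xa y b l) (Hf x a (e l)) =
      ∑ j : Fin r, sy (xr y b j) (Hf x a (e j.succ)) +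
        sy (xa y b 0) (Hf x a (fun i => ∑ l, e l i)) := by
  have h1 : ∀ j : Fin r, sy (xa y b j.succ) (Hf x a (e j.succ)) =
      sy (xr y b j) (Hf x a (e j.succ)) + sy (xa y b 0) (Hf x a (e j.succ)) := by
    intro j
    rw [← sy_mul_left]
    congr 1
    unfold xr
    rw [div_mul_cancel]
  rw [← etbfin_sum, sy_prod_right, Fin.sum_univ_succ, Fin.sum_univ_succ,
    Finset.sum_congr rfl fun j _ => h1 j, Finset.sum_add_distrib]
  abel

theorem Crv.fin_mem {g r : ℕ} {a : Fin (g + 1) → ℤ} {b : Fin (r + 1) → ℤ} {c : ℤ} {K : Type}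
    [Field K] [CharZero K] {x : K} {v : Kˣ} (H : Crv a b c x v) {p : ℕ} [Fact p.Prime]
    (hν : padicValInt p c ≠ 0) (hdis : ∀ i j, i ≠ j → ¬ (p : ℤ) ∣ a i - a j)
    {z β : KMQ K 2} {N : ℕ} (hN : 0 < N) {e : Fin (r + 1) → Fin (g + 1) → ℤ}
    (he : ∀ l, ∑ i, e l i = 0) (hβ : β ∈ LP (v : K))
    (hz : (N : ℚ) • z = ∑ l, sy (xa (v : K) b l) (Hf x a (e l)) + β) (hzg : z ∈ geomM K) :
    z ∈ Submodule.span ℚ (Set.range fun q : Fin r × Fin g =>
      sy (xr (v : K) b q.1) (xr x a q.2)) := by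
  have hv : xa (v : K) b 0 = v := by
    apply Units.ext
    rw [xa_val H.bid.try_, H.b0, Int.cast_zero, sub_zero]
  have hE : ∑ i, (∑ l, e l i) = 0 := by
    rw [Finset.sum_comm]
    exact Finset.sum_eq_zero fun l _ => he l
  rw [etbfin_split, hv] at hz
  set T : KMQ K 2 := ∑ j : Fin r, sy (xr (v : K) b j) (Hf x a (e j.succ)) with hT
  set S : KMQ K 2 := sy v (Hf x a (fun i => ∑ l, e l i)) with hS
  have hzO : ∀ O : ValuationSubring K, IsPl O → z ∈ unrM O 2 := by
    intro O hO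
    unfold geomM at hzg
    rw [Submodule.mem_iInf] at hzg
    have := hzg O
    rw [Submodule.mem_iInf] at this
    exact this hO
  have hTO : ∀ O : ValuationSubring K, IsPl O → T ∈ unrM O 2 := fun O hO =>
    Submodule.sum_mem _ fun j _ => H.bid.int j (he j.succ) O hO.1
  have hβ0 : β = 0 := by
    refine lp_zero H.bid.try_ H.bid.fin hβ fun O hO hvO => ?_
    have h1 : β = (N : ℚ) • z - T - S := by
      rw [hz]
      abel
    rw [h1]
    exact Submodule.sub_mem _ (Submodule.sub_mem _ (Submodule.smul_mem _ _ (hzO O hO))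
      (hTO O hO)) (H.int_v hE O hO.1 hvO)
  rw [hβ0, add_zero] at hz
  have hSO : ∀ O : ValuationSubring K, IsPl O → S ∈ unrM O 2 := by
    intro O hO
    have h1 : S = (N : ℚ) • z - T := by
      rw [hz]
      abel
    rw [h1]
    exact Submodule.sub_mem _ (Submodule.smul_mem _ _ (hzO O hO)) (hTO O hO)
  have hE0 : ∀ i, (∑ l, e l i) = 0 := fun i => H.van_inf hν hdis hSO i
  have hS0 : S = 0 := by
    have h1 : Hf x a (fun i => ∑ l, e l i) = 1 := by
      unfold Hf
      refine Finset.prod_eq_one fun i _ => ?_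
      show xa x a i ^ (∑ l, e l i) = 1
      rw [hE0 i, zpow_zero]
    rw [hS, h1, sy_one_right]
  rw [hS0, add_zero] at hz
  have h2 : T ∈ Submodule.span ℚ (Set.range fun q : Fin r × Fin g =>
      sy (xr (v : K) b q.1) (xr x a q.2)) := by
    refine Submodule.sum_mem _ fun j _ => ?_
    rw [etbfin_prod x a (he j.succ), sy_prod_right]
    refine Submodule.sum_mem _ fun i _ => ?_
    rw [sy_zpow_right]
    exact Submodule.smul_mem _ _ (Submodule.subset_span ⟨(j, i), rfl⟩)
  have hN' : (N : ℚ) ≠ 0 := by exact_mod_cast hN.ne'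
  have h6 := Submodule.smul_mem _ ((N : ℚ)⁻¹) h2
  rwa [← hz, smul_smul, inv_mul_cancel₀ hN', one_smul] at h6

end Pool.Agent.ETB
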