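import Pool.Agent.ETB.CvA
import Pool.Agent.Helper11.CMain

/-!
# The function field of the curve as that of a line arrangement

Lines `L_i`, `i : Fin ((g + 1) + (r + 1))` (`Fin.append`): `x₀ - a i` and `x₁ - b l`. The evaluation `x₀ ↦ x`, `x₁ ↦ y` is an injective
homomorphism (`Helper11.crvHom_injective`, with the coordinate `x - κ y`, which is transcendental for `κ = 1` or `κ = 2`), and its image generates
the field.
-/

open scoped BigOperators Polynomial
open Polynomial

namespace Pool.Agent.ETB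

open Pool.Agent.Helper11

/-- the linear parts -/
def la (g r : ℕ) : Fin ((g + 1) + (r + 1)) → Fin 2 → ℤ :=
  Fin.append (fun _ => ![1, 0]) (fun _ => ![0, 1])

/-- the constant parts -/
def lb {g r : ℕ} (a : Fin (g + 1) → ℤ) (b : Fin (r + 1) → ℤ) : Fin ((g + 1) + (r + 1)) → ℤ :=
  Fin.append (fun i => -a i) (fun l => -b l)

private theorem frc_la1 (g r : ℕ) (i : Fin (g + 1)) : la g r (Fin.castAdd (r + 1) i) = ![1, 0] := by
  unfold la
  rw [Fin.append_left]

private theorem frc_la2 (g r : ℕ) (l : Fin (r + 1)) : la g r (Fin.natAdd (g + 1) l) = ![0, 1] := by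
  unfold la
  rw [Fin.append_right]

private theorem frc_lb1 {g r : ℕ} (a : Fin (g + 1) → ℤ) (b : Fin (r + 1) → ℤ) (i : Fin (g + 1)) :
    lb a b (Fin.castAdd (r + 1) i) = -a i := by
  unfold lb
  rw [Fin.append_left]

private theorem frc_lb2 {g r : ℕ} (a : Fin (g + 1) → ℤ) (b : Fin (r + 1) → ℤ) (l : Fin (r + 1)) :
    lb a b (Fin.natAdd (g + 1) l) = -b l := by
  unfold lb
  rw [Fin.append_right]

private theorem frc_d11 (g r : ℕ) (i j : Fin (g + 1)) :
    hypDet (n := 1) (la g r) ![Fin.castAdd (r + 1) i, Fin.castAdd (r + 1) j] = 0 := by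
  rw [dt_eq, frc_la1, frc_la1]
  simp

private theorem frc_d12 (g r : ℕ) (i : Fin (g + 1)) (l : Fin (r + 1)) :
    hypDet (n := 1) (la g r) ![Fin.castAdd (r + 1) i, Fin.natAdd (g + 1) l] = 1 := by
  rw [dt_eq, frc_la1, frc_la2]
  simp

private theorem frc_d21 (g r : ℕ) (l : Fin (r + 1)) (i : Fin (g + 1)) :
    hypDet (n := 1) (la g r) ![Fin.natAdd (g + 1) l, Fin.castAdd (r + 1) i] = -1 := by
  rw [dt_eq, frc_la1, frc_la2]
  simp

private theorem frc_d22 (g r : ℕ) (l m : Fin (r + 1)) :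
    hypDet (n := 1) (la g r) ![Fin.natAdd (g + 1) l, Fin.natAdd (g + 1) m] = 0 := by
  rw [dt_eq, frc_la2, frc_la2]
  simp

private theorem frc_eta {g r : ℕ} (J : Fin 2 → Fin ((g + 1) + (r + 1))) : J = ![J 0, J 1] := by
  funext m
  fin_cases m <;> rfl

theorem la_rk (g r : ℕ) : ∀ i, ∃ j, hypDet (n := 1) (la g r) ![i, j] ≠ 0 := by
  intro i
  refine Fin.addCases (fun p => ?_) (fun l => ?_) i
  · refine ⟨Fin.natAdd (g + 1) 0, ?_⟩
    rw [frc_d12]
    exact one_ne_zero
  · refine ⟨Fin.castAdd (r + 1) 0, ?_⟩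
    rw [frc_d21]
    exact neg_ne_zero.2 one_ne_zero

private theorem frc_gp {g r : ℕ} {a : Fin (g + 1) → ℤ} {b : Fin (r + 1) → ℤ}
    (ha : Function.Injective a) (hb : Function.Injective b) (i j k : Fin ((g + 1) + (r + 1))) :
    hypDet (n := 1) (la g r) ![i, j] ≠ 0 → i ≠ k → j ≠ k →
      hypVal (n := 1) (la g r) (lb a b) ![i, j] k ≠ 0 := by
  refine Fin.addCases (fun p => ?_) (fun l => ?_) i <;>
    refine Fin.addCases (fun p' => ?_) (fun l' => ?_) j <;>
    refine Fin.addCases (fun p'' => ?_) (fun l'' => ?_) k <;> intro hd hik hjk <;>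
    rw [hypVal_pair]
  · exact absurd (frc_d11 g r p p') hd
  · exact absurd (frc_d11 g r p p') hd
  · rw [frc_d12, frc_d12, frc_d11, frc_lb1, frc_lb1, frc_lb2]
    intro h
    refine hik (congrArg _ (ha ?_))
    linarith
  · rw [frc_d12, frc_d22, frc_d12, frc_lb1, frc_lb2, frc_lb2]
    intro h
    refine hjk (congrArg _ (hb ?_))
    linarith
  · rw [frc_d21, frc_d11, frc_d21, frc_lb1, frc_lb1, frc_lb2]
    intro h
    refine hjk (congrArg _ (ha ?_))
    linarith
  · rw [frc_d21, frc_d21, frc_d22, frc_lb1, frc_lb2, frc_lb2]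
    intro h
    refine hik (congrArg _ (hb ?_))
    linarith
  · exact absurd (frc_d22 g r l l') hd
  · exact absurd (frc_d22 g r l l') hd

theorem la_gp {g r : ℕ} {a : Fin (g + 1) → ℤ} {b : Fin (r + 1) → ℤ} (ha : Function.Injective a)
    (hb : Function.Injective b) : ∀ (J : Fin 2 → Fin ((g + 1) + (r + 1))) k,
      hypDet (n := 1) (la g r) J ≠ 0 → (∀ m, J m ≠ k) →
        hypVal (n := 1) (la g r) (lb a b) J k ≠ 0 := by
  intro J k hd hk
  rw [frc_eta J] at hd ⊢
  exact frc_gp ha hb _ _ k hd (hk 0) (hk 1)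

theorem la_det (g r : ℕ) (J : Fin 2 → Fin ((g + 1) + (r + 1)))
    (h : hypDet (n := 1) (la g r) J ≠ 0) : hypDet (n := 1) (la g r) J ∣ 1 := by
  rw [frc_eta J] at h ⊢
  generalize J 0 = i at h ⊢
  generalize J 1 = j at h ⊢
  revert h
  refine Fin.addCases (fun p => ?_) (fun l => ?_) i <;>
    refine Fin.addCases (fun p' => ?_) (fun l' => ?_) j <;> intro h
  · exact absurd (frc_d11 g r p p') h
  · rw [frc_d12]
  · rw [frc_d21]
    exact ⟨-1, by norm_num⟩
  · exact absurd (frc_d22 g r l l') h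

private theorem frc_rel {g r : ℕ} {a : Fin (g + 1) → ℤ} {b : Fin (r + 1) → ℤ} {c : ℤ} {K : Type}
    [Field K] [CharZero K] {x y : K} (H : Bid a b c x y) :
    (c : K) * ∏ i, ((la g r i 0 : K) * (![x, y] : Fin 2 → K) 0 +
      (la g r i 1 : K) * (![x, y] : Fin 2 → K) 1 + (lb a b i : K)) = 1 := by
  rw [Fin.prod_univ_add, ← mul_assoc]
  rw [← H.eq]
  congr 1
  · congr 1
    refine Finset.prod_congr rfl fun i _ => ?_
    rw [frc_la1, frc_lb1]
    simp [sub_eq_add_neg]
  · refine Finset.prod_congr rfl fun l _ => ?_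
    rw [frc_la2, frc_lb2]
    simp [sub_eq_add_neg]

private theorem frc_tr {K : Type} [Field K] [CharZero K] {x y : K} (hy : Transcendental ℚ y) :
    ∃ κ : ℚ, κ ≠ 0 ∧ Transcendental ℚ (x - algebraMap ℚ K κ * y) := by
  by_cases h1 : Transcendental ℚ (x - algebraMap ℚ K 1 * y)
  · exact ⟨1, one_ne_zero, h1⟩
  · refine ⟨2, two_ne_zero, fun h2 => hy ?_⟩
    unfold Transcendental at h1
    rw [not_not] at h1
    have h3 := h1.sub h2
    have h4 : x - algebraMap ℚ K 1 * y - (x - algebraMap ℚ K 2 * y) = y := by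
      rw [map_one, map_ofNat]
      ring
    rwa [h4] at h3

theorem Bid.frc {g r : ℕ} {a : Fin (g + 1) → ℤ} {b : Fin (r + 1) → ℤ} {c : ℤ} {K : Type} [Field K]
    [CharZero K] {x y : K} (H : Bid a b c x y) :
    ∃ (_ : Algebra (HypRingQ (n := 1) (la g r) (lb a b) c) K),
      IsFractionRing (HypRingQ (n := 1) (la g r) (lb a b) c) K ∧
      (∀ i, (LK (la g r) (lb a b) c K (Fin.castAdd (r + 1) i) : K) = x - a i) ∧
      ∀ l, (LK (la g r) (lb a b) c K (Fin.natAdd (g + 1) l) : K) = y - b l := by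
  obtain ⟨φ, hφ⟩ := exists_crvHom (α := la g r) (β := lb a b) (c := c) (![x, y] : Fin 2 → K)
    (frc_rel H)
  obtain ⟨κ, hκ, ht⟩ := frc_tr (x := x) H.try_
  have hnb : ∀ k, nb (la g r) κ k ≠ 0 := by
    intro k
    unfold nb
    refine Fin.addCases (fun p => ?_) (fun l => ?_) k
    · rw [frc_la1]
      simpa using hκ
    · rw [frc_la2]
      simp
  have hinj : Function.Injective φ :=
    crvHom_injective (la_rk g r) (la_gp H.inja H.injb) (Nat.succ_pos _) H.c0 hnb hφ ht
  letI : Algebra (HypRingQ (n := 1) (la g r) (lb a b) c) K := φ.toAlgebra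
  have hL : ∀ i, (LK (la g r) (lb a b) c K i : K) = (la g r i 0 : K) * x +
      (la g r i 1 : K) * y + (lb a b i : K) := by
    intro i
    have h1 : (LK (la g r) (lb a b) c K i : K) = φ (qmk (la g r) (lb a b) c
      (lf (la g r) (lb a b) i)) := rfl
    rw [h1, hφ, evm_lf]
    rfl
  refine ⟨φ.toAlgebra, ?_, ?_, ?_⟩
  · haveI : FaithfulSMul (HypRingQ (n := 1) (la g r) (lb a b) c) K :=
      (faithfulSMul_iff_algebraMap_injective _ _).2 hinj
    refine IsFractionRing.of_field _ _ fun z => ?_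
    have h1 : z ∈ IntermediateField.adjoin ℚ (Set.range (![x, y] : Fin 2 → K)) := by
      rw [Matrix.range_cons, Matrix.range_cons, Matrix.range_empty, Set.union_empty]
      have h2 : ({x} ∪ {y} : Set K) = {x, y} := rfl
      rw [h2, H.top]
      trivial
    rw [IntermediateField.mem_adjoin_range_iff] at h1
    obtain ⟨p, q, rfl⟩ := h1
    refine ⟨qmk _ _ _ p, qmk _ _ _ q, ?_⟩
    have h3 : ∀ f : MvPolynomial (Fin 2) ℚ, algebraMap (HypRingQ (n := 1) (la g r) (lb a b) c) K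
        (qmk _ _ _ f) = MvPolynomial.aeval (![x, y] : Fin 2 → K) f := fun f => hφ f
    rw [h3, h3]
  · intro i
    rw [hL, frc_la1, frc_lb1]
    simp [sub_eq_add_neg]
  · intro l
    rw [hL, frc_la2, frc_lb2]
    simp [sub_eq_add_neg]

end Pool.Agent.ETB
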