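import Pool.Agent.ETB.Ram
import Pool.Agent.ETI.Ker

/-!
# The place over `P`, and its residue field

The place over `P` is unique (`place_eq` with `X' = v`, `w = D(v) * x`, `E = Ey a b c`). A polynomial `Q` which is small at this
place vanishes at the points `(α, y)` of the curve over the zero `α` of `P`, because `P` divides the coefficients of `Q %ₘ Ey`.
`ker_H` is the case `Q = (∏ (Y - a l D) ^ (e l)⁺) ^ M B(T) - (∏ (Y - a l D) ^ (e l)⁻) ^ M A(T)`.
-/

open scoped BigOperators Polynomial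
open Polynomial

namespace Pool.Agent.ETB

open Pool.Agent.ETU Pool.Agent.CST Pool.Agent.Helper11 Pool.Agent.ISI
open Pool.Agent.ETI (Tm Bd xa xa_val Hf)

private theorem etbKer_int {K : Type} [Field K] (O : ValuationSubring K) {x : K} {q : K[X]}
    (hq : q.Monic) (hc : ∀ i, i < q.natDegree → q.coeff i ∈ O) (h : q.eval x ∈ O) : x ∈ O ∨ q.natDegree = 0 := by
  by_cases hn : q.natDegree = 0
  · exact Or.inr hn
  refine Or.inl ?_
  rw [← O.valuation_le_one_iff]
  by_contra hcon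
  have h1 : 1 < O.valuation x := not_le.1 hcon
  have h0 : O.valuation x ≠ 0 := (zero_lt_one.trans h1).ne'
  have h2 : q.eval x = ∑ i ∈ Finset.range q.natDegree, q.coeff i * x ^ i + x ^ q.natDegree := by
    rw [eval_eq_sum_range, Finset.sum_range_succ, hq.coeff_natDegree, one_mul]
  have h3 : x ^ q.natDegree =
      q.eval x - ∑ i ∈ Finset.range q.natDegree, q.coeff i * x ^ i := by
    rw [h2]; ring
  have h4 : O.valuation (∑ i ∈ Finset.range q.natDegree, q.coeff i * x ^ i) <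
      O.valuation x ^ q.natDegree := by
    apply Valuation.map_sum_lt _ (pow_ne_zero _ h0)
    intro i hi
    rw [map_mul, map_pow]
    have h5 : O.valuation (q.coeff i) ≤ 1 :=
      (O.valuation_le_one_iff _).2 (hc i (Finset.mem_range.1 hi))
    calc O.valuation (q.coeff i) * O.valuation x ^ i ≤ 1 * O.valuation x ^ i :=
          mul_le_mul_left h5 _
      _ = O.valuation x ^ i := one_mul _
      _ < O.valuation x ^ q.natDegree := pow_lt_pow_right₀ h1 (Finset.mem_range.1 hi)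
  have h5 : O.valuation (q.eval x) < O.valuation x ^ q.natDegree := by
    calc O.valuation (q.eval x) ≤ 1 := (O.valuation_le_one_iff _).2 h
      _ < O.valuation x ^ q.natDegree := one_lt_pow₀ h1 hn
  have h6 : O.valuation (x ^ q.natDegree) < O.valuation x ^ q.natDegree := by
    rw [h3]
    exact Valuation.map_sub_lt _ h5 h4
  rw [map_pow] at h6
  exact lt_irrefl _ h6

private theorem etbKer_aeval {K : Type} [Field K] [CharZero K] {O : ValuationSubring K}
    (hO : ∀ q : ℚ, (q : K) ∈ O) {x : K} (hx : x ∈ O) (a : ℚ[X]) : aeval x a ∈ O := by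
  rw [aeval_eq_sum_range]
  refine sum_mem fun i _ => ?_
  rw [Algebra.smul_def, eq_ratCast]
  exact mul_mem (hO _) (pow_mem hx _)

private theorem etbKer_ev2_C {M : Type} [Field M] [CharZero M] (α w : M) (a : ℚ[X]) :
    ev2 α w (C a) = aeval α a := by
  unfold ev2
  rw [coe_eval₂RingHom, eval₂_C]
  rfl

private theorem etbKer_ev2_X {M : Type} [Field M] [CharZero M] (α w : M) :
    ev2 α w X = w := by
  unfold ev2
  rw [coe_eval₂RingHom, eval₂_X]

private theorem etbKer_mem {K : Type} [Field K] [CharZero K] {O : ValuationSubring K}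
    (hO : ∀ q : ℚ, (q : K) ∈ O) {x w : K} (hx : x ∈ O) (hw : w ∈ O) (Q : ℚ[X][X]) :
    ev2 x w Q ∈ O := by
  unfold ev2
  rw [coe_eval₂RingHom, eval₂_eq_sum_range]
  exact sum_mem fun i _ => mul_mem (etbKer_aeval hO hx _) (pow_mem hw _)

private theorem etbKer_x {K : Type} [Field K] [CharZero K] {O : ValuationSubring K}
    (hO : ∀ q : ℚ, (q : K) ∈ O) {x : K} {P : ℚ[X]} (hP : P.Monic) (hP' : Irreducible P)
    (hv : O.valuation (aeval x P) < 1) : x ∈ O := by
  have h1 : (P.map (algebraMap ℚ K)).Monic := hP.map _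
  rcases etbKer_int O (x := x) h1 (fun i _ => by rw [coeff_map, eq_ratCast]; exact hO _) (by
    rw [eval_map_algebraMap]
    exact (O.valuation_le_one_iff _).1 hv.le) with h | h
  · exact h
  · rw [natDegree_map] at h
    exact absurd h hP'.natDegree_pos.ne'

private theorem etbKer_w {K : Type} [Field K] [CharZero K] {O : ValuationSubring K}
    (hO : ∀ q : ℚ, (q : K) ∈ O) {x w : K} (hx : x ∈ O) {E : ℚ[X][X]} (hE : E.Monic)
    (hm : 0 < E.natDegree) (hEw : ev2 x w E = 0) : w ∈ O := by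
  have h1 : (E.map (aeval x : ℚ[X] →ₐ[ℚ] K).toRingHom).Monic := hE.map _
  rcases etbKer_int O (x := w) h1 (fun i _ => by
    rw [coeff_map]
    exact etbKer_aeval hO hx _) (by
    rw [eval_map]
    unfold ev2 at hEw
    rw [coe_eval₂RingHom] at hEw
    rw [hEw]
    exact zero_mem _) with h | h
  · exact h
  · rw [hE.natDegree_map] at h
    exact absurd h hm.ne'

private theorem etbKer_root {L M : Type} [Field L] [Field M] [CharZero M] [IsAlgClosed M]
    {P : ℚ[X]} (hP' : Irreducible P) {α : M} (hα : aeval α P = 0) (ρ : ℚ[X][X] →+* L)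
    (hρ : ρ (C P) = 0) {E R : ℚ[X][X]} (hE : E.Monic) (hρE : ρ E = 0) (hρR : ρ R = 0) :
    ∃ w' : M, ev2 α w' E = 0 ∧ ev2 α w' R = 0 := by
  have hmax : (Ideal.span {P}).IsMaximal :=
    PrincipalIdealRing.isMaximal_of_irreducible hP'
  letI : Field (ℚ[X] ⧸ Ideal.span {P}) := Ideal.Quotient.field _
  have hL : ∀ a ∈ Ideal.span {P}, (ρ.comp C) a = 0 := by
    intro a ha
    obtain ⟨b, rfl⟩ := Ideal.mem_span_singleton'.1 ha
    rw [map_mul, RingHom.comp_apply, RingHom.comp_apply, hρ, mul_zero]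
  have hM : ∀ a ∈ Ideal.span {P}, (aeval α : ℚ[X] →ₐ[ℚ] M).toRingHom a = 0 := by
    intro a ha
    obtain ⟨b, rfl⟩ := Ideal.mem_span_singleton'.1 ha
    change aeval α (b * P) = 0
    rw [map_mul, hα, mul_zero]
  letI algL : Algebra (ℚ[X] ⧸ Ideal.span {P}) L :=
    (Ideal.Quotient.lift (Ideal.span {P}) (ρ.comp C) hL).toAlgebra
  letI algM : Algebra (ℚ[X] ⧸ Ideal.span {P}) M :=
    (Ideal.Quotient.lift (Ideal.span {P}) (aeval α : ℚ[X] →ₐ[ℚ] M).toRingHom hM).toAlgebra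
  have h1 : ∀ Q : ℚ[X][X], aeval (ρ X) (Q.map (Ideal.Quotient.mk (Ideal.span {P}))) = ρ Q := by
    intro Q
    have h : ((aeval (ρ X) : (ℚ[X] ⧸ Ideal.span {P})[X] →ₐ[_] L).toRingHom.comp
        (mapRingHom (Ideal.Quotient.mk (Ideal.span {P})))) = ρ := by
      refine Polynomial.ringHom_ext' ?_ ?_
      · refine RingHom.ext fun a => ?_
        change aeval (ρ X) ((C a : ℚ[X][X]).map (Ideal.Quotient.mk (Ideal.span {P}))) = ρ (C a)
        rw [map_C, aeval_C]
        rfl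
      · change aeval (ρ X) ((X : ℚ[X][X]).map (Ideal.Quotient.mk (Ideal.span {P}))) = ρ X
        rw [map_X, aeval_X]
    exact congrArg (fun f : ℚ[X][X] →+* L => f Q) h
  have h2 : ∀ (w' : M) (Q : ℚ[X][X]),
      aeval w' (Q.map (Ideal.Quotient.mk (Ideal.span {P}))) = ev2 α w' Q := by
    intro w' Q
    have h : ((aeval w' : (ℚ[X] ⧸ Ideal.span {P})[X] →ₐ[_] M).toRingHom.comp
        (mapRingHom (Ideal.Quotient.mk (Ideal.span {P})))) = ev2 α w' := by
      refine Polynomial.ringHom_ext' ?_ ?_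
      · refine RingHom.ext fun a => ?_
        change aeval w' ((C a : ℚ[X][X]).map (Ideal.Quotient.mk (Ideal.span {P}))) =
          ev2 α w' (C a)
        rw [map_C, aeval_C, etbKer_ev2_C]
        rfl
      · change aeval w' ((X : ℚ[X][X]).map (Ideal.Quotient.mk (Ideal.span {P}))) = ev2 α w' X
        rw [map_X, aeval_X, etbKer_ev2_X]
    exact congrArg (fun f : ℚ[X][X] →+* M => f Q) h
  have hint : IsIntegral (ℚ[X] ⧸ Ideal.span {P}) (ρ X) := by
    refine ⟨E.map (Ideal.Quotient.mk (Ideal.span {P})), hE.map _, ?_⟩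
    have := h1 E
    rw [hρE] at this
    exact this
  obtain ⟨w', hw'⟩ := IsAlgClosed.exists_aeval_eq_zero M
    (minpoly (ℚ[X] ⧸ Ideal.span {P}) (ρ X)) (minpoly.degree_pos hint).ne'
  have h3 : ∀ Q : ℚ[X][X], ρ Q = 0 → ev2 α w' Q = 0 := by
    intro Q hQ
    rw [← h2]
    obtain ⟨c, hc⟩ := minpoly.dvd (ℚ[X] ⧸ Ideal.span {P}) (ρ X) ((h1 Q).trans hQ)
    rw [hc, map_mul, hw', zero_mul]
  exact ⟨w', h3 E hρE, h3 R hρR⟩

private theorem etbKer_crit {K : Type} [Field K] [CharZero K] {X' w : K}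
    {E : ℚ[X][X]} {m : ℕ} (hE : E.Monic) (hd : E.natDegree = m) (hEw : ev2 X' w E = 0)
    {P : ℚ[X]} (hP : P.Monic)
    (hP' : Irreducible P) {M : Type} [Field M] [CharZero M] [IsAlgClosed M] {α : M}
    (hα : aeval α P = 0)
    (H : ∀ R : ℚ[X][X], R.natDegree < m → ∀ w' : M, ev2 α w' E = 0 → ev2 α w' R = 0 →
      ∀ i, P ∣ R.coeff i)
    {O : ValuationSubring K} (hO : ∀ q : ℚ, (q : K) ∈ O)
    (hv : O.valuation (aeval X' P) < 1) (Q : ℚ[X][X]) :
    ev2 X' w Q ∈ O ∧ (O.valuation (ev2 X' w Q) < 1 ↔ ∀ i, P ∣ (Q %ₘ E).coeff i) := by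
  have hE1 : E ≠ 1 := by
    rintro rfl
    rw [map_one] at hEw
    exact one_ne_zero hEw
  have hm : 0 < E.natDegree := by
    rcases Nat.eq_zero_or_pos E.natDegree with h | h
    · exact absurd (hE.natDegree_eq_zero.1 h) hE1
    · exact h
  have hx : X' ∈ O := etbKer_x hO hP hP' hv
  have hw : w ∈ O := etbKer_w hO hx hE hm hEw
  refine ⟨etbKer_mem hO hx hw Q, ?_⟩
  have hR : ev2 X' w Q = ev2 X' w (Q %ₘ E) := by
    conv_lhs => rw [← modByMonic_add_div Q E]
    rw [map_add, map_mul, hEw, zero_mul, add_zero]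
  rw [hR]
  constructor
  · intro hlt
    obtain ⟨ψ, hψ⟩ : ∃ ψ : ℚ[X][X] →+* O, ∀ Q, (ψ Q : K) = ev2 X' w Q :=
      ⟨(ev2 X' w).codRestrict O (etbKer_mem hO hx hw), fun Q => rfl⟩
    have hz : ∀ Q : ℚ[X][X], O.valuation (ev2 X' w Q) < 1 →
        ((IsLocalRing.residue O).comp ψ) Q = 0 := by
      intro Q hQ
      rw [RingHom.comp_apply, IsLocalRing.residue_eq_zero_iff, O.valuation_lt_one_iff, hψ]
      exact hQ
    obtain ⟨w', h1, h2⟩ := etbKer_root (M := M) hP' hα ((IsLocalRing.residue O).comp ψ)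
      (hz _ (by rw [etbKer_ev2_C]; exact hv)) hE (hz _ (by rw [hEw, map_zero]; exact zero_lt_one))
      (hz _ hlt)
    refine H _ ?_ w' h1 h2
    rw [← hd]
    exact natDegree_modByMonic_lt _ hE hE1
  · intro h
    obtain ⟨R', hR'⟩ := C_dvd_iff_dvd_coeff _ _ |>.2 h
    rw [hR', map_mul, etbKer_ev2_C, map_mul]
    calc O.valuation (aeval X' P) * O.valuation (ev2 X' w R') ≤
          O.valuation (aeval X' P) * 1 :=
          mul_le_mul_right ((O.valuation_le_one_iff _).2 (etbKer_mem hO hx hw R')) _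
      _ < 1 := by rw [mul_one]; exact hv

private theorem etbKer_D {r : ℕ} (b : Fin (r + 1) → ℤ) {K : Type} [Field K] [CharZero K] (v : K) :
    aeval v ((Dp b).map (Int.castRingHom ℚ)) = ∏ l, (v - (b l : K)) := by
  rw [← algebraMap_int_eq, aeval_map_algebraMap, dp_aeval]

/-- the part with positive exponents of `∏ (Y - a l D) ^ e l` -/
private noncomputable def etbKer_N {g r : ℕ} (a : Fin (g + 1) → ℤ) (b : Fin (r + 1) → ℤ)
    (e : Fin (g + 1) → ℤ) : ℚ[X][X] :=
  ∏ l, (X - C (C (a l : ℚ) * (Dp b).map (Int.castRingHom ℚ))) ^ (e l).toNat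

private theorem etbKer_N_ev {g r : ℕ} (a : Fin (g + 1) → ℤ) (b : Fin (r + 1) → ℤ)
    (e : Fin (g + 1) → ℤ) {M : Type} [Field M] [CharZero M] {α : M} (w : M) {D : M}
    (hD : ∏ l, (α - (b l : M)) = D) :
    ev2 α w (etbKer_N a b e) = ∏ l, (w - a l * D) ^ (e l).toNat := by
  unfold etbKer_N
  rw [map_prod]
  refine Finset.prod_congr rfl fun l _ => ?_
  rw [map_pow, map_sub, etbKer_ev2_X, etbKer_ev2_C, map_mul, aeval_C, etbKer_D, hD]
  simp

private theorem etbKer_N_eq {g r : ℕ} (a : Fin (g + 1) → ℤ) (b : Fin (r + 1) → ℤ)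
    {e : Fin (g + 1) → ℤ} (he : ∑ l, e l = 0) {M : Type} [Field M] [CharZero M] {α z D : M}
    (hD : ∏ l, (α - (b l : M)) = D) (h0 : D ≠ 0) (hz : ∀ l, z - a l ≠ 0) :
    ev2 α (D * z) (etbKer_N a b e) =
      ev2 α (D * z) (etbKer_N a b (-e)) * ∏ l, (z - a l) ^ e l := by
  rw [etbKer_N_ev a b e _ hD, etbKer_N_ev a b (-e) _ hD]
  have h1' : ∀ s : Finset (Fin (g + 1)), ∏ l ∈ s, D ^ e l = D ^ ∑ l ∈ s, e l := by
    intro s
    induction s using Finset.cons_induction with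
    | empty => rw [Finset.prod_empty, Finset.sum_empty, zpow_zero]
    | cons l s hl ih => rw [Finset.prod_cons, Finset.sum_cons, zpow_add₀ h0, ih]
  have h1 : ∏ l, D ^ e l = 1 := by
    rw [h1', he, zpow_zero]
  have h2 : ∀ l, D * z - a l * D = D * (z - a l) := fun l => by ring
  have h3 : ∀ l, (D * z - a l * D) ^ (e l).toNat =
      (D * z - a l * D) ^ ((-e) l).toNat * (D ^ e l * (z - a l) ^ e l) := by
    intro l
    have h4 : D * z - a l * D ≠ 0 := by
      rw [h2]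
      exact mul_ne_zero h0 (hz l)
    rw [← mul_zpow, ← h2, ← zpow_natCast, ← zpow_natCast, ← zpow_add₀ h4]
    congr 1
    rw [Pi.neg_apply]
    omega
  rw [Finset.prod_congr rfl fun l _ => h3 l, Finset.prod_mul_distrib, Finset.prod_mul_distrib,
    h1, one_mul]

private theorem etbKer_N_ne {g r : ℕ} (a : Fin (g + 1) → ℤ) (b : Fin (r + 1) → ℤ)
    (e : Fin (g + 1) → ℤ) {M : Type} [Field M] [CharZero M] {α z D : M}
    (hD : ∏ l, (α - (b l : M)) = D) (h0 : D ≠ 0) (hz : ∀ l, z - a l ≠ 0) :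
    ev2 α (D * z) (etbKer_N a b e) ≠ 0 := by
  rw [etbKer_N_ev a b e _ hD]
  refine Finset.prod_ne_zero_iff.2 fun l _ => pow_ne_zero _ ?_
  have h2 : D * z - a l * D = D * (z - a l) := by ring
  rw [h2]
  exact mul_ne_zero h0 (hz l)

private theorem etbKer_ey {g r : ℕ} (a : Fin (g + 1) → ℤ) (b : Fin (r + 1) → ℤ) {c : ℤ}
    (hc : c ≠ 0) {M : Type} [Field M] [CharZero M] {α z D : M}
    (hD : ∏ l, (α - (b l : M)) = D) (hz : (c : M) * D * ∏ l, (z - (a l : M)) = 1) :
    ev2 α (D * z) (Ey a b c) = 0 := by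
  rw [ey_ev, dp_aeval, hD]
  have h3 : ∀ l, D * z - a l * D = D * (z - a l) := fun l => by ring
  rw [Finset.prod_congr rfl fun l _ => h3 l, Finset.prod_mul_distrib, Finset.prod_const,
    Finset.card_univ, Fintype.card_fin]
  have h5 : (c : M) ≠ 0 := Int.cast_ne_zero.2 hc
  have h6 : D ^ (g + 1) * ∏ l, (z - (a l : M)) =
      (c : M)⁻¹ * D ^ g * ((c : M) * D * ∏ l, (z - (a l : M))) := by
    field_simp
    ring
  rw [h6, hz, mul_one, sub_self]

theorem Crv.pl_eq {g r : ℕ} {a : Fin (g + 1) → ℤ} {b : Fin (r + 1) → ℤ} {c : ℤ} {K : Type}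
    [Field K] [CharZero K] {x : K} {v : Kˣ} (H : Crv a b c x v) {p : ℕ} [Fact p.Prime]
    (hν : (g + 1).Coprime (padicValInt p c)) {F : IntermediateField ℚ_[p] (PadicAlgCl p)}
    (hF : Tm p (g + 1) F) {P : ℚ[X]} (hP : P.Monic) (hP' : Irreducible P) {α : PadicAlgCl p}
    (hα : aeval α P = 0) (hαF : α ∈ F) (h1 : ‖α‖ = 1) (h2 : ‖aeval α (Dp b)‖ = 1)
    {O O' : ValuationSubring K} (hO : IsPl O) (hO' : IsPl O')
    (hv : O.valuation (aeval (v : K) P) < 1) (hv' : O'.valuation (aeval (v : K) P) < 1) :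
    O = O' := by
  have hm := ey_monic a b c
  exact place_eq H.bid.try_ hm.1 hm.2 H.ey H.gen hP hP' hα
    (fun R hR w' h h' => irr_crv H.g0 H.bid.c0 hν hF hP' hα hαF h1 h2 R hR w' h h') hO hO' hv hv'

theorem Crv.ker {g r : ℕ} {a : Fin (g + 1) → ℤ} {b : Fin (r + 1) → ℤ} {c : ℤ} {K : Type}
    [Field K] [CharZero K] {x : K} {v : Kˣ} (H : Crv a b c x v) {p : ℕ} [Fact p.Prime]
    (hν : (g + 1).Coprime (padicValInt p c)) {F : IntermediateField ℚ_[p] (PadicAlgCl p)}
    (hF : Tm p (g + 1) F) {P : ℚ[X]} (hP : P.Monic) (hP' : Irreducible P) {α : PadicAlgCl p}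
    (hα : aeval α P = 0) (hαF : α ∈ F) (h1 : ‖α‖ = 1) (h2 : ‖aeval α (Dp b)‖ = 1)
    {O : ValuationSubring K} (hO : IsPl O) (hv : O.valuation (aeval (v : K) P) < 1)
    {Q : ℚ[X][X]} (hQ : O.valuation (ev2 (v : K) (aeval (v : K) (Dp b) * x) Q) < 1)
    {y : PadicAlgCl p} (hy : ev2 α y (Ey a b c) = 0) : ev2 α y Q = 0 := by
  have hm := ey_monic a b c
  have hc := etbKer_crit hm.1 hm.2 H.ey hP hP' hα
    (fun R hR w' h h' => irr_crv H.g0 H.bid.c0 hν hF hP' hα hαF h1 h2 R hR w' h h') hO.2 hv Q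
  obtain ⟨R', hR'⟩ := C_dvd_iff_dvd_coeff _ _ |>.2 (hc.2.1 hQ)
  rw [← modByMonic_add_div Q (Ey a b c), map_add, map_mul, hy, zero_mul, add_zero, hR', map_mul,
    etbKer_ev2_C, hα, zero_mul]

theorem Crv.ker_H {g r : ℕ} {a : Fin (g + 1) → ℤ} {b : Fin (r + 1) → ℤ} {c : ℤ} {K : Type}
    [Field K] [CharZero K] {x : K} {v : Kˣ} (H : Crv a b c x v) {p : ℕ} [Fact p.Prime]
    (hν : (g + 1).Coprime (padicValInt p c)) {F : IntermediateField ℚ_[p] (PadicAlgCl p)}
    (hF : Tm p (g + 1) F) {P : ℚ[X]} (hP : P.Monic) (hP' : Irreducible P) {α : PadicAlgCl p}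
    (hα : aeval α P = 0) (hαF : α ∈ F) (h1 : ‖α‖ = 1) (h2 : ‖aeval α (Dp b)‖ = 1)
    {O : ValuationSubring K} (hO : IsPl O) (hv : O.valuation (aeval (v : K) P) < 1)
    {e : Fin (g + 1) → ℤ} (he : ∑ l, e l = 0) {M : ℕ} {A B : ℚ[X]}
    (hQ : O.valuation ((Hf x a e : K) ^ M * aeval (v : K) B - aeval (v : K) A) < 1)
    {x0 : PadicAlgCl p} (hx0 : (c : PadicAlgCl p) * aeval α (Dp b) * ∏ l, (x0 - a l) = 1) :
    (∏ l, (x0 - a l) ^ e l) ^ M * aeval α B = aeval α A := by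
  have hDa : aeval α (Dp b) = ∏ l, (α - (b l : PadicAlgCl p)) := by
    unfold Dp
    simp [map_prod]
  have hDv := dp_aeval b (v : K)
  have hD0 : ∏ l, (α - (b l : PadicAlgCl p)) ≠ 0 := by
    intro h
    rw [hDa, h, norm_zero] at h2
    exact zero_ne_one h2
  have hx1 := hx0
  rw [hDa] at hx1
  have hx0' : ∀ l, x0 - a l ≠ 0 := by
    intro l hl
    rw [Finset.prod_eq_zero (Finset.mem_univ l) hl, mul_zero] at hx0
    exact zero_ne_one hx0
  have hDK : aeval (v : K) (Dp b) ≠ 0 := by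
    intro h
    have h3 := H.prod
    rw [h, mul_zero, zero_mul] at h3
    exact zero_ne_one h3
  have hxK : ∀ l, x - (a l : K) ≠ 0 := by
    intro l hl
    rw [← xa_val H.bid.trx a l] at hl
    exact (xa x a l).ne_zero hl
  have hHf : (Hf x a e : K) = ∏ l, (x - (a l : K)) ^ e l := by
    unfold Hf
    rw [Units.coe_prod]
    refine Finset.prod_congr rfl fun l _ => ?_
    rw [Units.val_zpow_eq_zpow_val, xa_val H.bid.trx]
  have hm := ey_monic a b c
  have hc : ev2 (v : K) (aeval (v : K) (Dp b) * x) (etbKer_N a b (-e)) ∈ O :=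
    (etbKer_crit hm.1 hm.2 H.ey hP hP' hα
      (fun R hR w' h h' => irr_crv H.g0 H.bid.c0 hν hF hP' hα hαF h1 h2 R hR w' h h') hO.2 hv _).1
  have hker := H.ker hν hF hP hP' hα hαF h1 h2 hO hv
    (Q := etbKer_N a b e ^ M * C B - etbKer_N a b (-e) ^ M * C A) (by
      have h3 : ev2 (v : K) (aeval (v : K) (Dp b) * x)
          (etbKer_N a b e ^ M * C B - etbKer_N a b (-e) ^ M * C A) =
          ev2 (v : K) (aeval (v : K) (Dp b) * x) (etbKer_N a b (-e)) ^ M *
            ((Hf x a e : K) ^ M * aeval (v : K) B - aeval (v : K) A) := by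
        rw [map_sub, map_mul, map_mul, map_pow, map_pow, etbKer_ev2_C, etbKer_ev2_C,
          etbKer_N_eq a b he hDv.symm hDK hxK, hHf]
        ring
      rw [h3, map_mul]
      calc O.valuation (ev2 (v : K) (aeval (v : K) (Dp b) * x) (etbKer_N a b (-e)) ^ M) *
            O.valuation ((Hf x a e : K) ^ M * aeval (v : K) B - aeval (v : K) A) ≤
          1 * O.valuation ((Hf x a e : K) ^ M * aeval (v : K) B - aeval (v : K) A) :=
          mul_le_mul_left ((O.valuation_le_one_iff _).2 (pow_mem hc M)) _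
        _ < 1 := by rw [one_mul]; exact hQ) (etbKer_ey a b H.bid.c0 rfl hx1)
  rw [map_sub, map_mul, map_mul, map_pow, map_pow, etbKer_ev2_C, etbKer_ev2_C,
    etbKer_N_eq a b he rfl hD0 hx0'] at hker
  have h6 := etbKer_N_ne a b (-e) rfl hD0 hx0'
  have h7 : ev2 α ((∏ l, (α - (b l : PadicAlgCl p))) * x0) (etbKer_N a b (-e)) ^ M *
      ((∏ l, (x0 - a l) ^ e l) ^ M * aeval α B - aeval α A) = 0 := by
    rw [← hker]
    ring
  exact sub_eq_zero.1 ((mul_eq_zero.1 h7).resolve_left (pow_ne_zero _ h6))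

end Pool.Agent.ETB
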