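import Pool.Agent.EVT.Van
import Pool.Agent.ETB.Ram

/-!
# The `p`-adic argument

A root `x0` of `∏ (X - a l) = 1 / (c D(α))` has value prime to `g + 1`, and `EVT.van` applies.
-/

open scoped BigOperators Polynomial
open Polynomial

namespace Pool.Agent.ETB

open Pool.Agent.ETU
open Pool.Agent.ETI (Tm Bd xa xa_val Hf)

private theorem VanC_mem {p : ℕ} [Fact p.Prime] {F : IntermediateField ℚ_[p] (PadicAlgCl p)}
    {α : PadicAlgCl p} (hαF : α ∈ F) {r : ℕ} (b : Fin (r + 1) → ℤ) : aeval α (Dp b) ∈ F := by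
  unfold Dp
  rw [map_prod]
  refine prod_mem fun l _ => ?_
  rw [map_sub, aeval_X, aeval_C]
  refine F.sub_mem hαF ?_
  rw [eq_intCast]
  exact intCast_mem F (b l)

theorem van_core {p : ℕ} [Fact p.Prime] {g r : ℕ} {a e : Fin (g + 1) → ℤ} {b : Fin (r + 1) → ℤ}
    {c : ℤ} (hg : 0 < g) (hc : c ≠ 0) (hν : (g + 1).Coprime (padicValInt p c))
    (ha : ∀ i j, i ≠ j → ¬ (p : ℤ) ∣ a i - a j)
    {F : IntermediateField ℚ_[p] (PadicAlgCl p)} (hF : Tm p (g + 1) F) {α : PadicAlgCl p}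
    (hαF : α ∈ F) (h1 : ‖α‖ = 1) (h2 : ‖aeval α (Dp b)‖ = 1) (hs : ∑ l, e l = 0)
    {ρ : PadicAlgCl p} (hρ : ρ ∈ F) {M : ℕ} (hM : 0 < M)
    (hyp : ∀ x0 : PadicAlgCl p, (c : PadicAlgCl p) * aeval α (Dp b) * ∏ l, (x0 - a l) = 1 →
      (∏ l, (x0 - a l) ^ e l) ^ M = ρ) : e = 0 := by
  have hν0 : padicValInt p c ≠ 0 := by
    intro h
    rw [h, Nat.coprime_zero_right] at hν
    omega
  set D : PadicAlgCl p := aeval α (Dp b) with hD
  have hD0 : D ≠ 0 := by
    intro h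
    rw [h, norm_zero] at h2
    exact zero_ne_one h2
  have hc0 : (c : PadicAlgCl p) ≠ 0 := Int.cast_ne_zero.2 hc
  have hDF : D ∈ F := VanC_mem hαF b
  set γ : PadicAlgCl p := ((c : PadicAlgCl p) * D)⁻¹ with hγ
  have hγF : γ ∈ F := F.inv_mem (F.mul_mem (intCast_mem F c) hDF)
  -- a root
  obtain ⟨x0, hx0⟩ : ∃ x0 : PadicAlgCl p, ∏ l, (x0 - a l) = γ := by
    have hmon : (∏ l, (X - C ((a l : ℤ) : PadicAlgCl p))).Monic :=
      monic_prod_of_monic _ _ fun i _ => monic_X_sub_C _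
    have hnd : (∏ l, (X - C ((a l : ℤ) : PadicAlgCl p))).natDegree = g + 1 := by
      rw [natDegree_prod_of_monic _ _ fun i _ => monic_X_sub_C _]
      rw [Finset.sum_congr rfl fun i _ => natDegree_X_sub_C ((a i : ℤ) : PadicAlgCl p)]
      simp
    have hdeg : (∏ l, (X - C ((a l : ℤ) : PadicAlgCl p)) - C γ).degree ≠ 0 := by
      have h3 : (∏ l, (X - C ((a l : ℤ) : PadicAlgCl p)) - C γ).natDegree = g + 1 := by
        rw [natDegree_sub_C, hnd]
      intro h4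
      have h5 : (∏ l, (X - C ((a l : ℤ) : PadicAlgCl p)) - C γ).natDegree = 0 :=
        natDegree_eq_of_degree_eq_some h4
      omega
    obtain ⟨x0, hr⟩ := IsAlgClosed.exists_root _ hdeg
    refine ⟨x0, ?_⟩
    rw [IsRoot.def, eval_sub, eval_C, eval_prod, sub_eq_zero] at hr
    rw [← hr]
    exact Finset.prod_congr rfl fun i _ => by rw [eval_sub, eval_X, eval_C]
  have hx0' : (c : PadicAlgCl p) * D * ∏ l, (x0 - a l) = 1 := by
    rw [hx0, hγ]
    exact mul_inv_cancel₀ (mul_ne_zero hc0 hD0)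
  -- its norm
  have hy : ev2 α (D * x0) (Ey a b c) = 0 := by
    rw [ey_ev]
    change ∏ i, (D * x0 - a i * D) - (c : PadicAlgCl p)⁻¹ * D ^ g = 0
    have h3 : ∏ i, (D * x0 - a i * D) = D ^ (g + 1) * ∏ i, (x0 - a i) := by
      have h4 : ∀ i, D * x0 - a i * D = D * (x0 - a i) := fun i => by ring
      rw [Finset.prod_congr rfl fun i _ => h4 i, Finset.prod_mul_distrib, Finset.prod_const,
        Finset.card_univ, Fintype.card_fin]
    rw [h3, hx0, hγ, pow_succ]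
    have h5 : D ^ g * D * ((c : PadicAlgCl p) * D)⁻¹ = (c : PadicAlgCl p)⁻¹ * D ^ g := by
      field_simp
    rw [h5]
    exact sub_self _
  have hn : ‖x0‖ ^ (g + 1) = (p : ℝ) ^ ((padicValInt p c : ℕ) : ℤ) := by
    have h3 := ram hc hν0 h1 h2 hy
    rw [norm_mul, h2, one_mul, Pool.Agent.EVT.norm_pp, inv_zpow, zpow_neg, inv_inv] at h3
    exact h3
  have hH : (∏ i, (x0 - a i) ^ e i) ^ M ∈ F := by
    rw [hyp x0 hx0']
    exact hρ
  refine Pool.Agent.EVT.van (m := g + 1) (Nat.succ_pos g) hF.cop hF.tame ha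
    (e := fun _ => 1) (fun _ => one_pos) (by simp) hγF (by simpa using hx0)
    (v := ((padicValInt p c : ℕ) : ℤ)) ?_ (by exact_mod_cast Nat.pos_of_ne_zero hν0) hn hs hM hH
  exact (Nat.isCoprime_iff_coprime.2 hν).symm

end Pool.Agent.ETB
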