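import Pool.Agent.ETB.Off
import Pool.Agent.ETB.Dec
import Pool.Agent.ETB.Van
import Pool.Agent.ETB.Fin

/-!
# Assembly of the geometric part

`Crv.off`, `Crv.dec`, `Crv.van` for `j` not in the range of `ι`, and `Crv.fin_mem` with `e ∘ ι`, as `u (ι l) = v - b l`.
-/

open scoped BigOperators Polynomial
open Polynomial

namespace Pool.Agent.ETB

open Pool.Agent.ETU Pool.Agent.CST Pool.Agent.Helper11 Pool.Agent.ISI
open Pool.Agent.ETI (Tm Bd xa xa_val Hf)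

theorem Crv.geo {g r : ℕ} {a : Fin (g + 1) → ℤ} {b : Fin (r + 1) → ℤ} {c : ℤ} {K : Type}
    [Field K] [CharZero K] {x : K} {v : Kˣ} (H : Crv a b c x v) {p₁ p₂ : ℕ} [Fact p₁.Prime]
    [Fact p₂.Prime] (h12 : p₁ ≠ p₂) {s : ℕ} {f : Fin s → ℤ[X]} {ι : Fin (r + 1) → Fin s}
    (hinj : Function.Injective ι) (hι : ∀ l, f (ι l) = X - C (b l)) (hf : ∀ i, (f i).Monic)
    (hp₁ : Prm p₁ a b c f) (hp₂ : Prm p₂ a b c f)
    {u : Fin s → Kˣ} (hu : ∀ i, (u i : K) = aeval (v : K) (f i)) {z : KMQ K 2}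
    (hz : z ∈ (⨆ i, slM (u i)) ⊔ LP (v : K)) (hzg : z ∈ geomM K) :
    z ∈ Submodule.span ℚ (Set.range fun q : Fin r × Fin g =>
      sy (xr (v : K) b q.1) (xr x a q.2)) := by
  obtain ⟨N, h, β, hN, hβ, hNz, hh⟩ := H.off h12 hι hf hp₁ hp₂ hu hz hzg
  obtain ⟨N', e, β', hN', he, hβ', hz'⟩ := H.dec (fun i => (hf i).ne_zero) hu hN hβ hNz
    (fun O hO h1 h2 => hh O hO h1 h2)
  have h0 : ∀ j, (∀ l, ι l ≠ j) → sy (u j) (Hf x a (e j)) = 0 := by
    intro j hj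
    rw [H.van hι hp₁ hu he hβ' hz' hzg hj]
    have h1 : Hf x a (0 : Fin (g + 1) → ℤ) = 1 := by
      unfold Hf
      exact Finset.prod_eq_one fun l _ => zpow_zero _
    rw [h1, sy_one_right]
  have hν : padicValInt p₁ c ≠ 0 := by
    intro h0
    have h1 := hp₁.val
    rw [h0, Nat.coprime_zero_right] at h1
    have := H.g0
    omega
  refine H.fin_mem hν hp₁.dis hN' (e := fun l => e (ι l)) (fun l => he _) hβ' ?_ hzg
  rw [hz']
  congr 1
  have h1 : ∑ l, sy (u (ι l)) (Hf x a (e (ι l))) = ∑ i, sy (u i) (Hf x a (e i)) := by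
    refine Finset.sum_of_injOn ι hinj.injOn (by simp) (fun i _ hi => h0 i fun l hl => hi ?_)
      (fun _ _ => rfl)
    simp only [Finset.coe_univ, Set.image_univ, Set.mem_range]
    exact ⟨l, hl⟩
  rw [← h1]
  refine Finset.sum_congr rfl fun l _ => ?_
  have h2 : u (ι l) = xa (v : K) b l := by
    apply Units.ext
    rw [hu, hι, xa_val H.bid.try_]
    simp
  rw [h2]

end Pool.Agent.ETB
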