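import Pool.Agent.ETB.PlA
import Pool.Agent.Helper11.KMUnr

/-!
# Integrality of the symbols

At a discrete valuation ring which contains `x` and `y` all the factors are units; if one of the two is not in the ring, the quotients of its
factors are congruent to `1`.
-/

open scoped BigOperators Polynomial
open Polynomial

namespace Pool.Agent.ETB

open Pool.Agent.ETU Pool.Agent.CST Pool.Agent.Helper11 Pool.Agent.ISI
open Pool.Agent.ETI (Tm Bd xa xa_val Hf)

private theorem Int_cast {K : Type} [Field K] (O : ValuationSubring K) (n : ℤ) :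
    O.valuation (n : K) ≤ 1 :=
  (O.valuation_le_one_iff _).2 (intCast_mem O n)

private theorem Int_quot {K : Type} [Field K] (O : ValuationSubring K) {z : K} (hz : z ∉ O)
    (m n : ℤ) : O.valuation ((z - m) / (z - n) - 1) < 1 := by
  have h1 : 1 < O.valuation z := by
    rw [← not_le, O.valuation_le_one_iff]
    exact hz
  have h2 : O.valuation (z - n) = O.valuation z := by
    rw [sub_eq_add_neg]
    refine O.valuation.map_add_eq_of_lt_left ?_
    rw [Valuation.map_neg]
    exact (Int_cast O n).trans_lt h1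
  have h3 : z - n ≠ 0 := by
    intro h
    rw [h, map_zero] at h2
    rw [← h2] at h1
    exact absurd h1 (not_lt.2 zero_le)
  have h4 : (z - m) / (z - n) - 1 = ((n - m : ℤ) : K) / (z - n) := by
    rw [div_sub_one h3]
    push_cast
    congr 1
    ring
  rw [h4, map_div₀, h2]
  exact (div_lt_one₀ (zero_lt_one.trans h1)).2 ((Int_cast O _).trans_lt h1)

private theorem Int_mul {K : Type} [Field K] (O : ValuationSubring K) {s t : Kˣ}
    (hs : O.valuation ((s : K) - 1) < 1) (ht : O.valuation ((t : K) - 1) < 1) :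
    O.valuation (((s * t : Kˣ) : K) - 1) < 1 := by
  have h1 : ((s * t : Kˣ) : K) - 1 = (s : K) * ((t : K) - 1) + ((s : K) - 1) := by
    rw [Units.val_mul]
    ring
  have h2 : O.valuation (s : K) = 1 := (O.mem_unitGroup_iff _).1 (unit_of_sub_one O hs)
  rw [h1]
  refine (O.valuation.map_add _ _).trans_lt (max_lt ?_ hs)
  rw [map_mul, h2, one_mul]
  exact ht

private theorem Int_inv {K : Type} [Field K] (O : ValuationSubring K) {s : Kˣ}
    (hs : O.valuation ((s : K) - 1) < 1) : O.valuation (((s⁻¹ : Kˣ) : K) - 1) < 1 := by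
  have h2 : O.valuation (s : K) = 1 := (O.mem_unitGroup_iff _).1 (unit_of_sub_one O hs)
  have h1 : ((s⁻¹ : Kˣ) : K) - 1 = -(((s : K) - 1) / (s : K)) := by
    rw [Units.val_inv_eq_inv_val]
    field_simp
    ring
  rw [h1, Valuation.map_neg, map_div₀, h2, div_one]
  exact hs

/-- the subgroup of the units congruent to one -/
private def IntOne {K : Type} [Field K] (O : ValuationSubring K) : Subgroup Kˣ where
  carrier := {s | O.valuation ((s : K) - 1) < 1}
  one_mem' := by
    show O.valuation (((1 : Kˣ) : K) - 1) < 1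
    rw [Units.val_one, sub_self, map_zero]
    exact zero_lt_one
  mul_mem' := fun hs ht => Int_mul O hs ht
  inv_mem' := fun hs => Int_inv O hs

private theorem Int_hf {g : ℕ} {K : Type} [Field K] [CharZero K] {x : K}
    (hx : Transcendental ℚ x) (a : Fin (g + 1) → ℤ) {e : Fin (g + 1) → ℤ} (he : ∑ i, e i = 0)
    (O : ValuationSubring K) (hO : x ∉ O) : O.valuation ((Hf x a e : K) - 1) < 1 := by
  have h1 : Hf x a e = ∏ i, (xa x a i / xa x a 0) ^ e i := by
    unfold Hf
    have h4 : ∀ s : Finset (Fin (g + 1)),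
        ∏ i ∈ s, xa x a 0 ^ e i = xa x a 0 ^ (∑ i ∈ s, e i) := by
      classical
      intro s
      induction s using Finset.induction_on with
      | empty => simp
      | insert i s his ih => rw [Finset.prod_insert his, Finset.sum_insert his, zpow_add, ih]
    have h2 : ∏ i : Fin (g + 1), xa x a 0 ^ e i = 1 := by
      rw [h4, he, zpow_zero]
    simp only [div_zpow]
    rw [Finset.prod_div_distrib, h2, div_one]
  have h3 : Hf x a e ∈ IntOne O := by
    rw [h1]
    refine Subgroup.prod_mem _ fun i _ => Subgroup.zpow_mem _ ?_ _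
    show O.valuation (((xa x a i / xa x a 0 : Kˣ) : K) - 1) < 1
    rw [Units.val_div_eq_div_val, xa_val hx, xa_val hx]
    exact Int_quot O hO _ _
  exact h3

private theorem Int_xr {g : ℕ} {K : Type} [Field K] [CharZero K] {x : K}
    (hx : Transcendental ℚ x) (a : Fin (g + 1) → ℤ) (i : Fin g)
    (O : ValuationSubring K) (hO : x ∉ O) : O.valuation ((xr x a i : K) - 1) < 1 := by
  unfold xr
  rw [Units.val_div_eq_div_val, xa_val hx, xa_val hx]
  exact Int_quot O hO _ _

private theorem Int_unit {g : ℕ} {K : Type} [Field K] [CharZero K] {x : K}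
    (hx : Transcendental ℚ x) {a : Fin (g + 1) → ℤ} {O : ValuationSubring K}
    (h : ∀ i, O.valuation (x - a i) = 1) (i : Fin (g + 1)) : xa x a i ∈ O.unitGroup := by
  rw [O.mem_unitGroup_iff, xa_val hx]
  exact h i

private theorem Int_hfu {g : ℕ} {K : Type} [Field K] [CharZero K] {x : K}
    (hx : Transcendental ℚ x) {a : Fin (g + 1) → ℤ} {O : ValuationSubring K}
    (h : ∀ i, O.valuation (x - a i) = 1) (e : Fin (g + 1) → ℤ) : Hf x a e ∈ O.unitGroup := by
  unfold Hf
  exact Subgroup.prod_mem _ fun i _ => Subgroup.zpow_mem _ (Int_unit hx h i) _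

private theorem Int_span {K : Type} [Field K] {O : ValuationSubring K} {s t : Kˣ}
    (hs : s ∈ O.unitGroup) (ht : t ∈ O.unitGroup) : sy s t ∈ unrM O 2 := by
  refine Submodule.subset_span ⟨![s, t], fun m => ?_, rfl⟩
  fin_cases m
  · exact hs
  · exact ht

theorem Bid.int {g r : ℕ} {a : Fin (g + 1) → ℤ} {b : Fin (r + 1) → ℤ} {c : ℤ} {K : Type} [Field K]
    [CharZero K] {x y : K} (H : Bid a b c x y) (l : Fin r) {e : Fin (g + 1) → ℤ}
    (he : ∑ i, e i = 0) (O : ValuationSubring K) (hO : IsDiscreteValuationRing O) :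
    sy (xr y b l) (Hf x a e) ∈ unrM O 2 := by
  by_cases hy : y ∈ O
  · by_cases hx : x ∈ O
    · obtain ⟨h1, h2⟩ := H.one hx hy
      refine Int_span ?_ (Int_hfu H.trx h1 e)
      unfold xr
      exact Subgroup.div_mem _ (Int_unit H.try_ h2 _) (Int_unit H.try_ h2 _)
    · exact symM_mem_of_sub_one O ![xr y b l, Hf x a e] 1 (Int_hf H.trx a he O hx)
  · exact symM_mem_of_sub_one O ![xr y b l, Hf x a e] 0 (Int_xr H.try_ b l O hy)

theorem Crv.int_v {g r : ℕ} {a : Fin (g + 1) → ℤ} {b : Fin (r + 1) → ℤ} {c : ℤ} {K : Type}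
    [Field K] [CharZero K] {x : K} {v : Kˣ} (H : Crv a b c x v) {e : Fin (g + 1) → ℤ}
    (he : ∑ i, e i = 0) (O : ValuationSubring K) (hO : IsDiscreteValuationRing O)
    (hv : (v : K) ∈ O) : sy v (Hf x a e) ∈ unrM O 2 := by
  by_cases hx : x ∈ O
  · obtain ⟨h1, h2⟩ := H.bid.one hx hv
    refine Int_span ?_ (Int_hfu H.bid.trx h1 e)
    have h3 := h2 0
    rw [H.b0, Int.cast_zero, sub_zero] at h3
    rw [O.mem_unitGroup_iff]
    exact h3
  · exact symM_mem_of_sub_one O ![v, Hf x a e] 1 (Int_hf H.bid.trx a he O hx)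

theorem Bid.int_xr {g r : ℕ} {a : Fin (g + 1) → ℤ} {b : Fin (r + 1) → ℤ} {c : ℤ} {K : Type}
    [Field K] [CharZero K] {x y : K} (H : Bid a b c x y) (l : Fin r) (i : Fin g) :
    sy (xr y b l) (xr x a i) ∈ integralM K 2 := by
  have h1 : ∑ k, (Pi.single i.succ 1 - Pi.single 0 1 : Fin (g + 1) → ℤ) k = 0 := by
    simp [Finset.sum_sub_distrib]
  have h2 : xr x a i = Hf x a (Pi.single i.succ 1 - Pi.single 0 1) := by
    unfold xr Hf
    simp only [Pi.sub_apply, zpow_sub]
    rw [Finset.prod_mul_distrib, Finset.prod_inv_distrib, div_eq_mul_inv]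
    congr 1
    · rw [Finset.prod_eq_single i.succ]
      · simp
      · intro k _ hk
        simp [Pi.single_eq_of_ne hk]
      · simp
    · rw [Finset.prod_eq_single 0]
      · simp
      · intro k _ hk
        simp [Pi.single_eq_of_ne hk]
      · simp
  unfold integralM
  simp only [Submodule.mem_iInf]
  intro O hO
  rw [h2]
  exact H.int l h1 O hO

end Pool.Agent.ETB
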