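import Pool.Agent.ETB.Cyc
import Pool.Agent.ISG.Fin

/-!
# MODULE ETB-Reg : the regulators are independent

`crv_regulators` (Helper11/CMain.lean) with `Δ = 1` for the fraction field of `Bid.frc` and the cycles of `exists_cyc`; the
regulators are transported to `ISG.K2Q K` by `eK K`.
-/

open scoped BigOperators

namespace Pool.Agent.ETB

open Pool.Agent.Helper11 Pool.Agent.ISG

private theorem Reg_xr {K : Type} [Field K] [CharZero K] {x : K} {g : ℕ} {a : Fin (g + 1) → ℤ}
    (hx : Transcendental ℚ x) {L : Fin (g + 1) → Kˣ} (hL : ∀ i, (L i : K) = x - a i) (i : Fin g) :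
    L i.succ / L 0 = xr x a i := by
  have h1 : ∀ i, L i = Pool.Agent.ETI.xa x a i := by
    intro i
    apply Units.ext
    rw [hL, Pool.Agent.ETI.xa_val]
    exact hx
  unfold xr
  rw [h1, h1]

theorem Bid.reg {g r : ℕ} {a : Fin (g + 1) → ℤ} {b : Fin (r + 1) → ℤ} {c : ℤ} {K : Type} [Field K]
    [CharZero K] {x y : K} (H : Bid a b c x y)
    (hc : (400 * (((g + 1) + (r + 1) : ℕ) : ℤ) ^ 3) ^ 2 ≤ |c|) :
    ∃ (n : ℕ) (R : Fin n → (ISG.K2Q K →ₗ[ℚ] ℝ)), (∀ j, IsLoopRegulator (R j)) ∧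
      LinearIndependent ℝ fun (q : Fin r × Fin g) (j : Fin n) =>
        R j (sb (xr y b q.1) (xr x a q.2)) := by
  obtain ⟨I1, I2, hx, hy⟩ := H.frc
  obtain ⟨R, hR, hind⟩ := crv_regulators (α := la g r) (β := lb a b) (c := c) (Δ := 1) (K := K)
    (la_rk g r) (by omega) (la_gp H.inja H.injb) one_ne_zero (la_det g r) (by
      rw [abs_one, one_pow, mul_one]
      exact hc)
  obtain ⟨Z, hZ, hcl⟩ := exists_cyc g r
  have h1 := hind (r * g) (Z ∘ finProdFinEquiv.symm)
    (hZ.comp _ finProdFinEquiv.symm.injective)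
  have h2 := h1.comp _ finProdFinEquiv.injective
  have h3 : ∀ (q : Fin r × Fin g), cycleClass (n := 1) (LK (la g r) (lb a b) c K)
      (DK (la g r) (lb a b) c K) (Z q) = (2 : ℚ) • sy (xr y b q.1) (xr x a q.2) := by
    intro q
    rw [hcl K (LK (la g r) (lb a b) c K) (DK (la g r) (lb a b) c K) (fun J hJ => DK_val hJ) q,
      Reg_xr H.try_ (L := fun l => LK (la g r) (lb a b) c K (Fin.natAdd (g + 1) l)) hy q.1,
      Reg_xr H.trx (L := fun i => LK (la g r) (lb a b) c K (Fin.castAdd (r + 1) i)) hx q.2]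
  refine ⟨Fintype.card {J : Fin 2 → Fin ((g + 1) + (r + 1)) // hypDet (n := 1) (la g r) J ≠ 0},
    fun j => R ((Fintype.equivFin _).symm j) ∘ₗ (eK K).toLinearMap,
    fun j => isLoopRegulator (hR _), ?_⟩
  rw [Fintype.linearIndependent_iff] at h2 ⊢
  intro t ht
  refine h2 t ?_
  funext J
  have h4 := congrFun ht ((Fintype.equivFin _) J)
  simp only [Finset.sum_apply, Pi.smul_apply, LinearMap.comp_apply, Equiv.symm_apply_apply,
    Pi.zero_apply, smul_eq_mul, LinearEquiv.coe_coe, eK_sb, Function.comp_apply] at h4 ⊢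
  have h5 : ∀ q : Fin r × Fin g, t q * (R J) (cycleClass (n := 1) (LK (la g r) (lb a b) c K)
      (DK (la g r) (lb a b) c K) (Z q)) = 2 * (t q * (R J) (sy (xr y b q.1) (xr x a q.2))) := by
    intro q
    rw [h3, map_smul, Rat.smul_def]
    push_cast
    ring
  rw [Finset.sum_congr rfl fun q _ => h5 q, ← Finset.mul_sum, h4, mul_zero]

end Pool.Agent.ETB
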