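import Mathlib

/-!
# MODULE ETB-Smo : the affine curve is smooth

At a singular point `(x₀, w₀)` the numbers `(g + 1) x₀` and `(r + 1) w₀` are algebraic integers (zeros of the
derivatives), so the rational number `(g + 1)^(g + 1) (r + 1)^(r + 1) / c` is an integer.
-/

open scoped BigOperators Polynomial
open Polynomial

namespace Pool.Agent.ETB

private theorem Smo_int {g : ℕ} (a : Fin (g + 1) → ℤ) {x : ℂ}
    (h : aeval x (derivative (∏ i, (X - C (a i)) : ℤ[X])) = 0) :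
    IsIntegral ℤ (((g : ℂ) + 1) ^ (g + 1) * ∏ i, (x - a i)) := by
  have hmon : (∏ i, (X - C (a i)) : ℤ[X]).Monic := monic_prod_of_monic _ _ fun i _ => monic_X_sub_C _
  have hdeg : (∏ i, (X - C (a i)) : ℤ[X]).natDegree = g + 1 := by
    rw [natDegree_prod_of_monic _ _ fun i _ => monic_X_sub_C _,
      Finset.sum_congr rfl fun i _ => natDegree_X_sub_C (a i), Finset.sum_const, Finset.card_univ,
      Fintype.card_fin, smul_eq_mul, mul_one]
  have hlead : (derivative (∏ i, (X - C (a i)) : ℤ[X])).leadingCoeff = ((g : ℤ) + 1) := by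
    rw [leadingCoeff, natDegree_derivative, hdeg, Nat.add_sub_cancel, coeff_derivative]
    have h1 : (∏ i, (X - C (a i)) : ℤ[X]).coeff (g + 1) = 1 := by
      have h2 := hmon.coeff_natDegree
      rwa [hdeg] at h2
    rw [h1, one_mul]
  have h1 : IsIntegral ℤ (((g : ℤ) + 1) • x) := by
    rw [← hlead]
    exact isIntegral_leadingCoeff_smul _ _ h
  have h2 : ((g : ℂ) + 1) ^ (g + 1) * ∏ i, (x - a i) = ∏ i : Fin (g + 1), (((g : ℂ) + 1) * (x - a i)) := by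
    rw [Finset.prod_mul_distrib, Finset.prod_const, Finset.card_univ, Fintype.card_fin]
  rw [h2]
  apply IsIntegral.prod
  intro i _
  have h3 : ((g : ℂ) + 1) * (x - a i) = ((g : ℤ) + 1) • x - (((((g : ℤ) + 1) * a i : ℤ)) : ℂ) := by
    rw [zsmul_eq_mul]
    push_cast
    ring
  rw [h3]
  apply IsIntegral.sub h1
  exact isIntegral_algebraMap (R := ℤ) (A := ℂ) (x := ((g : ℤ) + 1) * a i)

theorem smooth {g r : ℕ} (a : Fin (g + 1) → ℤ) (b : Fin (r + 1) → ℤ) {c : ℤ} {p : ℕ}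
    (hp : p.Prime) (hν : padicValInt p c ≠ 0) (hg : ¬ p ∣ g + 1) (hr : ¬ p ∣ r + 1) (x₀ w₀ : ℂ)
    (h : (c : ℂ) * (∏ i, (x₀ - a i)) * ∏ l, (w₀ - b l) = 1) :
    ¬ (aeval x₀ (derivative (∏ i, (X - C (a i)) : ℤ[X])) = 0 ∧
      aeval w₀ (derivative (∏ l, (X - C (b l)) : ℤ[X])) = 0) := by
  rintro ⟨h1, h2⟩
  have hc : c ≠ 0 := by
    rintro rfl
    simp at hν
  have hcC : (c : ℂ) ≠ 0 := by exact_mod_cast hc
  have hI := (Smo_int a h1).mul (Smo_int b h2)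
  have he : (((g : ℂ) + 1) ^ (g + 1) * ∏ i, (x₀ - a i)) *
      (((r : ℂ) + 1) ^ (r + 1) * ∏ l, (w₀ - b l)) =
      algebraMap ℚ ℂ (((g : ℚ) + 1) ^ (g + 1) * ((r : ℚ) + 1) ^ (r + 1) / c) := by
    rw [map_div₀, map_mul, map_pow, map_pow, map_add, map_add, map_one, map_natCast, map_natCast,
      map_intCast, eq_div_iff hcC]
    calc (((g : ℂ) + 1) ^ (g + 1) * ∏ i, (x₀ - a i)) *
          (((r : ℂ) + 1) ^ (r + 1) * ∏ l, (w₀ - b l)) * (c : ℂ)
        = ((g : ℂ) + 1) ^ (g + 1) * ((r : ℂ) + 1) ^ (r + 1) *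
            ((c : ℂ) * (∏ i, (x₀ - a i)) * ∏ l, (w₀ - b l)) := by ring
      _ = ((g : ℂ) + 1) ^ (g + 1) * ((r : ℂ) + 1) ^ (r + 1) := by rw [h, mul_one]
  rw [he, isIntegral_algebraMap_iff (algebraMap ℚ ℂ).injective,
    IsIntegrallyClosed.isIntegral_iff] at hI
  obtain ⟨n, hn⟩ := hI
  have hcQ : (c : ℚ) ≠ 0 := by exact_mod_cast hc
  have h3 : (n : ℚ) * c = ((g : ℚ) + 1) ^ (g + 1) * ((r : ℚ) + 1) ^ (r + 1) := by
    have h4 : (n : ℚ) = ((g : ℚ) + 1) ^ (g + 1) * ((r : ℚ) + 1) ^ (r + 1) / c := hn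
    rw [h4]
    field_simp
  have h5 : n * c = (((g + 1) ^ (g + 1) * (r + 1) ^ (r + 1) : ℕ) : ℤ) := by
    push_cast
    exact_mod_cast h3
  have hpc : (p : ℤ) ∣ c := by
    by_contra hcon
    apply hν
    rw [padicValInt]
    apply padicValNat.eq_zero_of_not_dvd
    intro hd
    apply hcon
    exact Int.natCast_dvd.2 hd
  have h6 : (p : ℤ) ∣ (((g + 1) ^ (g + 1) * (r + 1) ^ (r + 1) : ℕ) : ℤ) := by
    rw [← h5]
    exact Dvd.dvd.mul_left hpc n
  have h7 : p ∣ (g + 1) ^ (g + 1) * (r + 1) ^ (r + 1) := Int.natCast_dvd_natCast.1 h6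
  rcases hp.dvd_mul.1 h7 with h8 | h8
  · exact hg (hp.dvd_of_dvd_pow h8)
  · exact hr (hp.dvd_of_dvd_pow h8)

end Pool.Agent.ETB
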