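import Pool.Agent.CS2.Stm
import Pool.Agent.ISG.Defs
import Pool.Agent.ETI.Stm

/-! # Definitions for the statement of BidegreeIso -/

namespace Pool.Agent.ETB

open Polynomial Pool.Agent.ISG Pool.Agent.CST Pool.Agent.CS2

/-- The span in `K_2(K) ⊗ ℚ` of the symbols `{u, h}` of elements `u, h` of `K*` such that `u` is one
of the `w - b l` or of the `f_j(w)`, or both `u` and `h` are in `ℚ(w)`. -/
noncomputable def wSlices {K : Type} [Field K] [CharZero K] (w : K) {r s : ℕ} (b : Fin r → ℤ)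
    (f : Fin s → ℤ[X]) : Submodule ℚ (K2Q K) :=
  Submodule.span ℚ {z | ∃ u h : Kˣ, ((∃ l, (u : K) = w - b l) ∨ (∃ j, (u : K) = aeval w (f j)) ∨
    ((u : K) ∈ IntermediateField.adjoin ℚ {w} ∧ (h : K) ∈ IntermediateField.adjoin ℚ {w})) ∧
    z = sb u h}

/-- The vectors of the regulators of the `z i` along finitely many loops are linearly independent
over `ℝ`. -/
def IndependentRegulators {K : Type} [Field K] {ι : Type} (z : ι → K2Q K) : Prop :=
  ∃ (n : ℕ) (R : Fin n → (K2Q K →ₗ[ℚ] ℝ)), (∀ j, IsLoopRegulator (R j)) ∧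
    LinearIndependent ℝ fun (i : ι) (j : Fin n) => R j (z i)

/-- The curve `c ∏ (x - a i) ∏ (w - b l) = 1` has no singular complex point. -/
def SmoothCurve {g r : ℕ} (a : Fin g → ℤ) (b : Fin r → ℤ) (c : ℤ) : Prop :=
  ∀ x₀ w₀ : ℂ, (c : ℂ) * (∏ i, (x₀ - a i)) * ∏ l, (w₀ - b l) = 1 →
    ¬ (aeval x₀ (derivative (∏ i, (X - C (a i)) : ℤ[X])) = 0 ∧
      aeval w₀ (derivative (∏ l, (X - C (b l)) : ℤ[X])) = 0)

end Pool.Agent.ETB
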