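import Pool.Agent.ETB.Geo
import Pool.Agent.ETB.Prm
import Pool.Agent.ETB.Reg
import Pool.Agent.ETB.Smo
import Pool.Agent.ETB.Stm

/-!
# The theorem

With `v = w - b 0` and `b' l = b l - b 0`, the family is `X - b' 0, .., X - b' r` followed by the `f j (X + b 0)`. The
conditions `Prm` on the two primes come from `exists_prm`; the isomorphism `eK K` maps `wSlices w b f` and the unramified part to
the submodules in `Crv.geo`; the converse inclusion and the regulators come from `Bid.int_xr` and `Bid.reg`.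
-/

open scoped BigOperators Polynomial
open Polynomial

namespace Pool.Agent.ETB

open Pool.Agent.ETU Pool.Agent.CST Pool.Agent.ISG Pool.Agent.CS2

private theorem MainB_quot {K : Type} [Field K] [CharZero K] {g : K} (hg : Transcendental ℚ g)
    {a : Kˣ} (ha : (a : K) ∈ IntermediateField.adjoin ℚ {g}) :
    ∃ p q : ℚ[X], p ≠ 0 ∧ q ≠ 0 ∧ a * ISI.pq g q = ISI.pq g p := by
  obtain ⟨p, q, h⟩ := IntermediateField.mem_adjoin_simple_iff ℚ _ |>.1 ha
  have hq : q ≠ 0 := by
    rintro rfl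
    rw [map_zero, div_zero] at h
    exact a.ne_zero h
  have hp : p ≠ 0 := by
    rintro rfl
    rw [map_zero, zero_div] at h
    exact a.ne_zero h
  refine ⟨p, q, hp, hq, ?_⟩
  apply Units.ext
  rw [Units.val_mul, ISI.pq_val hg hq, ISI.pq_val hg hp, h, div_mul_cancel₀ _ (ISI.aeval_ne hg hq)]

private theorem MainB_sy {K : Type} [Field K] [CharZero K] {g : K} (hg : Transcendental ℚ g)
    {a b : Kˣ} (ha : (a : K) ∈ IntermediateField.adjoin ℚ {g})
    (hb : (b : K) ∈ IntermediateField.adjoin ℚ {g}) : Helper11.sy a b ∈ ISI.LP g := by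
  obtain ⟨p, q, hp, hq, h1⟩ := MainB_quot hg ha
  obtain ⟨r, s, hr, hs, h2⟩ := MainB_quot hg hb
  have h3 : ∀ (u : Kˣ) (p' q' : ℚ[X]), b * ISI.pq g q' = ISI.pq g p' →
      Helper11.sy u b = Helper11.sy u (ISI.pq g p') - Helper11.sy u (ISI.pq g q') := by
    intro u p' q' h
    rw [← h, Helper11.sy_mul_right]
    abel
  have h4 : ∀ u : Kˣ, Helper11.sy a u = Helper11.sy (ISI.pq g p) u - Helper11.sy (ISI.pq g q) u := by
    intro u
    rw [Helper11.sy_anti, ← neg_sub_neg, ← Helper11.sy_anti u (ISI.pq g p),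
      ← Helper11.sy_anti u (ISI.pq g q), ← h1, Helper11.sy_mul_right]
    abel
  have h5 : ∀ p' q' : ℚ[X], p' ≠ 0 → q' ≠ 0 → Helper11.sy (ISI.pq g p') (ISI.pq g q') ∈ ISI.LP g :=
    fun p' q' hp' hq' => Submodule.subset_span ⟨p', q', hp', hq', rfl⟩
  rw [h3 a r s h2, h4, h4]
  exact Submodule.sub_mem _ (Submodule.sub_mem _ (h5 _ _ hp hr) (h5 _ _ hq hr))
    (Submodule.sub_mem _ (h5 _ _ hp hs) (h5 _ _ hq hs))

private theorem MainB_span {K : Type} [Field K] (O : ValuationSubring K) (z : ISG.K2Q K)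
    (h : z ∈ Submodule.span ℚ
      {z | ∃ u v : Kˣ, u ∈ O.unitGroup ∧ v ∈ O.unitGroup ∧ z = sb u v}) :
    eK K z ∈ Helper11.unrM O 2 := by
  have h1 := mem_span_iff (fun u v => u ∈ O.unitGroup ∧ v ∈ O.unitGroup) z
  have h2 : {z : ISG.K2Q K | ∃ u v : Kˣ, u ∈ O.unitGroup ∧ v ∈ O.unitGroup ∧ z = sb u v} =
      {z | ∃ u v : Kˣ, (u ∈ O.unitGroup ∧ v ∈ O.unitGroup) ∧ z = sb u v} := by
    ext z
    simp only [and_assoc]
  rw [h2] at h
  have h3 := h1.1 h
  unfold Helper11.unrM
  refine Submodule.span_mono ?_ h3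
  rintro _ ⟨u, v, ⟨hu, hv⟩, rfl⟩
  refine ⟨![u, v], fun m => ?_, rfl⟩
  fin_cases m
  · exact hu
  · exact hv

private theorem MainB_geom {K : Type} [Field K] [CharZero K] {z : ISG.K2Q K}
    (h : z ∈ unramifiedK2 K) : eK K z ∈ geomM K := by
  unfold geomM
  simp only [Submodule.mem_iInf]
  intro O hO
  refine MainB_span O z ?_
  unfold unramifiedK2 at h
  simp only [Submodule.mem_iInf] at h
  exact h O hO.1 hO.2

/-- the isomorphism between the two versions of `K₂ ⊗ ℚ` respects spans of symbols -/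
private theorem MainB_eK {K : Type} [Field K] (p : Kˣ → Kˣ → Prop)
    (M : Submodule ℚ (Helper11.KMQ K 2))
    (hM : ∀ u v, p u v → Helper11.sy u v ∈ M) {z : ISG.K2Q K}
    (h : z ∈ Submodule.span ℚ {z | ∃ u v : Kˣ, p u v ∧ z = sb u v}) : eK K z ∈ M := by
  have h1 := (mem_span_iff p z).1 h
  refine (Submodule.span_le.2 ?_) h1
  rintro _ ⟨u, v, huv, rfl⟩
  exact hM u v huv


/-- the shifted family -/
private noncomputable def MainB_F {r s : ℕ} (b : Fin (r + 1) → ℤ) (f : Fin s → ℤ[X]) :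
    Fin ((r + 1) + s) → ℤ[X] :=
  Fin.append (fun l => X - C (b l - b 0)) fun j => (f j).comp (X + C (b 0))

private theorem MainB_monic {r s : ℕ} (b : Fin (r + 1) → ℤ) {f : Fin s → ℤ[X]}
    (hf : ∀ j, (f j).Monic ∧ 0 < (f j).natDegree) (i : Fin ((r + 1) + s)) :
    (MainB_F b f i).Monic ∧ 0 < (MainB_F b f i).natDegree := by
  refine Fin.addCases (fun l => ?_) (fun j => ?_) i
  · unfold MainB_F
    rw [Fin.append_left]
    exact ⟨monic_X_sub_C _, by rw [natDegree_X_sub_C]; exact one_pos⟩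
  · unfold MainB_F
    rw [Fin.append_right]
    refine ⟨(hf j).1.comp_X_add_C _, ?_⟩
    rw [natDegree_comp, natDegree_X_add_C, mul_one]
    exact (hf j).2

private theorem MainB_sqf {r s : ℕ} (b : Fin (r + 1) → ℤ) {f : Fin s → ℤ[X]}
    (hsq : Squarefree (((∏ l, (X - C (b l))) * ∏ j, f j).map (Int.castRingHom ℚ))) :
    Squarefree ((∏ i, MainB_F b f i).map (Int.castRingHom ℚ)) := by
  have h1 : ∏ i, MainB_F b f i = ((∏ l, (X - C (b l))) * ∏ j, f j).comp (X + C (b 0)) := by
    unfold MainB_F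
    rw [Fin.prod_univ_add, mul_comp, prod_comp, prod_comp]
    congr 1
    · refine Finset.prod_congr rfl fun l _ => ?_
      rw [Fin.append_left, sub_comp, X_comp, C_comp, C_sub]
      ring
    · refine Finset.prod_congr rfl fun j _ => ?_
      rw [Fin.append_right]
  rw [h1, Polynomial.map_comp]
  have h2 : (((∏ l, (X - C (b l))) * ∏ j, f j).map (Int.castRingHom ℚ)).Separable :=
    PerfectField.separable_iff_squarefree.2 hsq
  have h3 : ∀ q : ℚ[X], derivative (((((∏ l, (X - C (b l))) * ∏ j, f j).map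
      (Int.castRingHom ℚ))).comp ((X + C (b 0)).map (Int.castRingHom ℚ))) =
      (derivative ((((∏ l, (X - C (b l))) * ∏ j, f j).map (Int.castRingHom ℚ)))).comp
        ((X + C (b 0)).map (Int.castRingHom ℚ)) := by
    intro _
    rw [derivative_comp]
    have : derivative ((X + C (b 0) : ℤ[X]).map (Int.castRingHom ℚ)) = 1 := by
      rw [Polynomial.map_add, map_X, map_C, derivative_add, derivative_X, derivative_C, add_zero]
    rw [this, one_mul]
  apply PerfectField.separable_iff_squarefree.1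
  unfold Separable
  rw [h3 0]
  exact IsCoprime.map h2 (compRingHom ((X + C (b 0) : ℤ[X]).map (Int.castRingHom ℚ)))

private theorem MainB_prod {g : ℕ} (a : Fin (g + 1) → ℤ) {K : Type} [Field K] [CharZero K] (x : K) :
    ∏ i, (x - a i) = aeval x (∏ i, (X - C ((a i : ℤ) : ℚ)) : ℚ[X]) := by
  simp [map_prod]

private theorem MainB_alg {g : ℕ} (a : Fin (g + 1) → ℤ) {K : Type} [Field K] [CharZero K] {x : K}
    (h : IsAlgebraic ℚ (∏ i, (x - a i))) : IsAlgebraic ℚ x := by
  rw [MainB_prod] at h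
  have hm : (∏ i, (X - C ((a i : ℤ) : ℚ)) : ℚ[X]).Monic :=
    monic_prod_of_monic _ _ fun i _ => monic_X_sub_C _
  refine IsAlgebraic.of_aeval _ ?_ ?_ h
  · rw [natDegree_prod_of_monic _ _ fun i _ => monic_X_sub_C _,
      Finset.sum_congr rfl fun i _ => natDegree_X_sub_C _]
    simp
  · rw [hm.leadingCoeff]
    exact one_mem _

private theorem MainB_try {g r : ℕ} {a : Fin (g + 1) → ℤ} {b : Fin (r + 1) → ℤ} {c : ℤ}
    {K : Type} [Field K] [CharZero K] {x w : K} (hx : Transcendental ℚ x)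
    (hw : (c : K) * (∏ i, (x - a i)) * ∏ l, (w - b l) = 1) : Transcendental ℚ w := by
  intro h
  apply hx
  apply MainB_alg a
  have h1 : IsAlgebraic ℚ ((c : K) * ∏ l, (w - b l)) := by
    have h2 : (c : K) * ∏ l, (w - b l) =
        aeval w (C (c : ℚ) * ∏ l, (X - C ((b l : ℤ) : ℚ)) : ℚ[X]) := by
      rw [MainB_prod]
      simp
    rw [h2]
    rw [aeval_eq_sum_range]
    exact isAlgebraic_iff_isIntegral.2
      (IsIntegral.sum _ fun i _ => ((isAlgebraic_iff_isIntegral.1 h).pow i).smul _)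
  have h3 : ∏ i, (x - a i) = ((c : K) * ∏ l, (w - b l))⁻¹ := by
    apply eq_inv_of_mul_eq_one_left
    rw [← hw]
    ring
  rw [h3]
  exact h1.inv

private theorem MainB_adj {K : Type} [Field K] [CharZero K] (w : K) (n : ℤ) :
    IntermediateField.adjoin ℚ {w - n} = IntermediateField.adjoin ℚ {w} := by
  have h : ∀ (y : K) (k : ℤ), IntermediateField.adjoin ℚ {y - k} ≤
      IntermediateField.adjoin ℚ {y} := by
    intro y k
    rw [IntermediateField.adjoin_le_iff, Set.singleton_subset_iff]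
    exact sub_mem (IntermediateField.mem_adjoin_simple_self ℚ y)
      (intCast_mem _ k)
  apply le_antisymm (h w n)
  have h1 := h (w - n) (-n)
  have h2 : w - (n : K) - ((-n : ℤ) : K) = w := by
    push_cast
    ring
  rwa [h2] at h1

private theorem MainB_adj2 {K : Type} [Field K] [CharZero K] {x w : K} (n : ℤ)
    (htop : IntermediateField.adjoin ℚ {x, w} = ⊤) :
    IntermediateField.adjoin ℚ {x, w - n} = ⊤ := by
  rw [eq_top_iff, ← htop, IntermediateField.adjoin_le_iff]
  have hx : x ∈ IntermediateField.adjoin ℚ {x, w - (n : K)} :=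
    IntermediateField.subset_adjoin _ _ (Set.mem_insert _ _)
  have hw : w - (n : K) ∈ IntermediateField.adjoin ℚ {x, w - (n : K)} :=
    IntermediateField.subset_adjoin _ _ (Set.mem_insert_of_mem _ rfl)
  rintro y (rfl | hy)
  · exact hx
  · rw [Set.mem_singleton_iff] at hy
    rw [hy]
    have h1 := add_mem hw (intCast_mem (IntermediateField.adjoin ℚ {x, w - (n : K)}) n)
    simpa using h1

private theorem MainB_back {K : Type} [Field K] {ι : Type} {t v : ι → Kˣ}
    {z : ISG.K2Q K}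
    (h : eK K z ∈ Submodule.span ℚ (Set.range fun i : ι => Helper11.sy (t i) (v i))) :
    z ∈ Submodule.span ℚ (Set.range fun i : ι => sb (t i) (v i)) := by
  have h1 : (Submodule.span ℚ (Set.range fun i : ι => sb (t i) (v i))).map
      (eK K).toLinearMap =
        Submodule.span ℚ (Set.range fun i : ι => Helper11.sy (t i) (v i)) := by
    rw [Submodule.map_span, ← Set.range_comp]
    rfl
  rw [← h1] at h
  obtain ⟨y, hy, hyz⟩ := h
  have h2 : y = z := (eK K).injective hyz
  rwa [← h2]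

private theorem MainB_div {K : Type} [Field K] (a b t : Kˣ) :
    sb (a / b) t = sb a t - sb b t := by
  apply (eK K).injective
  rw [map_sub, eK_sb, eK_sb, eK_sb, sub_eq_add_neg, Helper11.sy_anti (a / b) t,
    Helper11.sy_anti a t, neg_eq_iff_eq_neg, neg_add, neg_neg, neg_neg]
  have h1 : Helper11.sy t a = Helper11.sy t (a / b) + Helper11.sy t b := by
    rw [← Helper11.sy_mul_right, div_mul_cancel]
  rw [h1, add_assoc, Helper11.sy_anti b t]
  abel

theorem main {g r s : ℕ} (hg : 0 < g) (hr : 0 < r) (a : Fin (g + 1) → ℤ)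
    (ha : Function.Injective a) (b : Fin (r + 1) → ℤ) (hb : Function.Injective b)
    (f : Fin s → ℤ[X]) (hf : ∀ j, (f j).Monic ∧ 0 < (f j).natDegree)
    (hsq : Squarefree (((∏ l, (X - C (b l))) * ∏ j, f j).map (Int.castRingHom ℚ))) :
    ∃ C₀ : ℕ, ∀ c : ℤ, (∃ p q : ℕ, p ≠ q ∧ C₀ < p ∧ C₀ < q ∧ ETI.GoodPrime g c p ∧
        ETI.GoodPrime g c q) →
      SmoothCurve a b c ∧
      ∀ (K : Type) [Field K] [CharZero K] (x w : K), Transcendental ℚ x →
        IntermediateField.adjoin ℚ {x, w} = ⊤ →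
        (c : K) * (∏ i, (x - a i)) * ∏ l, (w - b l) = 1 →
        ∃ (t : Fin g → Kˣ) (u : Fin r → Kˣ),
          (∀ i, (t i : K) = (x - a i.succ) / (x - a 0)) ∧
          (∀ l, (u l : K) = (w - b l.succ) / (w - b 0)) ∧
          wSlices w b f ⊓ unramifiedK2 K =
            Submodule.span ℚ (Set.range fun q : Fin r × Fin g => sb (u q.1) (t q.2)) ∧
          (∀ l i, sb (u l) (t i) ∈ integralK2 K) ∧
          IndependentRegulators fun q : Fin r × Fin g => sb (u q.1) (t q.2) := by
  obtain ⟨C₁, hC⟩ := exists_prm ha (fun l => b l - b 0) (fun i => (MainB_monic b hf i).1)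
    (fun i => (MainB_monic b hf i).2) (MainB_sqf b hsq)
  refine ⟨400 * ((g + 1) + (r + 1)) ^ 3 + g + r + 5 + C₁, ?_⟩
  rintro c ⟨p, q, hpq, hCp, hCq, ⟨hp, hcp⟩, ⟨hq, hcq⟩⟩
  have := Fact.mk hp
  have := Fact.mk hq
  have hcopr : ∀ l : ℕ, l.Prime → g + 1 < l → (g + 1).Coprime l := by
    intro l hl h
    rw [Nat.coprime_comm, hl.coprime_iff_not_dvd]
    exact fun h2 => absurd (Nat.le_of_dvd (Nat.succ_pos g) h2) (by omega)
  have hval : ∀ l : ℕ, (g + 1).Coprime ((l - 1) * padicValInt l c) → padicValInt l c ≠ 0 := by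
    intro l h1 h
    rw [h, mul_zero, Nat.coprime_zero_right] at h1
    omega
  have hν := hval p hcp
  have hc0 : c ≠ 0 := by
    rintro rfl
    exact hν padicValInt.zero
  refine ⟨fun x₀ w₀ h => smooth a b hp hν
    (fun h2 => absurd (Nat.le_of_dvd (Nat.succ_pos g) h2) (by omega))
    (fun h2 => absurd (Nat.le_of_dvd (Nat.succ_pos r) h2) (by omega)) x₀ w₀ h, ?_⟩
  intro K _ _ x w hx htop hw
  have hp₁ : Prm p a (fun l => b l - b 0) c (MainB_F b f) :=
    hC p c (by omega) (Nat.Coprime.mul_right (hcopr p hp (by omega)) hcp.coprime_mul_right_right)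
      hcp.coprime_mul_left_right
  have hp₂ : Prm q a (fun l => b l - b 0) c (MainB_F b f) :=
    hC q c (by omega) (Nat.Coprime.mul_right (hcopr q hq (by omega)) hcq.coprime_mul_right_right)
      hcq.coprime_mul_left_right
  have htw : Transcendental ℚ w := MainB_try hx hw
  have hprod : ∏ l, (w - b l) ≠ 0 := right_ne_zero_of_mul_eq_one hw
  have hw0 : w - b 0 ≠ 0 := (Finset.prod_ne_zero_iff.1 hprod) 0 (Finset.mem_univ _)
  have htv : Transcendental ℚ (w - b 0) := by
    intro h
    apply htw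
    have h1 : IsAlgebraic ℚ ((b 0 : ℤ) : K) := by
      have := isAlgebraic_algebraMap (R := ℚ) (A := K) ((b 0 : ℤ) : ℚ)
      simpa using this
    have h2 := h.add h1
    rwa [sub_add_cancel] at h2
  have hBid : Bid a (fun l => b l - b 0) c x ((Units.mk0 (w - b 0) hw0 : Kˣ) : K) :=
    { inja := ha
      injb := fun i j hij => hb (by simpa using hij)
      c0 := hc0
      trx := hx
      try_ := htv
      top := MainB_adj2 (b 0) htop
      eq := by
        rw [← hw]
        congr 1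
        refine Finset.prod_congr rfl fun l _ => ?_
        rw [Units.val_mk0]
        push_cast
        ring }
  have H : Crv a (fun l => b l - b 0) c x (Units.mk0 (w - b 0) hw0) :=
    ⟨hBid, hg, sub_self _⟩
  have hu : ∀ i, ((ISI.pz (w - b 0) (MainB_F b f i) : Kˣ) : K) =
      aeval (w - (b 0 : K)) (MainB_F b f i) := fun i =>
    ISI.pz_val htv (MainB_monic b hf i).1.ne_zero
  have hF1 : ∀ l, MainB_F b f (Fin.castAdd s l) = X - C (b l - b 0) := by
    intro l
    unfold MainB_F
    rw [Fin.append_left]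
  have hF2 : ∀ j, MainB_F b f (Fin.natAdd (r + 1) j) = (f j).comp (X + C (b 0)) := by
    intro j
    unfold MainB_F
    rw [Fin.append_right]
  have hv1 : ∀ l, aeval (w - (b 0 : K)) (MainB_F b f (Fin.castAdd s l)) = w - b l := by
    intro l
    rw [hF1]
    simp
  have hv2 : ∀ j, aeval (w - (b 0 : K)) (MainB_F b f (Fin.natAdd (r + 1) j)) =
      aeval w (f j) := by
    intro j
    rw [hF2, aeval_comp]
    simp
  refine ⟨xr x a, xr (w - b 0) (fun l => b l - b 0), fun i => ?_, fun l => ?_, ?_, fun l i => ?_, ?_⟩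
  · rw [xr, Units.val_div_eq_div_val, Pool.Agent.ETI.xa_val hx, Pool.Agent.ETI.xa_val hx]
  · rw [xr, Units.val_div_eq_div_val, Pool.Agent.ETI.xa_val htv, Pool.Agent.ETI.xa_val htv]
    push_cast
    congr 1 <;> ring
  · apply le_antisymm
    · rintro z ⟨hz, hzu⟩
      apply MainB_back
      refine H.geo hpq (f := MainB_F b f) (ι := Fin.castAdd s) (Fin.castAdd_injective _ _) hF1
        (fun i => (MainB_monic b hf i).1) hp₁ hp₂
        (u := fun i => ISI.pz (w - b 0) (MainB_F b f i)) hu ?_ (MainB_geom hzu)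
      have hz' : z ∈ Submodule.span ℚ {z | ∃ u h : Kˣ, ((∃ l, (u : K) = w - b l) ∨
          (∃ j, (u : K) = aeval w (f j)) ∨ ((u : K) ∈ IntermediateField.adjoin ℚ {w} ∧
            (h : K) ∈ IntermediateField.adjoin ℚ {w})) ∧ z = sb u h} := hz
      refine MainB_eK (fun u h : Kˣ => (∃ l, (u : K) = w - b l) ∨
        (∃ j, (u : K) = aeval w (f j)) ∨ ((u : K) ∈ IntermediateField.adjoin ℚ {w} ∧
          (h : K) ∈ IntermediateField.adjoin ℚ {w})) _ ?_ hz'
      rintro u h (⟨l, h1⟩ | ⟨j, h1⟩ | ⟨h1, h2⟩)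
      · refine Submodule.mem_sup_left (Submodule.mem_iSup_of_mem (Fin.castAdd s l) ?_)
        have h3 : u = ISI.pz (w - b 0) (MainB_F b f (Fin.castAdd s l)) := by
          apply Units.ext
          rw [hu, hv1, h1]
        rw [h3]
        exact Submodule.subset_span ⟨h, rfl⟩
      · refine Submodule.mem_sup_left (Submodule.mem_iSup_of_mem (Fin.natAdd (r + 1) j) ?_)
        have h3 : u = ISI.pz (w - b 0) (MainB_F b f (Fin.natAdd (r + 1) j)) := by
          apply Units.ext
          rw [hu, hv2, h1]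
        rw [h3]
        exact Submodule.subset_span ⟨h, rfl⟩
      · rw [← MainB_adj w (b 0)] at h1 h2
        exact Submodule.mem_sup_right (MainB_sy htv h1 h2)
    · rw [Submodule.span_le]
      rintro _ ⟨⟨l, i⟩, rfl⟩
      have hint : sb (xr (w - b 0) (fun l => b l - b 0) l) (xr x a i) ∈ integralK2 K := by
        rw [mem_integral, eK_sb]
        exact hBid.int_xr l i
      refine ⟨?_, integral_le K hint⟩
      have h1 : ∀ k, ((Pool.Agent.ETI.xa (w - (b 0 : K)) (fun l => b l - b 0) k : Kˣ) : K) =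
          w - b k := by
        intro k
        rw [Pool.Agent.ETI.xa_val htv]
        push_cast
        ring
      show sb (xr (w - b 0) (fun l => b l - b 0) l) (xr x a i) ∈ wSlices w b f
      rw [xr, MainB_div]
      exact Submodule.sub_mem _
        (Submodule.subset_span ⟨_, _, Or.inl ⟨l.succ, h1 _⟩, rfl⟩)
        (Submodule.subset_span ⟨_, _, Or.inl ⟨0, h1 _⟩, rfl⟩)
  · rw [mem_integral, eK_sb]
    exact hBid.int_xr l i
  · refine hBid.reg ?_
    have hdp : (p : ℤ) ∣ c := by
      by_contra h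
      exact hν (padicValInt.eq_zero_of_not_dvd h)
    have hdq : (q : ℤ) ∣ c := by
      by_contra h
      exact hval q hcq (padicValInt.eq_zero_of_not_dvd h)
    have hcop : IsCoprime (p : ℤ) (q : ℤ) :=
      Nat.isCoprime_iff_coprime.2 ((Nat.coprime_primes hp hq).2 hpq)
    have h1 : (p : ℤ) * q ≤ |c| :=
      Int.le_of_dvd (abs_pos.2 hc0) ((dvd_abs _ _).2 (hcop.mul_dvd hdp hdq))
    refine le_trans ?_ h1
    have h2 : (400 * (((g + 1) + (r + 1) : ℕ) : ℤ) ^ 3) ≤ p := by
      have : 400 * ((g + 1) + (r + 1)) ^ 3 ≤ p := by omega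
      exact_mod_cast this
    have h3 : (400 * (((g + 1) + (r + 1) : ℕ) : ℤ) ^ 3) ≤ q := by
      have : 400 * ((g + 1) + (r + 1)) ^ 3 ≤ q := by omega
      exact_mod_cast this
    rw [pow_two]
    exact mul_le_mul h2 h3 (by positivity) (by positivity)

end Pool.Agent.ETB
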