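import Pool.Agent.ETB.Main
import Pool.Agent.DNS.Fin

/-!
# The theorem, for almost all `c`
-/

open scoped BigOperators Polynomial
open Polynomial

namespace Pool.Agent.ETB

open Pool.Agent.ETU Pool.Agent.CST Pool.Agent.ISG Pool.Agent.CS2

/-- There are two primes `p ≠ q` larger than `C` such that `(p - 1) v_p(c)` and `(q - 1) v_q(c)` are
prime to `g + 1`. -/
def TwoGoodPrimes (g C : ℕ) (c : ℤ) : Prop :=
  ∃ p q : ℕ, p ≠ q ∧ C < p ∧ C < q ∧ ETI.GoodPrime g c p ∧ ETI.GoodPrime g c q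

theorem two_good {g : ℕ} (hg : Even g) (C : ℕ) : DNS.AlmostAll fun c => TwoGoodPrimes g C c := by
  refine (DNS.density (m := g + 1) hg.add_one C).mono ?_
  rintro c ⟨p, q, hp, hq, hpq, hCp, hCq, h1, h2, h3, h4⟩
  refine ⟨p, q, hpq, hCp, hCq, ⟨hp, ?_⟩, ⟨hq, ?_⟩⟩
  · rw [h3, mul_one]
    exact h1
  · rw [h4, mul_one]
    exact h2

theorem main2 {g r s : ℕ} (hg : 0 < g) (hr : 0 < r) (a : Fin (g + 1) → ℤ)
    (ha : Function.Injective a) (b : Fin (r + 1) → ℤ) (hb : Function.Injective b)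
    (f : Fin s → ℤ[X]) (hf : ∀ j, (f j).Monic ∧ 0 < (f j).natDegree)
    (hsq : Squarefree (((∏ l, (X - C (b l))) * ∏ j, f j).map (Int.castRingHom ℚ))) :
    ∃ C₀ : ℕ, (Even g → DNS.AlmostAll fun c => TwoGoodPrimes g C₀ c) ∧
      ∀ c : ℤ, TwoGoodPrimes g C₀ c →
      SmoothCurve a b c ∧
      ∀ (K : Type) [Field K] [CharZero K] (x w : K), Transcendental ℚ x →
        IntermediateField.adjoin ℚ {x, w} = ⊤ →
        (c : K) * (∏ i, (x - a i)) * ∏ l, (w - b l) = 1 →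
        ∃ (t : Fin g → Kˣ) (u : Fin r → Kˣ),
          (∀ i, (t i : K) = (x - a i.succ) / (x - a 0)) ∧
          (∀ l, (u l : K) = (w - b l.succ) / (w - b 0)) ∧
          wSlices w b f ⊓ unramifiedK2 K =
            Submodule.span ℚ (Set.range fun q : Fin r × Fin g => sb (u q.1) (t q.2)) ∧
          (∀ l i, sb (u l) (t i) ∈ integralK2 K) ∧
          IndependentRegulators fun q : Fin r × Fin g => sb (u q.1) (t q.2) := by
  obtain ⟨C₀, h⟩ := main hg hr a ha b hb f hf hsq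
  exact ⟨C₀, fun he => two_good he C₀, fun c hc => h c hc⟩

end Pool.Agent.ETB
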