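import Pool.Agent.ETB.Defs
import Pool.Agent.ETI.Tam

/-!
# Nice points, and the units at good points

`nice_of_large`: a given irreducible `P` prime to `X` and to `D` is nice at all large primes (Bezout relations over `ℚ`).
`nice_mem`: the zeros of a nice `P` are in `F` (Hensel). `good_unit`: at a good point of a relation all `f i` are units,
otherwise `Np f t` would be small there.
-/

open scoped BigOperators Polynomial
open Polynomial

namespace Pool.Agent.ETB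

open Pool.Agent.ETU
open Pool.Agent.ETI (Tm Bd xa xa_val Hf)

private theorem BNic_norm {p : ℕ} [Fact p.Prime] (q : ℚ) : ‖((q : ℚ) : PadicAlgCl p)‖ = ‖(q : ℚ_[p])‖ := by
  have h1 : ((q : ℚ) : PadicAlgCl p) = algebraMap ℚ_[p] (PadicAlgCl p) (q : ℚ_[p]) := by
    rw [map_ratCast]
  rw [h1]
  exact PadicAlgCl.norm_extends p (q : ℚ_[p])

private theorem BNic_coef (q : ℚ[X]) : ∃ C : ℕ, ∀ (p : ℕ) [Fact p.Prime], C < p →
    ∀ i, ‖((q.coeff i : ℚ) : PadicAlgCl p)‖ ≤ 1 := by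
  refine ⟨∑ i ∈ q.support, (q.coeff i).den, fun p _ hp i => ?_⟩
  rw [BNic_norm]
  by_cases hi : i ∈ q.support
  · refine Padic.norm_rat_le_one fun hd => ?_
    have h1 : (q.coeff i).den ≤ ∑ i ∈ q.support, (q.coeff i).den :=
      Finset.single_le_sum (f := fun i => (q.coeff i).den) (fun _ _ => Nat.zero_le _) hi
    have h2 := Nat.le_of_dvd (q.coeff i).den_pos hd
    omega
  · rw [notMem_support_iff.1 hi, Rat.cast_zero, norm_zero]
    exact zero_le_one

private theorem BNic_val {p : ℕ} [Fact p.Prime] {q : ℚ[X]} (hq : ∀ i, ‖((q.coeff i : ℚ) : PadicAlgCl p)‖ ≤ 1)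
    {α : PadicAlgCl p} (hα : ‖α‖ ≤ 1) : ‖aeval α q‖ ≤ 1 := by
  rw [aeval_eq_sum_range]
  refine IsUltrametricDist.norm_sum_le_of_forall_le_of_nonneg zero_le_one fun i _ => ?_
  rw [Algebra.smul_def, eq_ratCast, norm_mul, norm_pow]
  exact mul_le_one₀ (hq i) (by positivity) (pow_le_one₀ (norm_nonneg _) hα)

private theorem BNic_int {p : ℕ} [Fact p.Prime] {P : ℚ[X]} (hP : P.Monic)
    (hq : ∀ i, ‖((P.coeff i : ℚ) : PadicAlgCl p)‖ ≤ 1) {α : PadicAlgCl p} (hα : aeval α P = 0) : ‖α‖ ≤ 1 := by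
  by_contra hc'
  have hc : 1 < ‖α‖ := not_le.1 hc'
  have h0 : 0 < P.natDegree := by
    by_contra h
    have h1 : P = 1 := eq_one_of_monic_natDegree_zero hP (by omega)
    rw [h1, map_one] at hα
    exact one_ne_zero hα
  have h1 : α ^ P.natDegree = -∑ i ∈ Finset.range P.natDegree, ((P.coeff i : ℚ) : PadicAlgCl p) * α ^ i := by
    rw [aeval_eq_sum_range, Finset.sum_range_succ, hP.coeff_natDegree, one_smul] at hα
    simp only [Algebra.smul_def, eq_ratCast] at hα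
    linear_combination hα
  have h2 : ‖∑ i ∈ Finset.range P.natDegree, ((P.coeff i : ℚ) : PadicAlgCl p) * α ^ i‖ ≤
      ‖α‖ ^ (P.natDegree - 1) := by
    refine IsUltrametricDist.norm_sum_le_of_forall_le_of_nonneg (by positivity) fun i hi => ?_
    rw [norm_mul, norm_pow]
    have hi' := Finset.mem_range.1 hi
    calc ‖((P.coeff i : ℚ) : PadicAlgCl p)‖ * ‖α‖ ^ i ≤ 1 * ‖α‖ ^ (P.natDegree - 1) :=
          mul_le_mul (hq i) (pow_le_pow_right₀ hc.le (by omega)) (by positivity) zero_le_one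
      _ = ‖α‖ ^ (P.natDegree - 1) := one_mul _
  have h3 : ‖α‖ ^ P.natDegree ≤ ‖α‖ ^ (P.natDegree - 1) := by
    rw [← norm_pow, h1, norm_neg]
    exact h2
  have h4 : ‖α‖ ^ (P.natDegree - 1) < ‖α‖ ^ P.natDegree := pow_lt_pow_right₀ hc (by omega)
  linarith

private theorem BNic_cop {P Q : ℚ[X]} (h : IsCoprime P Q) : ∃ C : ℕ, ∀ (p : ℕ) [Fact p.Prime], C < p →
    ∀ α : PadicAlgCl p, ‖α‖ ≤ 1 → aeval α P = 0 → ‖aeval α Q‖ = 1 := by
  obtain ⟨U, V, hUV⟩ := h
  obtain ⟨C1, h1⟩ := BNic_coef Q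
  obtain ⟨C2, h2⟩ := BNic_coef V
  refine ⟨max C1 C2, fun p _ hp α hα hP => ?_⟩
  have h3 := BNic_val (h1 p (lt_of_le_of_lt (le_max_left _ _) hp)) hα
  have h4 := BNic_val (h2 p (lt_of_le_of_lt (le_max_right _ _) hp)) hα
  have h5 : aeval α V * aeval α Q = 1 := by
    have h6 := congrArg (aeval α) hUV
    rw [map_add, map_mul, map_mul, hP, mul_zero, zero_add, map_one] at h6
    exact h6
  have h6 : ‖aeval α V‖ * ‖aeval α Q‖ = 1 := by rw [← norm_mul, h5, norm_one]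
  refine le_antisymm h3 ?_
  nlinarith [norm_nonneg (aeval α V), norm_nonneg (aeval α Q)]

section aux

variable {r : ℕ}

/-- the valuation ring -/
private def BNic_gO {p : ℕ} {M : Type} [NormedField M] (hna : NA p M) : Subring M where
  carrier := {t | ‖t‖ ≤ 1}
  mul_mem' := by
    intro a b ha hb
    simp only [Set.mem_ofPred_eq, norm_mul] at *
    exact mul_le_one₀ ha (norm_nonneg _) hb
  one_mem' := by simp
  add_mem' := by
    intro a b ha hb
    simp only [Set.mem_ofPred_eq] at *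
    exact (hna.na a b).trans (max_le ha hb)
  zero_mem' := by simp
  neg_mem' := by
    intro a ha
    simp only [Set.mem_ofPred_eq, norm_neg] at *
    exact ha

private theorem BNic_g_sub {M : Type} [NormedField M] (O : Subring M) (x : O) (P : ℤ[X]) :
    ((aeval x P : O) : M) = aeval (x : M) P := by
  have h := Polynomial.hom_eval₂ P (Int.castRingHom O) O.subtype x
  have h1 : O.subtype.comp (Int.castRingHom O) = Int.castRingHom M := RingHom.ext_int _ _
  rw [h1] at h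
  rw [Polynomial.aeval_def, Polynomial.aeval_def]
  exact h

private theorem BNic_g_int {p : ℕ} {M : Type} [NormedField M] (hna : NA p M) {α : M} (hα : ‖α‖ ≤ 1)
    (P : ℤ[X]) : ‖aeval α P‖ ≤ 1 := by
  have h := BNic_g_sub (BNic_gO hna) ⟨α, hα⟩ P
  have h2 : ‖((aeval (⟨α, hα⟩ : BNic_gO hna) P : BNic_gO hna) : M)‖ ≤ 1 := (aeval (⟨α, hα⟩ : BNic_gO hna) P).2
  rw [h] at h2
  exact h2

private theorem BNic_g_sum {p : ℕ} {M : Type} [NormedField M] (hna : NA p M) {ι : Type} (s : Finset ι)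
    (g : ι → M) (h : ∀ k ∈ s, ‖g k‖ < 1) : ‖∑ k ∈ s, g k‖ < 1 := by
  refine Finset.sum_induction g (fun t => ‖t‖ < 1) (fun a b ha hb => ?_) (by simp) h
  exact (hna.na a b).trans_lt (max_lt ha hb)

private theorem BNic_g_prod_lt {M : Type} [NormedField M] {ι : Type} [DecidableEq ι] (s : Finset ι)
    (g : ι → M) (h : ∀ k ∈ s, ‖g k‖ ≤ 1) {i : ι} (hi : i ∈ s) (hlt : ‖g i‖ < 1) :
    ‖∏ k ∈ s, g k‖ < 1 := by
  rw [← Finset.mul_prod_erase s g hi, norm_mul]
  have h1 : ‖∏ k ∈ s.erase i, g k‖ ≤ 1 := by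
    rw [norm_prod]
    exact Finset.prod_le_one (fun _ _ => norm_nonneg _)
      (fun k hk => h k (Finset.mem_of_mem_erase hk))
  exact mul_lt_one_of_nonneg_of_lt_one_left (norm_nonneg _) hlt h1

private theorem BNic_g_prod_ge {M : Type} [NormedField M] {ι : Type} (s : Finset ι)
    (g : ι → M) (h : ∀ k ∈ s, ‖g k‖ ≤ 1) (hlt : ‖∏ k ∈ s, g k‖ < 1) : ∃ i ∈ s, ‖g i‖ < 1 := by
  by_contra hc
  push Not at hc
  have h1 : ‖∏ k ∈ s, g k‖ = 1 := by
    rw [norm_prod]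
    exact Finset.prod_eq_one fun k hk => le_antisymm (h k hk) (hc k hk)
  rw [h1] at hlt
  exact lt_irrefl _ hlt

private theorem BNic_g_Ap {M : Type} [NormedField M] (f : Fin r → ℤ[X]) (a : Fin r → ℤ) (α : M) :
    aeval α (Ap f a) = ∏ i, (aeval α (f i)) ^ (a i).toNat := by
  unfold Ap
  rw [map_prod]
  exact Finset.prod_congr rfl fun i _ => by rw [map_pow]

private theorem BNic_g_lt {p : ℕ} {M : Type} [NormedField M] (hna : NA p M) (f : Fin r → ℤ[X])
    (a : Fin r → ℤ) {α : M} (hα : ‖α‖ ≤ 1) {i : Fin r} (hi : ‖aeval α (f i)‖ < 1) (hai : 0 < a i) :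
    ‖aeval α (Ap f a)‖ < 1 := by
  rw [BNic_g_Ap]
  refine BNic_g_prod_lt _ _ (fun k _ => ?_) (Finset.mem_univ i) ?_
  · rw [norm_pow]
    exact pow_le_one₀ (norm_nonneg _) (BNic_g_int hna hα _)
  · rw [norm_pow]
    exact pow_lt_one₀ (norm_nonneg _) hi (by omega)

private theorem BNic_g_ge {p : ℕ} {M : Type} [NormedField M] (hna : NA p M) (f : Fin r → ℤ[X])
    (a : Fin r → ℤ) {α : M} (hα : ‖α‖ ≤ 1) (h : ‖aeval α (Ap f a)‖ < 1) :
    ∃ j, 0 < a j ∧ ‖aeval α (f j)‖ < 1 := by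
  rw [BNic_g_Ap] at h
  obtain ⟨j, _, hj⟩ := BNic_g_prod_ge _ _ (fun k _ => by
    rw [norm_pow]
    exact pow_le_one₀ (norm_nonneg _) (BNic_g_int hna hα _)) h
  rw [norm_pow] at hj
  have hj0 : (a j).toNat ≠ 0 := by
    intro h0
    rw [h0, pow_zero] at hj
    exact lt_irrefl _ hj
  refine ⟨j, by omega, ?_⟩
  by_contra hc
  push Not at hc
  exact absurd hj (not_lt.2 (one_le_pow₀ hc))

private theorem BNic_g_pw {x y : ℝ} {n : ℕ} (hn : 0 < n) (h : x ^ n = y ^ n) (hy : y < 1)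
    (hy0 : 0 ≤ y) : x < 1 := by
  have h1 : y ^ n < 1 := pow_lt_one₀ hy0 hy hn.ne'
  by_contra hc
  push Not at hc
  have := one_le_pow₀ hc (n := n)
  linarith

private theorem BNic_g_one {p : ℕ} {M : Type} [NormedField M] (hna : NA p M) (f : Fin r → ℤ[X])
    (a : Fin r → ℤ) {α : M} {n : ℕ} (hn : 0 < n) (hα : ‖α‖ ≤ 1)
    (hrel : (aeval α (Ap f a)) ^ n = (aeval α (Ap f (-a))) ^ n) (hN : ‖aeval α (Np f a)‖ = 1)
    (i : Fin r) : ‖aeval α (f i)‖ = 1 := by
  classical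
  have hle : ∀ k, ‖aeval α (f k)‖ ≤ 1 := fun k => BNic_g_int hna hα _
  by_contra hne
  have hi : ‖aeval α (f i)‖ < 1 := lt_of_le_of_ne (hle i) hne
  have hreln : ‖aeval α (Ap f a)‖ ^ n = ‖aeval α (Ap f (-a))‖ ^ n := by
    rw [← norm_pow, ← norm_pow, hrel]
  have hj : a i ≠ 0 → ∃ j, j ≠ i ∧ ‖aeval α (f j)‖ < 1 := by
    intro h0
    rcases lt_or_gt_of_ne h0 with h1 | h1
    · have h2 : ‖aeval α (Ap f (-a))‖ < 1 := BNic_g_lt hna f (-a) hα hi (by simpa using h1)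
      have h3 : ‖aeval α (Ap f a)‖ < 1 := BNic_g_pw hn hreln h2 (norm_nonneg _)
      obtain ⟨j, hj1, hj2⟩ := BNic_g_ge hna f a hα h3
      exact ⟨j, by rintro rfl; omega, hj2⟩
    · have h2 : ‖aeval α (Ap f a)‖ < 1 := BNic_g_lt hna f a hα hi h1
      have h3 : ‖aeval α (Ap f (-a))‖ < 1 := BNic_g_pw hn hreln.symm h2 (norm_nonneg _)
      obtain ⟨j, hj1, hj2⟩ := BNic_g_ge hna f (-a) hα h3
      refine ⟨j, ?_, hj2⟩
      rintro rfl
      simp only [Pi.neg_apply] at hj1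
      omega
  have hlt : ‖aeval α (Np f a)‖ < 1 := by
    unfold Np
    rw [map_sum]
    refine BNic_g_sum hna _ _ fun k _ => ?_
    rw [map_mul, map_mul, map_prod]
    by_cases hk : k = i
    · subst hk
      by_cases h0 : a k = 0
      · rw [h0]
        simp
      · obtain ⟨j, hj1, hj2⟩ := hj h0
        have h1 : ‖∏ j ∈ Finset.univ.erase k, aeval α (f j)‖ < 1 :=
          BNic_g_prod_lt _ _ (fun k _ => hle k) (Finset.mem_erase.2 ⟨hj1, Finset.mem_univ j⟩) hj2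
        have h2 : ‖aeval α (C (a k) : ℤ[X]) * aeval α (derivative (f k))‖ ≤ 1 := by
          rw [← map_mul]
          exact BNic_g_int hna hα _
        rw [norm_mul]
        exact mul_lt_one_of_nonneg_of_lt_one_right h2 (norm_nonneg _) h1
    · have h1 : ‖∏ j ∈ Finset.univ.erase k, aeval α (f j)‖ < 1 :=
        BNic_g_prod_lt _ _ (fun k _ => hle k) (Finset.mem_erase.2 ⟨fun h => hk h.symm, Finset.mem_univ i⟩) hi
      have h2 : ‖aeval α (C (a k) : ℤ[X]) * aeval α (derivative (f k))‖ ≤ 1 := by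
        rw [← map_mul]
        exact BNic_g_int hna hα _
      rw [norm_mul]
      exact mul_lt_one_of_nonneg_of_lt_one_right h2 (norm_nonneg _) h1
  rw [hN] at hlt
  exact lt_irrefl _ hlt

private theorem BNic_g_na (p : ℕ) [Fact p.Prime] : NA p (PadicAlgCl p) where
  na := PadicAlgCl.isNonarchimedean p
  pp := by
    have h1 : ((p : ℕ) : PadicAlgCl p) = ((p : ℚ_[p]) : PadicAlgCl p) :=
      (map_natCast (algebraMap ℚ_[p] (PadicAlgCl p)) p).symm
    rw [h1, PadicAlgCl.norm_extends]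
    exact Padic.norm_p_lt_one

end aux

theorem nice_of_large {r : ℕ} (b : Fin (r + 1) → ℤ) {P : ℚ[X]} (hP : P.Monic) (hP' : Irreducible P)
    (hX : ¬ P ∣ X) (hD : ¬ P ∣ (Dp b).map (Int.castRingHom ℚ)) :
    ∃ C : ℕ, ∀ (p : ℕ) [Fact p.Prime], C < p → Nice p b P := by
  obtain ⟨C0, h0⟩ := BNic_coef P
  obtain ⟨C1, h1⟩ := BNic_cop (hP'.coprime_iff_not_dvd.2 hX)
  obtain ⟨C2, h2⟩ := BNic_cop (hP'.coprime_iff_not_dvd.2 hD)
  obtain ⟨C3, h3⟩ := BNic_cop hP'.separable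
  refine ⟨C0 + C1 + C2 + C3, fun p _ hp => ⟨h0 p (by omega), fun α hα => ?_⟩⟩
  have hi := BNic_int hP (h0 p (by omega)) hα
  have e1 := h1 p (by omega) α hi hα
  have e2 := h2 p (by omega) α hi hα
  have e3 := h3 p (by omega) α hi hα
  rw [aeval_X] at e1
  refine ⟨e1, ?_, e3⟩
  rw [← e2]
  congr 1
  exact (aeval_map_algebraMap ℚ α (Dp b)).symm

theorem nice_mem {p m : ℕ} [Fact p.Prime] {F : IntermediateField ℚ_[p] (PadicAlgCl p)}
    (hF : Tm p m F) {r : ℕ} {b : Fin (r + 1) → ℤ} {P : ℚ[X]} (hP : Nice p b P)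
    {α : PadicAlgCl p} (hα : aeval α P = 0) : α ∈ F := by
  obtain ⟨hc, hr⟩ := hP
  obtain ⟨h1, _, h3⟩ := hr α hα
  refine hF.hens (P.map (algebraMap ℚ (PadicAlgCl p))) (fun i => ?_) (fun i => ?_) α ?_ h1.le ?_
  · rw [coeff_map]
    exact SubfieldClass.ratCast_mem F (P.coeff i)
  · rw [coeff_map]
    exact hc i
  · rw [IsRoot.def, eval_map, ← aeval_def]
    exact hα
  · rw [derivative_map, eval_map, ← aeval_def]
    exact h3

theorem good_unit {p : ℕ} [Fact p.Prime] {s : ℕ} (f : Fin s → ℤ[X]) (t : Fin s → ℤ)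
    {α : PadicAlgCl p} {n : ℕ} (hn : 0 < n)
    (hrel : (aeval α (Ap f t)) ^ n = (aeval α (Ap f (-t))) ^ n) (hg : Good f t α) (i : Fin s) :
    ‖aeval α (f i)‖ = 1 :=
  BNic_g_one (BNic_g_na p) f t hn hg.1.le hrel hg.2 i

end Pool.Agent.ETB
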