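import Pool.Agent.ETB.CvA
import Pool.Agent.CST.Fin

/-!
# MODULE ETB-PlA : the places at infinity

`O` is a place, so `ℚ ⊂ O` and nonzero rational numbers are units. If `y` has a pole, all `y - b l` have poles with `(y - b l)/y → 1`, so
`∏ (x - a i)` is small, `x` is integral and exactly one `x - a i` is small; the others are units. `Bid.at_b` is the same for the other
coordinate (`Bid.symm`). `exists_b`, `exists_a`: there is a place (`exists_zero` of CST/Fin.lean, applied to `y - b l`, which is transcendental).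
-/

open scoped BigOperators Polynomial
open Polynomial

namespace Pool.Agent.ETB

open Pool.Agent.ETU Pool.Agent.CST Pool.Agent.Helper11 Pool.Agent.ISI
open Pool.Agent.ETI (Tm Bd xa xa_val Hf)

section aux

variable {K : Type} [Field K] [CharZero K] {O : ValuationSubring K}

private theorem plA_int (hO : IsPl O) {z : ℤ} (hz : z ≠ 0) : O.valuation (z : K) = 1 := by
  have h1 : O.valuation (z : K) ≤ 1 := (O.valuation_le_one_iff _).2 (intCast_mem O z)
  have h2 : O.valuation ((z : K)⁻¹) ≤ 1 := by
    rw [O.valuation_le_one_iff]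
    have h5 := hO.2 ((z : ℚ)⁻¹)
    rwa [Rat.cast_inv, Rat.cast_intCast] at h5
  have h3 : O.valuation (z : K) * O.valuation ((z : K)⁻¹) = 1 := by
    rw [← map_mul, mul_inv_cancel₀ (Int.cast_ne_zero.2 hz), map_one]
  refine le_antisymm h1 ?_
  rw [← h3]
  exact mul_le_of_le_one_right' h2

private theorem plA_int_le (O : ValuationSubring K) (z : ℤ) : O.valuation (z : K) ≤ 1 :=
  (O.valuation_le_one_iff _).2 (intCast_mem O z)

private theorem plA_big {y : K} (hy : 1 < O.valuation y) (z : ℤ) :
    O.valuation (y - z) = O.valuation y :=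
  Valuation.map_sub_eq_of_lt_left _ ((plA_int_le O z).trans_lt hy)

private theorem plA_oth (hO : IsPl O) {x : K} {s t : ℤ} (hst : s ≠ t)
    (hx : O.valuation (x - s) < 1) : O.valuation (x - t) = 1 := by
  have h1 : O.valuation ((s - t : ℤ) : K) = 1 := plA_int hO (sub_ne_zero.2 hst)
  have h2 : x - t = (x - s) + ((s - t : ℤ) : K) := by
    push_cast
    ring
  rw [h2, Valuation.map_add_eq_of_lt_right _ (by rw [h1]; exact hx), h1]

end aux

theorem Bid.over {g r : ℕ} {a : Fin (g + 1) → ℤ} {b : Fin (r + 1) → ℤ} {c : ℤ} {K : Type} [Field K]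
    [CharZero K] {x y : K} (H : Bid a b c x y) {O : ValuationSubring K} (hO : IsPl O)
    (hy : 1 < O.valuation y) : ∃ i, O.valuation (x - a i) < 1 := by
  by_contra hcon
  push Not at hcon
  have h4 := congrArg O.valuation H.eq
  rw [map_mul, map_mul, map_one, plA_int hO H.c0, one_mul, map_prod, map_prod,
    Finset.prod_congr rfl fun l _ => plA_big hy (b l), Finset.prod_const, Finset.card_univ,
    Fintype.card_fin] at h4
  have h5 : 1 ≤ ∏ i, O.valuation (x - a i) := Finset.one_le_prod' fun i _ => hcon i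
  have h6 : 1 < O.valuation y ^ (r + 1) := one_lt_pow₀ hy (Nat.succ_ne_zero r)
  exact absurd h4 (h6.trans_le (le_mul_of_one_le_left' h5)).ne'

/-- the place over `x = a i` -/
theorem Bid.at_a {g r : ℕ} {a : Fin (g + 1) → ℤ} {b : Fin (r + 1) → ℤ} {c : ℤ} {K : Type} [Field K]
    [CharZero K] {x y : K} (H : Bid a b c x y) {O : ValuationSubring K} (hO : IsPl O)
    {i : Fin (g + 1)} (hx : O.valuation (x - a i) < 1) :
    1 < O.valuation y ∧ (∀ k, k ≠ i → O.valuation (x - a k) = 1) ∧
      (∀ l, O.valuation ((y - b l) / y - 1) < 1) ∧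
      O.valuation (x - a i) * O.valuation y ^ (r + 1) = 1 := by
  have h1 : ∀ k, k ≠ i → O.valuation (x - a k) = 1 := fun k hk =>
    plA_oth hO (fun h => hk (H.inja h).symm) hx
  have h2 : ∏ k, O.valuation (x - a k) = O.valuation (x - a i) := by
    rw [Finset.prod_eq_single i (fun k _ hk => h1 k hk) (fun h => absurd (Finset.mem_univ i) h)]
  have h3 := congrArg O.valuation H.eq
  rw [map_mul, map_mul, map_one, plA_int hO H.c0, one_mul, map_prod, map_prod, h2] at h3
  have h4 : 1 < O.valuation y := by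
    by_contra hy
    rw [not_lt, O.valuation_le_one_iff] at hy
    have h5 : ∏ l, O.valuation (y - b l) ≤ 1 := Finset.prod_le_one' fun l _ =>
      (O.valuation_le_one_iff _).2 (sub_mem hy (intCast_mem O _))
    have h6 : O.valuation (x - a i) * ∏ l, O.valuation (y - b l) < 1 :=
      lt_of_le_of_lt (mul_le_of_le_one_right' h5) hx
    exact absurd h3 h6.ne
  refine ⟨h4, h1, fun l => ?_, ?_⟩
  · have hy0 : y ≠ 0 := by
      rintro rfl
      rw [map_zero] at h4
      exact absurd h4 (not_lt.2 zero_le_one)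
    have h7 : (y - b l) / y - 1 = -((b l : K) / y) := by
      field_simp
      ring
    rw [h7, Valuation.map_neg, map_div₀]
    exact (div_lt_one₀ (zero_lt_one.trans h4)).2 ((plA_int_le O (b l)).trans_lt h4)
  · rw [Finset.prod_congr rfl fun l _ => plA_big h4 (b l), Finset.prod_const, Finset.card_univ,
      Fintype.card_fin] at h3
    exact h3

/-- the place over `y = b l` -/
theorem Bid.at_b {g r : ℕ} {a : Fin (g + 1) → ℤ} {b : Fin (r + 1) → ℤ} {c : ℤ} {K : Type} [Field K]
    [CharZero K] {x y : K} (H : Bid a b c x y) {O : ValuationSubring K} (hO : IsPl O)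
    {l : Fin (r + 1)} (hy : O.valuation (y - b l) < 1) :
    1 < O.valuation x ∧ (∀ k, k ≠ l → O.valuation (y - b k) = 1) ∧
      (∀ i, O.valuation ((x - a i) / x - 1) < 1) ∧
      O.valuation (y - b l) * O.valuation x ^ (g + 1) = 1 := H.symm.at_a hO hy

theorem Bid.exists_b {g r : ℕ} {a : Fin (g + 1) → ℤ} {b : Fin (r + 1) → ℤ} {c : ℤ} {K : Type}
    [Field K] [CharZero K] {x y : K} (H : Bid a b c x y) (l : Fin (r + 1)) :
    ∃ O : ValuationSubring K, IsPl O ∧ O.valuation (y - b l) < 1 := by
  have h1 : Transcendental ℚ (y - b l) := by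
    intro h
    refine H.try_ ?_
    have h2 : IsAlgebraic ℚ ((b l : ℤ) : K) := by
      have h3 := isAlgebraic_algebraMap (R := ℚ) (A := K) (b l : ℚ)
      rwa [eq_ratCast, Rat.cast_intCast] at h3
    have h4 := h.add h2
    rwa [sub_add_cancel] at h4
  have h2 : IntermediateField.adjoin ℚ {y - (b l : K)} = IntermediateField.adjoin ℚ {y} := by
    apply le_antisymm
    · rw [IntermediateField.adjoin_le_iff, Set.singleton_subset_iff]
      exact sub_mem (IntermediateField.subset_adjoin _ _ rfl) (intCast_mem _ _)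
    · rw [IntermediateField.adjoin_le_iff, Set.singleton_subset_iff]
      have h3 : y - (b l : K) ∈ IntermediateField.adjoin ℚ {y - (b l : K)} :=
        IntermediateField.subset_adjoin _ _ rfl
      have h4 := add_mem h3 (intCast_mem (IntermediateField.adjoin ℚ {y - (b l : K)}) (b l))
      rwa [sub_add_cancel] at h4
  have h3 : FiniteDimensional (IntermediateField.adjoin ℚ {y - (b l : K)}) K := by
    rw [h2]
    exact H.fin
  exact exists_zero h1 h3

/-- every place is of one of the three kinds -/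
theorem Bid.cases {g r : ℕ} {a : Fin (g + 1) → ℤ} {b : Fin (r + 1) → ℤ} {c : ℤ} {K : Type}
    [Field K] [CharZero K] {x y : K} (H : Bid a b c x y) {O : ValuationSubring K} (hO : IsPl O) :
    (∃ i, O.valuation (x - a i) < 1) ∨ (∃ l, O.valuation (y - b l) < 1) ∨
      (x ∈ O ∧ y ∈ O ∧ (∀ i, O.valuation (x - a i) = 1) ∧ (∀ l, O.valuation (y - b l) = 1) ∧
        O.valuation (aeval y (Dp b)) = 1) := by
  rcases lt_or_ge 1 (O.valuation y) with h1 | h1
  · exact Or.inl (H.over hO h1)
  rcases lt_or_ge 1 (O.valuation x) with h2 | h2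
  · exact Or.inr (Or.inl (H.symm.over hO h2))
  rw [O.valuation_le_one_iff] at h1 h2
  obtain ⟨h3, h4⟩ := H.one h2 h1
  refine Or.inr (Or.inr ⟨h2, h1, h3, h4, ?_⟩)
  rw [dp_aeval, map_prod]
  exact Finset.prod_eq_one fun l _ => h4 l

end Pool.Agent.ETB
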