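import Pool.Agent.ETB.CvA
import Pool.Agent.CST.Fin

/-!
# MODULE ETB-Rep : the places over `y = b l`

Adaptation of Pool/Agent/ETI/Inf.lean: with `u = y - b l` one has `u = q x ^ (-(g+1)) (1 + small)` at the places
where `u` is small, every `t` is `∑_{j ≤ g} r_j(y) x^j`, and the exponents of the terms are different modulo `g + 1`.
-/

open scoped BigOperators Polynomial
open Polynomial

namespace Pool.Agent.ETB

open Pool.Agent.ETU Pool.Agent.CST Pool.Agent.Helper11 Pool.Agent.ISI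
open Pool.Agent.ETI (Tm Bd xa xa_val Hf)

section lead

variable {K : Type} [Field K] [CharZero K]

private theorem Rep_rle {O : ValuationSubring K} (hO : IsPl O) (q : ℚ) :
    O.valuation (q : K) ≤ 1 := (O.valuation_le_one_iff _).2 (hO.2 q)

private theorem Rep_rat {O : ValuationSubring K} (hO : IsPl O) {q : ℚ} (hq : q ≠ 0) :
    O.valuation (q : K) = 1 := by
  have h1 := Rep_rle hO q
  have h2 : O.valuation ((q : K)⁻¹) ≤ 1 := by
    have := Rep_rle (K := K) hO q⁻¹
    rwa [Rat.cast_inv] at this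
  rw [map_inv₀] at h2
  have h3 : O.valuation (q : K) ≠ 0 := (O.valuation.ne_zero_iff).2 (Rat.cast_ne_zero.2 hq)
  exact le_antisymm h1 ((inv_le_one₀ (zero_lt_iff.2 h3)).1 h2)

/-- `t = q x ^ k (1 + small)` at all places where `u` is small -/
private def RepLd (x u t : K) (k : ℤ) (q : ℚ) : Prop :=
  q ≠ 0 ∧ ∀ O : ValuationSubring K, IsPl O → O.valuation u < 1 →
    1 < O.valuation x ∧ O.valuation (t * x ^ (-k) - q) < 1

private theorem Rep_one {x : K} {O : ValuationSubring K} (hO : IsPl O) {t : K} {k : ℤ} {q : ℚ}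
    (hq : q ≠ 0) (h : O.valuation (t * x ^ (-k) - q) < 1) :
    O.valuation (t * x ^ (-k)) = 1 := by
  have h1 : t * x ^ (-k) = (t * x ^ (-k) - q) + (q : K) := by ring
  rw [h1, Valuation.map_add_eq_of_lt_right, Rep_rat hO hq]
  rwa [Rep_rat hO hq]

private theorem Rep_val {x : K} {O : ValuationSubring K} (hO : IsPl O) {t : K} {k : ℤ} {q : ℚ}
    (hq : q ≠ 0) (hx : 1 < O.valuation x) (h : O.valuation (t * x ^ (-k) - q) < 1) :
    O.valuation t = O.valuation x ^ k := by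
  have h1 := Rep_one hO hq h
  rw [map_mul, map_zpow₀, zpow_neg] at h1
  have h2 : O.valuation x ^ k ≠ 0 := zpow_ne_zero _ (fun h0 => by
    rw [h0] at hx
    exact not_lt_bot hx)
  exact (mul_inv_eq_one₀ h2).1 h1

private theorem Rep_mul {x u t t' : K} {k k' : ℤ} {q q' : ℚ}
    (h : RepLd x u t k q) (h' : RepLd x u t' k' q') : RepLd x u (t * t') (k + k') (q * q') := by
  refine ⟨mul_ne_zero h.1 h'.1, fun O hO hu => ?_⟩
  obtain ⟨hx, h1⟩ := h.2 O hO hu
  obtain ⟨-, h2⟩ := h'.2 O hO hu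
  refine ⟨hx, ?_⟩
  have hx0 : x ≠ 0 := by
    rintro rfl
    rw [map_zero] at hx
    exact not_lt_bot hx
  have h3 : t * t' * x ^ (-(k + k')) - ((q * q' : ℚ) : K) =
      (t * x ^ (-k) - q) * (t' * x ^ (-k')) + (q : K) * (t' * x ^ (-k') - q') := by
    rw [neg_add, zpow_add₀ hx0]
    push_cast
    ring
  rw [h3]
  refine Valuation.map_add_lt _ ?_ ?_
  · rw [map_mul, Rep_one hO h'.1 h2, mul_one]
    exact h1
  · rw [map_mul, Rep_rat hO h.1, one_mul]
    exact h2

private theorem Rep_inv {x u t : K} {k : ℤ} {q : ℚ} (ht : t ≠ 0)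
    (h : RepLd x u t k q) : RepLd x u t⁻¹ (-k) q⁻¹ := by
  refine ⟨inv_ne_zero h.1, fun O hO hu => ?_⟩
  obtain ⟨hx, h1⟩ := h.2 O hO hu
  refine ⟨hx, ?_⟩
  have hx0 : x ≠ 0 := by
    rintro rfl
    rw [map_zero] at hx
    exact not_lt_bot hx
  have hq : (q : K) ≠ 0 := Rat.cast_ne_zero.2 h.1
  have hk : x ^ k ≠ 0 := zpow_ne_zero _ hx0
  have h3 : t⁻¹ * x ^ (-(-k)) - ((q⁻¹ : ℚ) : K) =
      -((t * x ^ (-k) - q) * (t * x ^ (-k))⁻¹ * ((q⁻¹ : ℚ) : K)) := by
    rw [neg_neg, zpow_neg]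
    push_cast
    field_simp
    ring
  rw [h3, Valuation.map_neg, map_mul, map_mul, map_inv₀, Rep_one hO h.1 h1, inv_one, mul_one,
    Rep_rat hO (inv_ne_zero h.1), mul_one]
  exact h1

private theorem Rep_sum {x u : K} {ι : Type} {s : Finset ι} {T : ι → K} {k : ι → ℤ}
    {q : ι → ℚ} (hx : x ≠ 0) (hT : ∀ i ∈ s, T i ≠ 0 → RepLd x u (T i) (k i) (q i))
    (hk : ∀ i ∈ s, ∀ j ∈ s, T i ≠ 0 → T j ≠ 0 → k i = k j → i = j)
    (hne : ∃ i ∈ s, T i ≠ 0) :
    ∃ i ∈ s, T i ≠ 0 ∧ RepLd x u (∑ i ∈ s, T i) (k i) (q i) := by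
  classical
  obtain ⟨i0, hi0, hi0'⟩ := hne
  obtain ⟨i, hi, hmax⟩ := Finset.exists_max_image (s.filter fun i => T i ≠ 0) k
    ⟨i0, Finset.mem_filter.2 ⟨hi0, hi0'⟩⟩
  obtain ⟨his, hi'⟩ := Finset.mem_filter.1 hi
  refine ⟨i, his, hi', (hT i his hi').1, fun O hO hu => ?_⟩
  obtain ⟨hx1, h1⟩ := (hT i his hi').2 O hO hu
  refine ⟨hx1, ?_⟩
  have h2 : (∑ j ∈ s, T j) * x ^ (-k i) - (q i : K) =
      (T i * x ^ (-k i) - q i) + ∑ j ∈ s.erase i, T j * x ^ (-k i) := by
    rw [← Finset.add_sum_erase s T his, add_mul, Finset.sum_mul]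
    ring
  rw [h2]
  refine Valuation.map_add_lt _ h1 (Valuation.map_sum_lt _ one_ne_zero fun j hj => ?_)
  obtain ⟨hji, hjs⟩ := Finset.mem_erase.1 hj
  by_cases hj0 : T j = 0
  · rw [hj0, zero_mul, map_zero]
    exact zero_lt_one
  · have h3 := hT j hjs hj0
    have h4 : k j < k i := lt_of_le_of_ne (hmax j (Finset.mem_filter.2 ⟨hjs, hj0⟩))
      fun h => hji (hk j hjs i his hj0 hi' h)
    rw [map_mul, map_zpow₀, Rep_val hO h3.1 hx1 (h3.2 O hO hu).2,
      ← zpow_add₀ ((O.valuation.ne_zero_iff).2 hx)]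
    exact zpow_lt_one_of_neg₀ hx1 (by omega)

end lead

private theorem Rep_x {g r : ℕ} {a : Fin (g + 1) → ℤ} {b : Fin (r + 1) → ℤ} {c : ℤ} {K : Type}
    [Field K] [CharZero K] {x y : K} (H : Bid a b c x y) (l : Fin (r + 1))
    {O : ValuationSubring K} (hu : O.valuation (y - b l) < 1) : 1 < O.valuation x := by
  by_contra hx
  have h1 : x ∈ O := (O.valuation_le_one_iff _).1 (not_lt.1 hx)
  have h2 : y ∈ O := by
    have h3 : y = (y - b l) + (b l : K) := by ring
    rw [h3]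
    exact add_mem ((O.valuation_le_one_iff _).1 hu.le) (intCast_mem O (b l))
  exact hu.ne ((H.one h1 h2).2 l)

/-- `y - b l = q x ^ (-(g + 1)) (1 + small)` -/
private theorem Rep_u {g r : ℕ} {a : Fin (g + 1) → ℤ} {b : Fin (r + 1) → ℤ} {c : ℤ} {K : Type}
    [Field K] [CharZero K] {x y : K} (H : Bid a b c x y) (l : Fin (r + 1)) :
    ∃ q : ℚ, RepLd x (y - b l) (y - b l) (-(g + 1 : ℕ)) q := by
  classical
  have hxt : x ≠ 0 := fun h => H.trx (h ▸ isAlgebraic_zero)
  have hq1 : ∀ (O : ValuationSubring K) (n : ℤ), O.valuation (n : K) ≤ 1 :=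
    fun O n => (O.valuation_le_one_iff _).2 (intCast_mem O n)
  have hxa : ∀ e : ℤ, RepLd x (y - b l) (x - e) 1 1 := by
    intro e
    refine ⟨one_ne_zero, fun O hO hu => ⟨Rep_x H l hu, ?_⟩⟩
    have h1 : (x - (e : K)) * x ^ (-1 : ℤ) - ((1 : ℚ) : K) = -((e : K) * x⁻¹) := by
      rw [zpow_neg, zpow_one, sub_mul, mul_inv_cancel₀ hxt]
      push_cast
      ring
    rw [h1, Valuation.map_neg, map_mul, map_inv₀]
    exact (mul_le_of_le_one_left' (hq1 O e)).trans_lt (inv_lt_one_of_one_lt₀ (Rep_x H l hu))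
  have hpr : ∀ s : Finset (Fin (g + 1)),
      RepLd x (y - b l) (∏ i ∈ s, (x - a i)) (s.card : ℕ) 1 := by
    intro s
    induction s using Finset.induction_on with
    | empty =>
      refine ⟨one_ne_zero, fun O hO hu => ⟨Rep_x H l hu, ?_⟩⟩
      simp
    | insert i s hi ih =>
      rw [Finset.prod_insert hi, Finset.card_insert_of_notMem hi]
      have h1 := Rep_mul (hxa (a i)) ih
      rw [mul_one] at h1
      convert h1 using 1
      push_cast
      ring
  have hyb : ∀ l', l' ≠ l → RepLd x (y - b l) (y - b l') 0 ((b l - b l' : ℤ) : ℚ) := by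
    intro l' hl
    refine ⟨?_, fun O hO hu => ⟨Rep_x H l hu, ?_⟩⟩
    · rw [Int.cast_ne_zero, sub_ne_zero]
      exact fun h => hl (H.injb h).symm
    · have h1 : (y - (b l' : K)) * x ^ (-0 : ℤ) - (((b l - b l' : ℤ) : ℚ) : K) = y - b l := by
        rw [neg_zero, zpow_zero]
        push_cast
        ring
      rw [h1]
      exact hu
  have hpy : ∀ s : Finset (Fin (r + 1)), l ∉ s →
      ∃ q : ℚ, RepLd x (y - b l) (∏ i ∈ s, (y - b i)) 0 q := by
    intro s
    induction s using Finset.induction_on with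
    | empty =>
      intro _
      refine ⟨1, one_ne_zero, fun O hO hu => ⟨Rep_x H l hu, ?_⟩⟩
      simp
    | insert i s hi ih =>
      intro hl
      obtain ⟨q, h2⟩ := ih fun h => hl (Finset.mem_insert_of_mem h)
      rw [Finset.prod_insert hi]
      have h1 := Rep_mul (hyb i fun h => hl (h ▸ Finset.mem_insert_self i s)) h2
      rw [add_zero] at h1
      exact ⟨_, h1⟩
  have hc : RepLd x (y - b l) (c : K) 0 (c : ℚ) := by
    refine ⟨by exact_mod_cast H.c0, fun O hO hu => ⟨Rep_x H l hu, ?_⟩⟩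
    simp
  obtain ⟨q, h2⟩ := hpy (Finset.univ.erase l) (Finset.notMem_erase l _)
  have h1 := hpr Finset.univ
  rw [Finset.card_univ, Fintype.card_fin] at h1
  have h3 := Rep_mul (Rep_mul hc h1) h2
  rw [zero_add, add_zero] at h3
  have h4 : (c : K) * (∏ i, (x - a i)) * (∏ i ∈ Finset.univ.erase l, (y - b i)) *
      (y - b l) = 1 := by
    rw [mul_assoc, Finset.prod_erase_mul _ _ (Finset.mem_univ l)]
    exact H.eq
  have h5 := Rep_inv (left_ne_zero_of_mul_eq_one h4) h3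
  rw [inv_eq_of_mul_eq_one_right h4] at h5
  exact ⟨_, h5⟩

private theorem Rep_pow {K : Type} [Field K] [CharZero K] {x u t : K} {m : ℤ} {q : ℚ}
    (h : RepLd x u t m q) (n : ℕ) (hx : ∀ O : ValuationSubring K, IsPl O →
      O.valuation u < 1 → 1 < O.valuation x) : RepLd x u (t ^ n) (m * n) (q ^ n) := by
  induction n with
  | zero =>
    refine ⟨by simp, fun O hO hu => ⟨hx O hO hu, ?_⟩⟩
    simp
  | succ n ih =>
    have h1 := Rep_mul ih h
    rw [← pow_succ, ← pow_succ] at h1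
    convert h1 using 1
    push_cast
    ring

/-- elements of `ℚ(y)` -/
private theorem Rep_L {g r : ℕ} {a : Fin (g + 1) → ℤ} {b : Fin (r + 1) → ℤ} {c : ℤ} {K : Type}
    [Field K] [CharZero K] {x y : K} (H : Bid a b c x y) (l : Fin (r + 1)) {s : K}
    (hs : s ∈ IntermediateField.adjoin ℚ {y}) (hs0 : s ≠ 0) :
    ∃ (n : ℤ) (q : ℚ), RepLd x (y - b l) s ((g + 1 : ℕ) * n) q := by
  have hxt : x ≠ 0 := fun h => H.trx (h ▸ isAlgebraic_zero)
  obtain ⟨c0, hc0⟩ := Rep_u H l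
  have hu0 : y - (b l : K) ≠ 0 := fun h => H.try_ (by
    rw [sub_eq_zero.1 h]
    exact isAlgebraic_intCast (b l))
  have hpol : ∀ r : ℚ[X], r ≠ 0 → ∃ (n : ℤ) (q : ℚ),
      RepLd x (y - b l) (aeval (y - (b l : K)) r) ((g + 1 : ℕ) * n) q := by
    intro r hr
    rw [aeval_eq_sum_range]
    have h1 : ∀ i ∈ Finset.range (r.natDegree + 1), r.coeff i • (y - (b l : K)) ^ i ≠ 0 →
        RepLd x (y - b l) (r.coeff i • (y - (b l : K)) ^ i)
          (((g + 1 : ℕ) : ℤ) * (-(i : ℤ))) (r.coeff i * c0 ^ i) := by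
      intro i _ hi
      have h2 : r.coeff i ≠ 0 := by
        intro h
        rw [h, zero_smul] at hi
        exact hi rfl
      have h3 : RepLd x (y - b l) ((r.coeff i : ℚ) : K) 0 (r.coeff i) := by
        refine ⟨h2, fun O hO hu => ⟨Rep_x H l hu, ?_⟩⟩
        simp
      have h4 := Rep_mul h3 (Rep_pow hc0 i fun O _ hu => Rep_x H l hu)
      rw [zero_add, neg_mul, ← mul_neg] at h4
      rw [Algebra.smul_def, eq_ratCast]
      exact h4
    obtain ⟨i, -, -, h2⟩ := Rep_sum hxt h1 (by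
      intro i _ j _ _ _ hij
      have h3 : ((g + 1 : ℕ) : ℤ) ≠ 0 := by positivity
      exact_mod_cast neg_injective (mul_left_cancel₀ h3 hij)) ⟨r.natDegree, by simp, by
        rw [Algebra.smul_def]
        refine mul_ne_zero ?_ (pow_ne_zero _ hu0)
        rw [eq_ratCast, Rat.cast_ne_zero]
        exact leadingCoeff_ne_zero.2 hr⟩
    exact ⟨_, _, h2⟩
  have hpol' : ∀ r : ℚ[X], r ≠ 0 → ∃ (n : ℤ) (q : ℚ),
      RepLd x (y - b l) (aeval y r) ((g + 1 : ℕ) * n) q := by
    intro r hr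
    have h1 : aeval (y - (b l : K)) (r.comp (X + C ((b l : ℤ) : ℚ))) = aeval y r := by
      rw [aeval_comp, map_add, aeval_X, aeval_C, eq_ratCast, Rat.cast_intCast, sub_add_cancel]
    rw [← h1]
    refine hpol _ fun h => hr ?_
    rw [comp_eq_zero_iff] at h
    rcases h with h | h
    · exact h
    · exfalso
      have h2 := congrArg (fun p : ℚ[X] => p.coeff 1) h.2
      simp [coeff_X] at h2
  obtain ⟨r, r', rfl⟩ := (IntermediateField.mem_adjoin_simple_iff ℚ s).1 hs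
  have hr : aeval y r ≠ 0 := fun h => hs0 (by rw [h, zero_div])
  have hr' : aeval y r' ≠ 0 := fun h => hs0 (by rw [h, div_zero])
  obtain ⟨n, q, h1⟩ := hpol' r fun h => hr (by rw [h, map_zero])
  obtain ⟨n', q', h2⟩ := hpol' r' fun h => hr' (by rw [h, map_zero])
  refine ⟨n - n', q * q'⁻¹, ?_⟩
  rw [div_eq_mul_inv]
  convert Rep_mul h1 (Rep_inv hr' h2) using 1
  ring

/-- every element is `∑ j < g + 1, r_j x ^ j` with `r_j` in `ℚ(y)` -/
private theorem Rep_red {g r : ℕ} {a : Fin (g + 1) → ℤ} {b : Fin (r + 1) → ℤ} {c : ℤ} {K : Type}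
    [Field K] [CharZero K] {x y : K} (H : Bid a b c x y) (t : K) :
    ∃ r : ℕ → K, (∀ j, r j ∈ IntermediateField.adjoin ℚ {y}) ∧
      t = ∑ j ∈ Finset.range (g + 1), r j * x ^ j := by
  set L := IntermediateField.adjoin ℚ {y} with hL
  have hyL : y ∈ L := IntermediateField.mem_adjoin_simple_self ℚ y
  have hwL : -((c : K) * ∏ l, (y - b l))⁻¹ ∈ L :=
    neg_mem (inv_mem (mul_mem (intCast_mem L c)
      (prod_mem fun i _ => sub_mem hyL (intCast_mem L (b i)))))
  let w : L := ⟨_, hwL⟩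
  let P : L[X] := ∏ i, (X - C ((a i : ℤ) : L))
  have hP : P.Monic := monic_prod_of_monic _ _ fun i _ => monic_X_sub_C _
  have hPd : P.natDegree = g + 1 := by
    rw [natDegree_prod_of_monic _ _ fun i _ => monic_X_sub_C _]
    have h1 : ∀ i : Fin (g + 1), (X - C ((a i : ℤ) : L)).natDegree = 1 :=
      fun i => natDegree_X_sub_C _
    rw [Finset.sum_congr rfl fun i _ => h1 i, Finset.sum_const, Finset.card_univ,
      Fintype.card_fin, smul_eq_mul, mul_one]
  have hdeg : (C w).degree < P.degree := by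
    rw [degree_eq_natDegree hP.ne_zero, hPd]
    exact degree_C_le.trans_lt (by exact_mod_cast Nat.succ_pos g)
  have hQ : (P + C w).Monic := hP.add_of_left hdeg
  have hQd : (P + C w).natDegree = g + 1 := by
    rw [natDegree_add_C, hPd]
  have hQx : aeval x (P + C w) = 0 := by
    rw [map_add, aeval_C, map_prod]
    have h1 : ∀ i, aeval x (X - C ((a i : ℤ) : L)) = x - (a i : K) := by
      intro i
      rw [map_sub, aeval_X, aeval_C, map_intCast]
    rw [Finset.prod_congr rfl fun i _ => h1 i]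
    change ∏ i, (x - (a i : K)) + -((c : K) * ∏ l, (y - b l))⁻¹ = 0
    have h2 : ((c : K) * ∏ l, (y - b l)) * ∏ i, (x - (a i : K)) = 1 := by
      rw [← H.eq]
      ring
    rw [inv_eq_of_mul_eq_one_right h2, add_neg_cancel]
  have hint : IsIntegral L x := ⟨_, hQ, hQx⟩
  have htop : t ∈ IntermediateField.adjoin L {x} := by
    have h1 : (IntermediateField.adjoin L {x}).restrictScalars ℚ =
        IntermediateField.adjoin ℚ {y, x} :=
      IntermediateField.adjoin_simple_adjoin_simple ℚ y x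
    rw [Set.pair_comm, H.top] at h1
    have h2 : t ∈ (IntermediateField.adjoin L {x}).restrictScalars ℚ := by
      rw [h1]
      exact IntermediateField.mem_top
    exact h2
  have ht : t ∈ Algebra.adjoin L {x} := by
    rw [← IntermediateField.adjoin_simple_toSubalgebra_of_isAlgebraic hint.isAlgebraic]
    exact htop
  rw [Algebra.adjoin_singleton_eq_range_aeval] at ht
  obtain ⟨R, hR⟩ := ht
  have hR' : aeval x (R %ₘ (P + C w)) = t := by
    rw [aeval_modByMonic_eq_self_of_root hQx]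
    exact hR
  refine ⟨fun j => ((R %ₘ (P + C w)).coeff j : K), fun j => SetLike.coe_mem _, ?_⟩
  rw [← hR', aeval_eq_sum_range' (n := g + 1)]
  · rfl
  · rw [← hQd]
    exact natDegree_modByMonic_lt _ hQ (fun h => by
      rw [h, natDegree_one] at hQd
      omega)

theorem Bid.rep {g r : ℕ} {a : Fin (g + 1) → ℤ} {b : Fin (r + 1) → ℤ} {c : ℤ} {K : Type} [Field K]
    [CharZero K] {x y : K} (H : Bid a b c x y) (l : Fin (r + 1)) {t : K} (ht : t ≠ 0) :
    ∃ (k : ℤ) (q : ℚ), q ≠ 0 ∧ ∀ O : ValuationSubring K, IsPl O → O.valuation (y - b l) < 1 →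
      1 < O.valuation x ∧ O.valuation (t * x ^ (-k) - q) < 1 := by
  classical
  have hxt : x ≠ 0 := fun h => H.trx (h ▸ isAlgebraic_zero)
  obtain ⟨r, hr, hrt⟩ := Rep_red H t
  have hch : ∀ j, ∃ (n : ℤ) (q : ℚ), r j ≠ 0 →
      RepLd x (y - b l) (r j) ((g + 1 : ℕ) * n) q := by
    intro j
    by_cases h : r j = 0
    · exact ⟨0, 0, fun h' => absurd h h'⟩
    · obtain ⟨n, q, h1⟩ := Rep_L H l (hr j) h
      exact ⟨n, q, fun _ => h1⟩
  choose n q hnq using hch
  have hx1 : RepLd x (y - b l) x 1 1 := by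
    refine ⟨one_ne_zero, fun O hO hu => ⟨Rep_x H l hu, ?_⟩⟩
    rw [zpow_neg, zpow_one, mul_inv_cancel₀ hxt, Rat.cast_one, sub_self, map_zero]
    exact zero_lt_one
  have hT : ∀ j ∈ Finset.range (g + 1), r j * x ^ j ≠ 0 →
      RepLd x (y - b l) (r j * x ^ j) ((g + 1 : ℕ) * n j + j) (q j) := by
    intro j _ hj
    have h1 := Rep_mul (hnq j (left_ne_zero_of_mul hj))
      (Rep_pow hx1 j fun O _ hu => Rep_x H l hu)
    rw [one_pow, mul_one, one_mul] at h1
    exact h1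
  have hne : ∃ j ∈ Finset.range (g + 1), r j * x ^ j ≠ 0 := by
    by_contra hcon
    push Not at hcon
    exact ht (by rw [hrt]; exact Finset.sum_eq_zero hcon)
  obtain ⟨j, -, -, h2⟩ := Rep_sum hxt hT (by
    intro i hi j hj _ _ hij
    rw [Finset.mem_range] at hi hj
    have h3 : (((g + 1 : ℕ) : ℤ) * n i + i) % ((g + 1 : ℕ) : ℤ) =
        (((g + 1 : ℕ) : ℤ) * n j + j) % ((g + 1 : ℕ) : ℤ) := by rw [hij]
    rw [Int.mul_add_emod_self_left, Int.mul_add_emod_self_left,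
      Int.emod_eq_of_lt (by omega) (by omega), Int.emod_eq_of_lt (by omega) (by omega)] at h3
    exact_mod_cast h3) hne
  rw [← hrt] at h2
  exact ⟨_, _, h2⟩

theorem Bid.uniq_pl {g r : ℕ} {a : Fin (g + 1) → ℤ} {b : Fin (r + 1) → ℤ} {c : ℤ} {K : Type}
    [Field K] [CharZero K] {x y : K} (H : Bid a b c x y) {l : Fin (r + 1)}
    {O O' : ValuationSubring K} (hO : IsPl O) (hO' : IsPl O') (h : O.valuation (y - b l) < 1)
    (h' : O'.valuation (y - b l) < 1) : O = O' := by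
  have key : ∀ O : ValuationSubring K, IsPl O → O.valuation (y - b l) < 1 →
      ∀ (t : K) (k : ℤ) (q : ℚ), q ≠ 0 →
      (∀ O : ValuationSubring K, IsPl O → O.valuation (y - b l) < 1 →
        1 < O.valuation x ∧ O.valuation (t * x ^ (-k) - q) < 1) → (t ∈ O ↔ k ≤ 0) := by
    intro O hO h t k q hq hk
    obtain ⟨h1, h2⟩ := hk O hO h
    rw [← O.valuation_le_one_iff, Rep_val hO hq h1 h2]
    constructor
    · intro h3
      by_contra h4
      exact absurd (one_lt_zpow₀ h1 (not_le.1 h4)) (not_lt.2 h3)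
    · intro h3
      exact zpow_le_one_of_nonpos₀ h1.le h3
  ext t
  by_cases ht : t = 0
  · rw [ht]
    exact ⟨fun _ => O'.zero_mem, fun _ => O.zero_mem⟩
  · obtain ⟨k, q, hq, hk⟩ := H.rep l ht
    rw [key O hO h t k q hq hk, key O' hO' h' t k q hq hk]

private theorem Rep_alg {K : Type} [Field K] [CharZero K] {O : ValuationSubring K}
    (hO : IsPl O) {e : K} (he : IsAlgebraic ℚ e) : e ∈ O := by
  obtain ⟨p, hp, hpb⟩ := he.isIntegral
  have hφ : ∀ q : ℚ, algebraMap ℚ K q ∈ O.toSubring := fun q => hO.2 q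
  have h1 : IsIntegral O e := by
    refine ⟨p.map ((algebraMap ℚ K).codRestrict O.toSubring hφ), hp.map _, ?_⟩
    rw [eval₂_map]
    exact hpb
  obtain ⟨y, hy⟩ := IsIntegrallyClosed.isIntegral_iff.1 h1
  rw [← hy]
  exact y.2

private theorem Rep_unit {K : Type} [Field K] [CharZero K] {O : ValuationSubring K}
    (hO : IsPl O) {e : K} (he : IsAlgebraic ℚ e) (h0 : e ≠ 0) : O.valuation e = 1 := by
  have h1 : O.valuation e ≤ 1 := (O.valuation_le_one_iff _).2 (Rep_alg hO he)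
  have h2 : O.valuation e⁻¹ ≤ 1 :=
    (O.valuation_le_one_iff _).2 (Rep_alg hO (IsAlgebraic.inv_iff.2 he))
  rw [map_inv₀] at h2
  have h3 : O.valuation e ≠ 0 := (O.valuation.ne_zero_iff).2 h0
  exact le_antisymm h1 ((inv_le_one₀ (zero_lt_iff.2 h3)).1 h2)

theorem Bid.cst {g r : ℕ} {a : Fin (g + 1) → ℤ} {b : Fin (r + 1) → ℤ} {c : ℤ} {K : Type} [Field K]
    [CharZero K] {x y : K} (H : Bid a b c x y) :
    ∀ t : K, IsAlgebraic ℚ t → ∃ q : ℚ, (q : K) = t := by
  intro t ht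
  by_cases ht0 : t = 0
  · exact ⟨0, by rw [ht0, Rat.cast_zero]⟩
  have hv1 : Transcendental ℚ (y - (b 0 : K)) := fun e => H.try_ (by
    have h1 := e.add (isAlgebraic_intCast (R := ℚ) (A := K) (b 0))
    rwa [sub_add_cancel] at h1)
  obtain ⟨O, hO, hOv⟩ := exists_zero hv1 (finite_of_transcendental H.fin hv1)
  obtain ⟨k, q, hq, hk⟩ := H.rep 0 ht0
  obtain ⟨h1, h2⟩ := hk O hO hOv
  have h3 := Rep_val hO hq h1 h2
  rw [Rep_unit hO ht ht0] at h3
  have hk0 : k = 0 := by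
    rcases lt_trichotomy k 0 with h | h | h
    · exact absurd h3 (zpow_lt_one_of_neg₀ h1 h).ne'
    · exact h
    · exact absurd h3 (one_lt_zpow₀ h1 h).ne
  rw [hk0, neg_zero, zpow_zero, mul_one] at h2
  refine ⟨q, ?_⟩
  by_contra hne
  have h4 : t - (q : K) ≠ 0 := fun h => hne (sub_eq_zero.1 h).symm
  have h5 : IsAlgebraic ℚ (t - (q : K)) := ht.sub (isAlgebraic_algebraMap q)
  exact absurd (Rep_unit hO h5 h4) h2.ne

end Pool.Agent.ETB
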