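import Pool.Agent.ETB.Rep
import Pool.Agent.ETB.PlA

/-!
# MODULE ETB-Sun : functions without zeros and poles where `v` and `D(v)` are units

Adaptation of Pool/Agent/ETI/Sun.lean. The places where `h` may have a zero or a pole are: `P_l` over `v = b l` (one place for each `l`,
`Bid.uniq_pl`, `Bid.exists_b`), `Q_i` over `x = a i` (one place for each `i`, `H.bid.symm.uniq_pl`, `H.bid.symm.exists_b`), see `Bid.cases`.
With `k l` the exponent of `h` at `P_l` (`h x^(-k l) → q`, `Bid.rep`) and `k' i` that at `Q_i` (`h v^(-k' i) → q`, `Bid.symm.rep`),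
`M = (g+1)(r+1)`, `s l = -(r+1) k l`, `t i = -∑ k l - (g+1) k' i` (`i ≥ 1`) the function
`h^M ∏ (v - b l)^(-s l) ∏_{i ≥ 1} ((x - a i)/(x - a 0))^(-t i)` is a unit at all `P_l` (there `v - b l ~ x^(-(g+1))`, `(x-a i)/(x-a 0) → 1`)
and all `Q_i`, `i ≥ 1` (there `v - b l ~ v`, `x - a i ~ v^(-(r+1))`, the other `x - a k` are units), hence at all places except perhaps `Q_0`; a
transcendental function has a zero and a pole, which are different places (`exists_zero`), so it is algebraic, hence rational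
(`Bid.cst`). `e i = t i`, `e 0 = -∑_{i≥1} t i`; `p / q = const ∏ (T - b l)^(s l)`.
-/

open scoped BigOperators Polynomial
open Polynomial

namespace Pool.Agent.ETB

open Pool.Agent.ETU Pool.Agent.CST Pool.Agent.Helper11 Pool.Agent.ISI
open Pool.Agent.ETI (Tm Bd xa xa_val Hf)

/-- `u` is a quotient of polynomials in `v` -/
private def sunR {K : Type} [Field K] [CharZero K] (v : K) (u : Kˣ) : Prop :=
  ∃ p q : ℚ[X], p ≠ 0 ∧ q ≠ 0 ∧ u = pq v p / pq v q

private theorem sunR_mul {K : Type} [Field K] [CharZero K] {v : K} (hv : Transcendental ℚ v)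
    {u w : Kˣ} (h : sunR v u) (h' : sunR v w) : sunR v (u * w) := by
  obtain ⟨p, q, hp, hq, rfl⟩ := h
  obtain ⟨p', q', hp', hq', rfl⟩ := h'
  refine ⟨p * p', q * q', mul_ne_zero hp hp', mul_ne_zero hq hq', ?_⟩
  rw [pq_mul hv hp hp', pq_mul hv hq hq', mul_div_mul_comm]

private theorem sunR_inv {K : Type} [Field K] [CharZero K] {v : K} {u : Kˣ} (h : sunR v u) :
    sunR v u⁻¹ := by
  obtain ⟨p, q, hp, hq, rfl⟩ := h
  exact ⟨q, p, hq, hp, by rw [inv_div]⟩

private theorem sunR_of {K : Type} [Field K] [CharZero K] {v : K} (hv : Transcendental ℚ v)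
    {p : ℚ[X]} (hp : p ≠ 0) : sunR v (pq v p) := by
  refine ⟨p, 1, hp, one_ne_zero, ?_⟩
  have h1 : pq v (1 : ℚ[X]) = 1 := by
    apply Units.ext
    rw [pq_val hv one_ne_zero, map_one, Units.val_one]
  rw [h1, div_one]

private theorem sunR_one {K : Type} [Field K] [CharZero K] {v : K} : sunR v (1 : Kˣ) :=
  ⟨1, 1, one_ne_zero, one_ne_zero, (div_self' _).symm⟩

private theorem sunR_pow {K : Type} [Field K] [CharZero K] {v : K} (hv : Transcendental ℚ v)
    {u : Kˣ} (h : sunR v u) (n : ℕ) : sunR v (u ^ n) := by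
  induction n with
  | zero => rw [pow_zero]; exact sunR_one
  | succ n ih => rw [pow_succ]; exact sunR_mul hv ih h

private theorem sunR_zpow {K : Type} [Field K] [CharZero K] {v : K} (hv : Transcendental ℚ v)
    {u : Kˣ} (h : sunR v u) (n : ℤ) : sunR v (u ^ n) := by
  obtain ⟨m, rfl | rfl⟩ := Int.eq_nat_or_neg n
  · rw [zpow_natCast]
    exact sunR_pow hv h m
  · rw [zpow_neg, zpow_natCast]
    exact sunR_inv (sunR_pow hv h m)

private theorem sun_rat {K : Type} [Field K] [CharZero K] {O : ValuationSubring K} (hO : IsPl O)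
    {q : ℚ} (hq : (q : K) ≠ 0) : O.valuation (q : K) = 1 := by
  have h1 : O.valuation (q : K) ≤ 1 := (O.valuation_le_one_iff _).2 (hO.2 q)
  have h2 : O.valuation ((q : K)⁻¹) ≤ 1 := (O.valuation_le_one_iff _).2 (by
    have := hO.2 q⁻¹
    rwa [Rat.cast_inv] at this)
  rw [map_inv₀] at h2
  have h3 : O.valuation (q : K) ≠ 0 := (O.valuation.ne_zero_iff).2 hq
  exact le_antisymm h1 ((inv_le_one₀ (zero_lt_iff.2 h3)).1 h2)

private theorem sun_int {K : Type} [Field K] [CharZero K] {O : ValuationSubring K} (hO : IsPl O)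
    {n : ℤ} (hn : n ≠ 0) : O.valuation (n : K) = 1 := by
  have h1 : ((n : ℚ) : K) = (n : K) := Rat.cast_intCast n
  rw [← h1]
  refine sun_rat hO ?_
  rw [h1]
  exact Int.cast_ne_zero.2 hn

private theorem sun_vo_Hf {g : ℕ} {K : Type} [Field K] [CharZero K] (x : K)
    (a : Fin (g + 1) → ℤ) (e : Fin (g + 1) → ℤ) (O : ValuationSubring K) :
    vo O (Hf x a e) = ∑ l, e l * vo O (xa x a l) := by
  unfold Hf
  rw [vo_prod]
  exact Finset.sum_congr rfl fun l _ => vo_zpow _ _ _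

private theorem sun_eq {K : Type} [Field K] [CharZero K] {O : ValuationSubring K} (hO : IsPl O)
    {s t : Kˣ} (h : O.valuation (s : K) = O.valuation (t : K)) : vo O s = vo O t := by
  have h1 : vo O (s * t⁻¹) = 0 := by
    rw [vo_eq_zero_iff hO, Units.val_mul, Units.val_inv_eq_inv_val, map_mul, map_inv₀, h,
      mul_inv_cancel₀]
    exact (O.valuation.ne_zero_iff).2 t.ne_zero
  have h2 := vo_mul O s t⁻¹
  have h3 := vo_zpow O t (-1)
  rw [zpow_neg_one] at h3
  rw [h1, h3] at h2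
  linarith

private theorem sun_k {K : Type} [Field K] [CharZero K] {O : ValuationSubring K} (hO : IsPl O)
    {t x : Kˣ} {k : ℤ} {q : ℚ} (hq : q ≠ 0)
    (h : O.valuation ((t : K) * (x : K) ^ (-k) - q) < 1) : vo O t = k * vo O x := by
  have h0 : (q : K) ≠ 0 := Rat.cast_ne_zero.2 hq
  have h1 : O.valuation ((t : K) * (x : K) ^ (-k)) = 1 := by
    have h2 : (t : K) * (x : K) ^ (-k) = ((t : K) * (x : K) ^ (-k) - q) + (q : K) := by ring
    rw [h2, Valuation.map_add_eq_of_lt_right _ (by rw [sun_rat hO h0]; exact h), sun_rat hO h0]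
  have h2 : vo O (t * x ^ (-k)) = 0 := by
    rw [vo_eq_zero_iff hO, Units.val_mul, Units.val_zpow_eq_zpow_val]
    exact h1
  rw [vo_mul, vo_zpow] at h2
  linarith

/-- the orders at a place over `y = b l` -/
private theorem sun_tot {g r : ℕ} {a : Fin (g + 1) → ℤ} {b : Fin (r + 1) → ℤ} {c : ℤ} {K : Type}
    [Field K] [CharZero K] {x y : K} (H : Bid a b c x y) (l : Fin (r + 1)) (h X0 : Kˣ)
    (hX0 : (X0 : K) = x) :
    ∃ k : ℤ, ∀ O : ValuationSubring K, IsPl O → O.valuation (y - b l) < 1 →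
      ∀ (M : ℤ) (A : Fin (r + 1) → ℤ) (E : Fin (g + 1) → ℤ),
        vo O (h ^ M * Hf y b A * Hf x a E) =
          (M * k - (g + 1) * A l + ∑ i, E i) * vo O X0 := by
  obtain ⟨k, q, hq, hk⟩ := H.rep l h.ne_zero
  refine ⟨k, fun O hO hu M A E => ?_⟩
  obtain ⟨hx1, hk1⟩ := hk O hO hu
  obtain ⟨-, h2, -, h4⟩ := H.at_b hO hu
  have h5 : vo O h = k * vo O X0 := by
    refine sun_k hO hq ?_
    rw [hX0]
    exact hk1
  have h6 : vo O (xa y b l) = -((g : ℤ) + 1) * vo O X0 := by
    have h7 : vo O (xa y b l * X0 ^ ((g : ℤ) + 1)) = 0 := by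
      rw [vo_eq_zero_iff hO, Units.val_mul, Units.val_zpow_eq_zpow_val, xa_val H.try_, hX0,
        map_mul, map_zpow₀]
      have h8 : O.valuation x ^ ((g : ℤ) + 1) = O.valuation x ^ (g + 1) := by
        have h9 : ((g : ℤ) + 1) = ((g + 1 : ℕ) : ℤ) := by push_cast; rfl
        rw [h9, zpow_natCast]
      rw [h8]
      exact h4
    rw [vo_mul, vo_zpow] at h7
    linarith
  have h7 : ∀ j, j ≠ l → vo O (xa y b j) = 0 := by
    intro j hj
    rw [vo_eq_zero_iff hO, xa_val H.try_]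
    exact h2 j hj
  have h8 : ∀ i, vo O (xa x a i) = vo O X0 := by
    intro i
    refine sun_eq hO ?_
    rw [xa_val H.trx, hX0]
    exact Valuation.map_sub_eq_of_lt_left _
      (((O.valuation_le_one_iff _).2 (intCast_mem O (a i))).trans_lt hx1)
  have h9 : vo O (Hf y b A) = A l * (-((g : ℤ) + 1) * vo O X0) := by
    rw [sun_vo_Hf, Finset.sum_eq_single l (fun j _ hj => by rw [h7 j hj, mul_zero])
      fun h => absurd (Finset.mem_univ l) h, h6]
  have h10 : vo O (Hf x a E) = (∑ i, E i) * vo O X0 := by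
    rw [sun_vo_Hf, Finset.sum_congr rfl fun i _ => by rw [h8 i], ← Finset.sum_mul]
  rw [vo_mul, vo_mul, vo_zpow, h5, h9, h10]
  ring

/-- a function with zeros and poles only over `x = a 0` is algebraic -/
private theorem sun_const {g r : ℕ} {a : Fin (g + 1) → ℤ} {b : Fin (r + 1) → ℤ} {c : ℤ} {K : Type}
    [Field K] [CharZero K] {x : K} {v : Kˣ} (H : Crv a b c x v) {k : Kˣ}
    (hk : ∀ O : ValuationSubring K, IsPl O → ¬ O.valuation (x - a 0) < 1 → vo O k = 0) :
    sunR (v : K) k := by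
  have hv : Transcendental ℚ (v : K) := H.bid.try_
  have halg : IsAlgebraic ℚ (k : K) := by
    by_contra ht
    have ht' : Transcendental ℚ (k : K) := ht
    have ht2 : Transcendental ℚ ((k⁻¹ : Kˣ) : K) := by
      intro h
      apply ht
      rw [Units.val_inv_eq_inv_val] at h
      exact IsAlgebraic.inv_iff.1 h
    obtain ⟨P, hP, h1⟩ := exists_zero ht' (finite_of_transcendental H.fin ht')
    obtain ⟨Q, hQ, h2⟩ := exists_zero ht2 (finite_of_transcendental H.fin ht2)
    have h3 := (vo_pos_iff hP k).2 h1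
    have h4 := (vo_pos_iff hQ k⁻¹).2 h2
    have h5 : ∀ O : ValuationSubring K, vo O k⁻¹ = - vo O k := by
      intro O
      have h6 := vo_zpow O k (-1)
      rw [zpow_neg_one] at h6
      rw [h6]
      ring
    rw [h5] at h4
    have h6 : P.valuation (x - a 0) < 1 := by
      by_contra h
      rw [hk P hP h] at h3
      exact lt_irrefl _ h3
    have h7 : Q.valuation (x - a 0) < 1 := by
      by_contra h
      rw [hk Q hQ h] at h4
      simp at h4
    have h8 := H.bid.symm.uniq_pl hP hQ h6 h7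
    rw [← h8] at h4
    linarith
  obtain ⟨q, hq⟩ := H.bid.cst (k : K) halg
  have hq0 : q ≠ 0 := by
    rintro rfl
    rw [Rat.cast_zero] at hq
    exact k.ne_zero hq.symm
  have h1 : k = pq (v : K) (C q) := by
    refine pq_congr hv (C_ne_zero.2 hq0) ?_
    rw [aeval_C, eq_ratCast, hq]
  rw [h1]
  exact sunR_of hv (C_ne_zero.2 hq0)

private theorem sunR_prod {K : Type} [Field K] [CharZero K] {v : K} (hv : Transcendental ℚ v)
    {ι : Type} (s : Finset ι) (f : ι → Kˣ) (h : ∀ i ∈ s, sunR v (f i)) :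
    sunR v (∏ i ∈ s, f i) := by
  classical
  induction s using Finset.induction_on with
  | empty => rw [Finset.prod_empty]; exact sunR_one
  | insert i s hi ih =>
    rw [Finset.prod_insert hi]
    exact sunR_mul hv (h i (Finset.mem_insert_self _ _))
      (ih fun j hj => h j (Finset.mem_insert_of_mem hj))

private theorem sunR_Hf {r : ℕ} {b : Fin (r + 1) → ℤ} {K : Type} [Field K] [CharZero K] {v : K}
    (hv : Transcendental ℚ v) (A : Fin (r + 1) → ℤ) : sunR v (Hf v b A) := by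
  unfold Hf
  refine sunR_prod hv _ _ fun l _ => sunR_zpow hv ?_ _
  have h1 : xa v b l = pq v (X - C (b l : ℚ)) := by
    refine pq_congr hv (X_sub_C_ne_zero _) ?_
    rw [xa_val hv, map_sub, aeval_X, aeval_C, eq_ratCast, Rat.cast_intCast]
  rw [h1]
  exact sunR_of hv (X_sub_C_ne_zero _)

theorem Crv.s_unit {g r : ℕ} {a : Fin (g + 1) → ℤ} {b : Fin (r + 1) → ℤ} {c : ℤ} {K : Type}
    [Field K] [CharZero K] {x : K} {v : Kˣ} (H : Crv a b c x v) (h : Kˣ)
    (hh : ∀ O : ValuationSubring K, IsPl O → O.valuation (v : K) = 1 →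
      O.valuation (aeval (v : K) (Dp b)) = 1 → vo O h = 0) :
    ∃ (M : ℕ) (e : Fin (g + 1) → ℤ) (p q : ℚ[X]), 0 < M ∧ ∑ l, e l = 0 ∧ p ≠ 0 ∧ q ≠ 0 ∧
      h ^ M = pq (v : K) p / pq (v : K) q * Hf x a e := by
  classical
  have hv : Transcendental ℚ (v : K) := H.bid.try_
  have hx : Transcendental ℚ x := H.bid.trx
  have hx0 : x ≠ 0 := fun h0 => hx (h0 ▸ isAlgebraic_zero)
  choose k hk using fun l => sun_tot H.bid l h (Units.mk0 x hx0) rfl
  choose k' hk' using fun i => sun_tot H.bid.symm i h v rfl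
  obtain ⟨A, hA⟩ : ∃ A : Fin (r + 1) → ℤ, ∀ l, A l = ((r : ℤ) + 1) * k l := ⟨_, fun _ => rfl⟩
  obtain ⟨E', hE'⟩ : ∃ E' : Fin (g + 1) → ℤ, ∀ i, E' i = ((g : ℤ) + 1) * k' i + ∑ l, k l :=
    ⟨_, fun _ => rfl⟩
  obtain ⟨E, hE⟩ : ∃ E : Fin (g + 1) → ℤ, ∀ i, E i = E' i - if i = 0 then ∑ j, E' j else 0 :=
    ⟨_, fun _ => rfl⟩
  have hE0 : ∑ i, E i = 0 := by
    rw [Finset.sum_congr rfl fun i _ => hE i, Finset.sum_sub_distrib, Finset.sum_ite_eq',
      if_pos (Finset.mem_univ _), sub_self]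
  have hAs : ∑ l, A l = ((r : ℤ) + 1) * ∑ l, k l := by
    rw [Finset.sum_congr rfl fun l _ => hA l, Finset.mul_sum]
  obtain ⟨M, hM⟩ : ∃ M : ℕ, M = (g + 1) * (r + 1) := ⟨_, rfl⟩
  have hMz : (M : ℤ) = ((g : ℤ) + 1) * ((r : ℤ) + 1) := by
    rw [hM]
    push_cast
    rfl
  obtain ⟨F, hF⟩ : ∃ F : Kˣ, F = h ^ (M : ℤ) * Hf (v : K) b A * Hf x a E := ⟨_, rfl⟩
  have hF0 : ∀ O : ValuationSubring K, IsPl O → ¬ O.valuation (x - a 0) < 1 → vo O F = 0 := by
    intro O hO h0
    rcases H.bid.cases hO with ⟨i, hi⟩ | ⟨l, hl⟩ | ⟨h1, h2, h3, h4, h5⟩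
    · have hi0 : i ≠ 0 := by
        rintro rfl
        exact h0 hi
      have h6 : F = h ^ (M : ℤ) * Hf x a E * Hf (v : K) b A := by
        rw [hF]
        ac_rfl
      rw [h6, hk' i O hO hi, hAs, hE, if_neg hi0, hE', hMz]
      ring
    · rw [hF, hk l O hO hl, hE0, hA, hMz]
      ring
    · have h6 : O.valuation (v : K) = 1 := by
        have h7 := h4 0
        rwa [H.b0, Int.cast_zero, sub_zero] at h7
      have h7 : vo O h = 0 := hh O hO h6 h5
      have h8 : ∀ l, vo O (xa (v : K) b l) = 0 := by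
        intro l
        rw [vo_eq_zero_iff hO, xa_val hv]
        exact h4 l
      have h9 : ∀ i, vo O (xa x a i) = 0 := by
        intro i
        rw [vo_eq_zero_iff hO, xa_val hx]
        exact h3 i
      rw [hF, vo_mul, vo_mul, vo_zpow, h7, sun_vo_Hf, sun_vo_Hf]
      simp [h8, h9]
  have hRF := sun_const H hF0
  have hRA : sunR (v : K) (F * (Hf (v : K) b A)⁻¹) := sunR_mul hv hRF (sunR_inv (sunR_Hf hv A))
  obtain ⟨p, q, hp, hq, hpq⟩ := hRA
  refine ⟨M, fun i => -E i, p, q, ?_, ?_, hp, hq, ?_⟩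
  · rw [hM]
    positivity
  · rw [Finset.sum_neg_distrib, hE0, neg_zero]
  · have h2 : Hf x a (fun i => -E i) = (Hf x a E)⁻¹ := by
      unfold Hf
      rw [← Finset.prod_inv_distrib]
      exact Finset.prod_congr rfl fun l _ => zpow_neg _ _
    rw [← hpq, h2, hF, zpow_natCast]
    have h3 : ∀ s t u : Kˣ, s * t * u * t⁻¹ * u⁻¹ = s := by
      intro s t u
      rw [mul_right_comm s t u, mul_inv_cancel_right, mul_inv_cancel_right]
    exact (h3 _ _ _).symm

end Pool.Agent.ETB
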