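import Pool.Agent.ETB.Nic
import Pool.Agent.ETB.Ker
import Pool.Agent.ETI.GdM
import Pool.Agent.ETI.DgU

/-!
# MODULE ETB-Uni : the places over the exceptional points are unique

Adaptation of Pool/Agent/ETI/Uni.lean with `Good f t` in place of `GoodD κ f t`: in the good case all `f i (α)` are units (`good_unit`), in
particular the `α - b l = f (ι l) (α)`, so `D(α)` is one. If there is no good root at both primes there is no root with `GoodD 0` either, and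
`ETI.deg_unif` with `κ = 0` applies.
-/

open scoped BigOperators Polynomial
open Polynomial

namespace Pool.Agent.ETB

open Pool.Agent.ETU Pool.Agent.CST Pool.Agent.Helper11 Pool.Agent.ISI
open Pool.Agent.ETI (Tm Bd xa xa_val Hf)

private theorem BUni_rel {M : Type} [Field M] [CharZero M] {P : ℚ[X]} {α : M}
    (hα : aeval α P = 0) {A B : ℤ[X]} {n : ℕ}
    (h : P ∣ (A ^ n - B ^ n).map (Int.castRingHom ℚ)) : (aeval α A) ^ n = (aeval α B) ^ n := by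
  obtain ⟨R, hR⟩ := h
  have h1 : aeval α ((A ^ n - B ^ n).map (Int.castRingHom ℚ)) = 0 := by
    rw [hR, map_mul, hα, zero_mul]
  have e : Int.castRingHom ℚ = algebraMap ℤ ℚ := rfl
  rw [e, aeval_map_algebraMap, map_sub, map_pow, map_pow, sub_eq_zero] at h1
  exact h1

private theorem BUni_nice {g r : ℕ} {a : Fin (g + 1) → ℤ} {b : Fin (r + 1) → ℤ} {c : ℤ}
    {K : Type} [Field K] [CharZero K] {x : K} {v : Kˣ} (H : Crv a b c x v) {p : ℕ}
    [Fact p.Prime] {s : ℕ} {f : Fin s → ℤ[X]} (hp : Prm p a b c f) {P : ℚ[X]} (hP : P.Monic)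
    (hP' : Irreducible P) (hn : Nice p b P) {O O' : ValuationSubring K} (hO : IsPl O)
    (hO' : IsPl O') (hv : O.valuation (aeval (v : K) P) < 1)
    (hv' : O'.valuation (aeval (v : K) P) < 1) : O = O' := by
  obtain ⟨F, hF⟩ := Pool.Agent.ETI.exists_tm (p := p) (m := g + 1) (Nat.succ_lt_succ H.g0) hp.cop
  obtain ⟨α, hα⟩ := IsAlgClosed.exists_aeval_eq_zero (PadicAlgCl p) P
    (degree_pos_of_irreducible hP').ne'
  obtain ⟨h1, h2, -⟩ := hn.2 α hα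
  exact H.pl_eq hp.val hF hP hP' hα (nice_mem hF hn hα) h1 h2 hO hO' hv hv'

private theorem BUni_good {g r : ℕ} {a : Fin (g + 1) → ℤ} {b : Fin (r + 1) → ℤ} {c : ℤ}
    {K : Type} [Field K] [CharZero K] {x : K} {v : Kˣ} (H : Crv a b c x v) {p : ℕ}
    [Fact p.Prime] {s : ℕ} {f : Fin s → ℤ[X]} {ι : Fin (r + 1) → Fin s}
    (hι : ∀ l, f (ι l) = X - C (b l)) (hp : Prm p a b c f) {P : ℚ[X]} (hP : P.Monic)
    (hP' : Irreducible P) {t : Fin s → ℤ} (hrel : Rel f t P) {α : PadicAlgCl p}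
    (hα : aeval α P = 0) (hg : Good f t α) {O O' : ValuationSubring K} (hO : IsPl O)
    (hO' : IsPl O') (hv : O.valuation (aeval (v : K) P) < 1)
    (hv' : O'.valuation (aeval (v : K) P) < 1) : O = O' := by
  obtain ⟨F, hF⟩ := Pool.Agent.ETI.exists_tm (p := p) (m := g + 1) (Nat.succ_lt_succ H.g0) hp.cop
  obtain ⟨n, hn, hd⟩ := hrel
  have h2 : ‖aeval α (Dp b)‖ = 1 := by
    rw [Dp, map_prod, norm_prod]
    refine Finset.prod_eq_one fun l _ => ?_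
    rw [← hι l]
    exact good_unit f t hn (BUni_rel hα hd) hg (ι l)
  exact H.pl_eq hp.val hF hP hP' hα
    (Pool.Agent.ETI.good_mem hF f t hn (BUni_rel hα hd) hg) hg.1 h2 hO hO' hv hv'

theorem Crv.uniq {g r : ℕ} {a : Fin (g + 1) → ℤ} {b : Fin (r + 1) → ℤ} {c : ℤ} {K : Type}
    [Field K] [CharZero K] {x : K} {v : Kˣ} (H : Crv a b c x v) {p₁ p₂ : ℕ} [Fact p₁.Prime]
    [Fact p₂.Prime] (h12 : p₁ ≠ p₂) {s : ℕ} {f : Fin s → ℤ[X]} {ι : Fin (r + 1) → Fin s}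
    (hι : ∀ l, f (ι l) = X - C (b l)) (hp₁ : Prm p₁ a b c f) (hp₂ : Prm p₂ a b c f)
    {P : ℚ[X]} (hP : P.Monic) (hP' : Irreducible P) (hX : ¬ P ∣ X)
    (hD : ¬ P ∣ (Dp b).map (Int.castRingHom ℚ))
    (hor : (∃ j, P ∣ (f j).map (Int.castRingHom ℚ)) ∨ ∃ t : Fin s → ℤ, Prim t ∧ Rel f t P)
    {O O' : ValuationSubring K} (hO : IsPl O) (hO' : IsPl O')
    (hv : O.valuation (aeval (v : K) P) < 1) (hv' : O'.valuation (aeval (v : K) P) < 1) :
    O = O' := by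
  rcases hor with hj | ⟨t, ht, hrel⟩
  · exact BUni_nice H hp₁ hP hP' (hp₁.nice P hP hP' hX hD (Or.inl hj)) hO hO' hv hv'
  by_cases hg₁ : ∃ α : PadicAlgCl p₁, aeval α P = 0 ∧ Good f t α
  · obtain ⟨α, hα, hg⟩ := hg₁
    exact BUni_good H hι hp₁ hP hP' hrel hα hg hO hO' hv hv'
  by_cases hg₂ : ∃ α : PadicAlgCl p₂, aeval α P = 0 ∧ Good f t α
  · obtain ⟨α, hα, hg⟩ := hg₂
    exact BUni_good H hι hp₂ hP hP' hrel hα hg hO hO' hv hv'
  have hdeg : P.natDegree ≤ Bd f := Pool.Agent.ETI.deg_unif h12 hp₁.fam hp₂.fam hp₁.big hp₂.big 0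
    ht hP hP' hrel (fun α hα hg => hg₁ ⟨α, hα, hg.1⟩) (fun α hα hg => hg₂ ⟨α, hα, hg.1⟩)
  have ht0 : t ≠ 0 := by
    rintro rfl
    obtain ⟨i, hi⟩ := ht 2 Nat.prime_two
    exact hi (dvd_zero _)
  exact BUni_nice H hp₁ hP hP' (hp₁.nice P hP hP' hX hD (Or.inr ⟨hdeg, t, ht0, hrel⟩)) hO hO' hv
    hv'

end Pool.Agent.ETB
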